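import Pool.Agent.C1D.Stmts
import Pool.Agent.SCM.MER

set_option autoImplicit false

/-!
# C1D, A3: Mertens sums of completely multiplicative functions

For a completely multiplicative real function with values in `[-1, 1]` the sum of `f p / p` over
the primes up to `z` is the logarithm of the Dirichlet series at `1 + 1 / log z` up to a bounded
error.
-/

namespace Pool.Agent.C1D

namespace A3

open Finset Filter Topology

/-- the primes up to `z` -/
abbrev Q (z : ℕ) : Finset ℕ := (Icc 1 z).filter Nat.Prime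

/-- the exponent -/
noncomputable def sg (z : ℕ) : ℝ := 1 + 1 / Real.log z

lemma log_pos' {z : ℕ} (hz : 2 ≤ z) : 0 < Real.log z :=
  Real.log_pos (by exact_mod_cast (by omega : 1 < z))

lemma log_ge {z : ℕ} (hz : 2 ≤ z) : (1 : ℝ) / 2 ≤ Real.log z := by
  have h1 : Real.log 2 ≤ Real.log z :=
    Real.log_le_log (by norm_num) (by exact_mod_cast hz)
  have h2 := Real.log_two_gt_d9
  linarith

lemma one_lt_sg {z : ℕ} (hz : 2 ≤ z) : 1 < sg z := by
  have := log_pos' hz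
  unfold sg
  have h : 0 < 1 / Real.log z := by positivity
  linarith

lemma sum_inv_ge (z : ℕ) (hz : 2 ≤ z) :
    Real.log (Real.log z) - 1 ≤ ∑ p ∈ Q z, (1 : ℝ) / p := by
  have h1 := Pool.Agent.PnMn.prod_one_sub_inv_le z (by omega)
  have hz' : (2 : ℝ) ≤ z := by exact_mod_cast hz
  have hL : 0 < Real.log z := Real.log_pos (by linarith)
  have h2 : Real.exp (-(∑ p ∈ Q z, (1 / (p : ℝ)) + ∑ p ∈ Q z, (1 / (p : ℝ)) ^ 2)) ≤
      ∏ p ∈ Q z, (1 - 1 / (p : ℝ)) := by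
    rw [← sum_add_distrib, ← sum_neg_distrib, Real.exp_sum]
    apply Finset.prod_le_prod
    · intro p _
      exact (Real.exp_pos _).le
    · intro p hp
      have hp2 : (2 : ℝ) ≤ p := by exact_mod_cast (mem_filter.1 hp).2.two_le
      apply Pool.Agent.SCM.MER_.exp_le (by positivity)
      rw [div_le_div_iff₀ (by linarith) (by norm_num)]
      linarith
  have h3 := Pool.Agent.SCM.MER_.sum_sq z hz
  have h4 : 1 / Real.log ((z : ℝ) + 1) ≤ 1 / Real.log z := by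
    apply one_div_le_one_div_of_le hL
    exact Real.log_le_log (by linarith) (by linarith)
  have h5 : Real.exp (-(∑ p ∈ Q z, (1 / (p : ℝ)) + ∑ p ∈ Q z, (1 / (p : ℝ)) ^ 2)) ≤
      Real.exp (-Real.log (Real.log z)) := by
    rw [Real.exp_neg (Real.log _), Real.exp_log hL, ← one_div]
    exact h2.trans (h1.trans h4)
  have h6 := Real.exp_le_exp.1 h5
  linarith

lemma rpow_sg {z : ℕ} (p : ℕ) (hp : 0 < p) :
    (p : ℝ) ^ (-sg z) = (1 / p) * Real.exp (-(1 / Real.log z * Real.log p)) := by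
  have hp0 : (0 : ℝ) < p := by exact_mod_cast hp
  unfold sg
  rw [neg_add, Real.rpow_add hp0, Real.rpow_neg_one, one_div, Real.rpow_def_of_pos hp0]
  congr 2 <;> ring

lemma rpow_le {z : ℕ} (hz : 2 ≤ z) (p : ℕ) (hp : 0 < p) : (p : ℝ) ^ (-sg z) ≤ 1 / p := by
  rw [rpow_sg p hp]
  have h1 : (1 : ℝ) ≤ p := by exact_mod_cast hp
  have h2 : 0 ≤ Real.log p := Real.log_nonneg h1
  have h3 := log_pos' hz
  have h4 : Real.exp (-(1 / Real.log z * Real.log p)) ≤ 1 := by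
    rw [Real.exp_le_one_iff]
    have : 0 ≤ 1 / Real.log z * Real.log p := by positivity
    linarith
  have h5 : (0 : ℝ) ≤ 1 / p := by positivity
  nlinarith

lemma sum_diff (z : ℕ) (hz : 2 ≤ z) :
    ∑ p ∈ Q z, ((1 : ℝ) / p - (p : ℝ) ^ (-sg z)) ≤ 5 := by
  have hL := log_pos' hz
  have h0 := Pool.Agent.PnMn.sum_log_div_le z (by omega)
  have h1 : ∀ p ∈ Q z, (1 : ℝ) / p - (p : ℝ) ^ (-sg z) ≤ 1 / Real.log z * (Real.log p / p) := by
    intro p hp
    have hpp := (Finset.mem_filter.mp hp).2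
    rw [rpow_sg p hpp.pos]
    have h4 := Real.add_one_le_exp (-(1 / Real.log z * Real.log p))
    have h5 : (0 : ℝ) ≤ 1 / p := by positivity
    have h6 : (1 : ℝ) / p * (-(1 / Real.log z * Real.log p) + 1) ≤
        1 / p * Real.exp (-(1 / Real.log z * Real.log p)) := by gcongr
    have h7 : 1 / Real.log z * (Real.log p / p) = 1 / p * (1 / Real.log z * Real.log p) := by ring
    rw [h7]
    nlinarith
  refine (sum_le_sum h1).trans ?_
  rw [← mul_sum]
  have h2 : Real.log 4 ≤ 4 * Real.log z := by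
    have h4 : Real.log 4 = 2 * Real.log 2 := by
      rw [show (4 : ℝ) = 2 ^ 2 by norm_num, Real.log_pow]; norm_num
    have h5 : Real.log 2 ≤ Real.log z := Real.log_le_log (by norm_num) (by exact_mod_cast hz)
    linarith
  rw [one_div_mul_eq_div, div_le_iff₀ hL]
  linarith

lemma sum_tail (z n : ℕ) (hz : 2 ≤ z) (hn : z ≤ n) :
    ∑ p ∈ Q n \ Q z, (p : ℝ) ^ (-sg z) ≤ 8 := by
  have hL := log_pos' hz
  have hL2 := log_ge hz
  have hsub : Q z ⊆ Q n := by
    intro p hp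
    simp only [Q, mem_filter, mem_Icc] at hp ⊢
    exact ⟨⟨hp.1.1, hp.1.2.trans hn⟩, hp.2⟩
  have h1 := Pool.Agent.PnMn.sum_prime_rpow_le (one_lt_sg hz) n
  have h2 := sum_diff z hz
  have h3 := sum_inv_ge z hz
  have h4 := sum_sdiff (f := fun p : ℕ => (p : ℝ) ^ (-sg z)) hsub
  rw [sum_sub_distrib] at h2
  have h5 : Real.log (sg z / (sg z - 1)) ≤ Real.log (Real.log z) + 2 := by
    have e : sg z / (sg z - 1) = Real.log z + 1 := by
      unfold sg
      field_simp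
      ring
    rw [e]
    have h6 : Real.log z + 1 ≤ Real.log z * 3 := by linarith
    have h7 : Real.log (Real.log z + 1) ≤ Real.log (Real.log z * 3) :=
      Real.log_le_log (by linarith) h6
    rw [Real.log_mul hL.ne' (by norm_num)] at h7
    have h8 : Real.log 3 ≤ 2 := by
      have := Real.log_le_sub_one_of_pos (show (0 : ℝ) < 3 by norm_num)
      linarith
    linarith
  linarith

/-- the terms of the Dirichlet series -/
noncomputable def term (f : ℕ →*₀ ℝ) (s : ℝ) (_ : 0 < s) : ℕ →*₀ ℝ where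
  toFun n := f n * (n : ℝ) ^ (-s)
  map_zero' := by simp
  map_one' := by simp
  map_mul' a b := by
    rw [map_mul, Nat.cast_mul, Real.mul_rpow (Nat.cast_nonneg a) (Nat.cast_nonneg b)]
    ring

lemma summable_term (f : ℕ → ℝ) (hf : ∀ n, |f n| ≤ 1) (s : ℝ) (hs : 1 < s) :
    Summable (fun n : ℕ => ‖f n * (n : ℝ) ^ (-s)‖) := by
  refine Summable.of_nonneg_of_le (fun n => norm_nonneg _) (fun n => ?_)
    (Real.summable_nat_rpow.mpr (by linarith : -s < -1))
  rw [norm_mul, Real.norm_eq_abs, Real.norm_of_nonneg (Real.rpow_nonneg (Nat.cast_nonneg n) _)]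
  have := Real.rpow_nonneg (Nat.cast_nonneg (α := ℝ) n) (-s)
  nlinarith [hf n]

theorem key (f : ℕ →*₀ ℝ) (hf : ∀ n, |f n| ≤ 1) (z : ℕ) (hz : 2 ≤ z) :
    0 < ∑' n : ℕ, f n * (n : ℝ) ^ (-sg z) ∧
    |∑ p ∈ Q z, f p / p - Real.log (∑' n : ℕ, f n * (n : ℝ) ^ (-sg z))| ≤ 15 := by
  have hs := one_lt_sg hz
  set g := term f (sg z) (by linarith) with hg
  have hg' : ∀ n, g n = f n * (n : ℝ) ^ (-sg z) := fun n => rfl
  have hsum : Summable (fun n => ‖g n‖) := summable_term (fun n => f n) hf (sg z) hs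
  have hE := EulerProduct.eulerProduct_completely_multiplicative hsum
  have hE' := (tendsto_add_atTop_iff_nat 1).2 hE
  have hset : ∀ n : ℕ, (n + 1).primesBelow = Q n := by
    intro n
    ext p
    simp only [Nat.mem_primesBelow, Q, Finset.mem_filter, Finset.mem_Icc]
    constructor
    · rintro ⟨h1, h2⟩; exact ⟨⟨h2.one_le, by omega⟩, h2⟩
    · rintro ⟨⟨_, h1⟩, h2⟩; exact ⟨by omega, h2⟩
  set S := ∑ p ∈ Q z, f p / p with hS
  have hgle : ∀ p : ℕ, p.Prime → |g p| ≤ 1 / p := by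
    intro p hp
    rw [hg', abs_mul, abs_of_nonneg (Real.rpow_nonneg (Nat.cast_nonneg p) _)]
    have h1 := rpow_le hz p hp.pos
    have h2 := Real.rpow_nonneg (Nat.cast_nonneg (α := ℝ) p) (-sg z)
    nlinarith [hf p]
  have hghalf : ∀ p : ℕ, p.Prime → |g p| ≤ 1 / 2 := by
    intro p hp
    refine (hgle p hp).trans ?_
    have : (2 : ℝ) ≤ p := by exact_mod_cast hp.two_le
    rw [div_le_div_iff₀ (by linarith) (by norm_num)]
    linarith
  have hlog : ∀ p : ℕ, p.Prime → |g p + Real.log (1 - g p)| ≤ 2 * (1 / (p : ℝ)) ^ 2 := by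
    intro p hp
    have h1 := Real.abs_log_sub_add_sum_range_le (x := g p)
      (lt_of_le_of_lt (hghalf p hp) (by norm_num)) 1
    simp only [sum_range_one, Nat.cast_zero, zero_add, pow_one, div_one] at h1
    refine h1.trans ?_
    have h2 := hghalf p hp
    have h3 := hgle p hp
    rw [div_le_iff₀ (by linarith)]
    have h4 : |g p| ^ (1 + 1) ≤ (1 / (p : ℝ)) ^ 2 := by
      norm_num only
      exact pow_le_pow_left₀ (abs_nonneg _) h3 2
    have h5 : 0 ≤ (1 / (p : ℝ)) ^ 2 := by positivity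
    nlinarith
  have hmain : ∀ n : ℕ, z ≤ n → |∑ p ∈ Q n, (-Real.log (1 - g p)) - S| ≤ 15 := by
    intro n hn
    have hsub : Q z ⊆ Q n := by
      intro p hp
      simp only [Q, mem_filter, mem_Icc] at hp ⊢
      exact ⟨⟨hp.1.1, hp.1.2.trans hn⟩, hp.2⟩
    have e1 : ∑ p ∈ Q n, (-Real.log (1 - g p)) - S =
        -(∑ p ∈ Q n, (g p + Real.log (1 - g p))) + ∑ p ∈ Q n \ Q z, g p +
          ∑ p ∈ Q z, (g p - f p / p) := by
      rw [sum_add_distrib, sum_sub_distrib, sum_neg_distrib,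
        ← sum_sdiff (f := fun p => g p) hsub, hS]
      ring
    have b1 : |∑ p ∈ Q n, (g p + Real.log (1 - g p))| ≤ 2 := by
      refine (abs_sum_le_sum_abs _ _).trans ?_
      refine (sum_le_sum fun p hp => hlog p (mem_filter.1 hp).2).trans ?_
      rw [← mul_sum]
      have := Pool.Agent.SCM.MER_.sum_sq n (by omega)
      linarith
    have b2 : |∑ p ∈ Q n \ Q z, g p| ≤ 8 := by
      refine (abs_sum_le_sum_abs _ _).trans ?_
      refine le_trans (sum_le_sum fun p hp => ?_) (sum_tail z n hz hn)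
      rw [hg', abs_mul, abs_of_nonneg (Real.rpow_nonneg (Nat.cast_nonneg p) _)]
      have h2 := Real.rpow_nonneg (Nat.cast_nonneg (α := ℝ) p) (-sg z)
      nlinarith [hf p]
    have b3 : |∑ p ∈ Q z, (g p - f p / p)| ≤ 5 := by
      refine (abs_sum_le_sum_abs _ _).trans ?_
      refine le_trans (sum_le_sum fun p hp => ?_) (sum_diff z hz)
      have hpp := (mem_filter.1 hp).2
      rw [hg', show f p * (p : ℝ) ^ (-sg z) - f p / p =
        -(f p * (1 / (p : ℝ) - (p : ℝ) ^ (-sg z))) by ring, abs_neg, abs_mul]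
      have h1 := rpow_le hz p hpp.pos
      rw [abs_of_nonneg (by linarith : (0 : ℝ) ≤ 1 / (p : ℝ) - (p : ℝ) ^ (-sg z))]
      nlinarith [hf p]
    rw [e1]
    rw [abs_le] at b1 b2 b3 ⊢
    constructor <;> linarith
  have hprod : ∀ n : ℕ, ∏ p ∈ Q n, (1 - g p)⁻¹ = Real.exp (∑ p ∈ Q n, (-Real.log (1 - g p))) := by
    intro n
    rw [Real.exp_sum]
    apply prod_congr rfl
    intro p hp
    have h1 := hghalf p (mem_filter.1 hp).2
    rw [abs_le] at h1
    rw [Real.exp_neg, Real.exp_log (by linarith)]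
  have hlow : Real.exp (S - 15) ≤ ∑' n, g n := by
    refine ge_of_tendsto hE' ?_
    filter_upwards [eventually_ge_atTop z] with n hn
    rw [hset, hprod]
    apply Real.exp_le_exp.2
    have := (abs_le.1 (hmain n hn)).1
    linarith
  have hupp : ∑' n, g n ≤ Real.exp (S + 15) := by
    refine le_of_tendsto hE' ?_
    filter_upwards [eventually_ge_atTop z] with n hn
    rw [hset, hprod]
    apply Real.exp_le_exp.2
    have := (abs_le.1 (hmain n hn)).2
    linarith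
  have hpos : 0 < ∑' n, g n := lt_of_lt_of_le (Real.exp_pos _) hlow
  have e : ∑' n : ℕ, f n * (n : ℝ) ^ (-sg z) = ∑' n, g n := rfl
  rw [e]
  refine ⟨hpos, ?_⟩
  have h1 := (Real.le_log_iff_exp_le hpos).2 hlow
  have h2 := (Real.log_le_iff_le_exp hpos).2 hupp
  rw [abs_le]
  constructor <;> linarith

/-! ### upper bound for the Dirichlet series -/

lemma psum_periodic (f : ℕ → ℝ) (q : ℕ) (hper : ∀ n, f (n + q) = f n)
    (h0 : ∑ n ∈ range q, f n = 0) (n : ℕ) :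
    ∑ m ∈ range (n + q), f m = ∑ m ∈ range n, f m := by
  rw [add_comm n q, sum_range_add, h0, zero_add]
  apply sum_congr rfl
  intro m _
  rw [add_comm q m, hper]

lemma psum_bound (f : ℕ → ℝ) (hf : ∀ n, |f n| ≤ 1) (q : ℕ) (hq : 1 ≤ q)
    (hper : ∀ n, f (n + q) = f n) (h0 : ∑ n ∈ range q, f n = 0) (n : ℕ) :
    |∑ m ∈ range n, f m| ≤ q := by
  induction n using Nat.strong_induction_on with
  | _ n ih =>
    rcases lt_or_ge n q with h | h
    · refine (abs_sum_le_sum_abs _ _).trans ?_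
      refine (sum_le_sum fun m _ => hf m).trans ?_
      simp only [sum_const, card_range, nsmul_eq_mul, mul_one]
      exact_mod_cast h.le
    · obtain ⟨m, rfl⟩ : ∃ m, n = m + q := ⟨n - q, by omega⟩
      rw [psum_periodic f q hper h0]
      exact ih m (by omega)

lemma head_le (q : ℕ) (hq : 1 ≤ q) (s : ℝ) (hs : 1 < s) :
    ∑ n ∈ range q, (n : ℝ) ^ (-s) ≤ 1 + Real.log q := by
  have h1 : ∑ n ∈ range q, (n : ℝ) ^ (-s) ≤ (harmonic q : ℝ) := by
    unfold harmonic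
    push_cast
    rw [← Nat.Ico_zero_eq_range]
    have : ∑ n ∈ Ico 0 q, (n : ℝ) ^ (-s) ≤ ∑ n ∈ range (q - 1), ((n : ℝ) + 1)⁻¹ := by
      rw [← sum_Ico_consecutive _ (Nat.zero_le 1) hq]
      have e0 : ∑ n ∈ (Ico 0 1 : Finset ℕ), (n : ℝ) ^ (-s) = 0 := by
        simp only [Nat.Ico_zero_eq_range, sum_range_one, Nat.cast_zero]
        exact Real.zero_rpow (by linarith)
      rw [e0, zero_add, sum_Ico_eq_sum_range]
      apply sum_le_sum
      intro n _
      push_cast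
      rw [add_comm (1 : ℝ)]
      have h2 : (1 : ℝ) ≤ (n : ℝ) + 1 := by
        have := Nat.cast_nonneg (α := ℝ) n
        linarith
      rw [← Real.rpow_neg_one]
      exact Real.rpow_le_rpow_of_exponent_le h2 (by linarith)
    refine this.trans ?_
    rw [Nat.Ico_zero_eq_range]
    apply sum_le_sum_of_subset_of_nonneg
    · intro n hn
      rw [mem_range] at hn ⊢
      omega
    · intro n _ _
      positivity
  exact h1.trans (harmonic_le_one_add_log q)

lemma tail_le (f : ℕ → ℝ) (hf : ∀ n, |f n| ≤ 1) (q : ℕ) (hq : 1 ≤ q)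
    (hper : ∀ n, f (n + q) = f n) (h0 : ∑ n ∈ range q, f n = 0) (s : ℝ) (hs : 1 < s) (k : ℕ) :
    |∑ n ∈ range k, f (q + n) * ((q + n : ℕ) : ℝ) ^ (-s) -
      (∑ m ∈ range (q + k), f m) * ((q + k : ℕ) : ℝ) ^ (-s)| ≤
      q * (((q : ℕ) : ℝ) ^ (-s) - ((q + k : ℕ) : ℝ) ^ (-s)) := by
  induction k with
  | zero => simp [h0]
  | succ k ih =>
    have hb := psum_bound f hf q hq hper h0 (q + k + 1)
    have hq0 : (0 : ℝ) < ((q + k : ℕ) : ℝ) := by
      have : 0 < q + k := by omega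
      exact_mod_cast this
    have hmono : ((q + (k + 1) : ℕ) : ℝ) ^ (-s) ≤ ((q + k : ℕ) : ℝ) ^ (-s) := by
      apply Real.rpow_le_rpow_of_nonpos hq0 _ (by linarith)
      push_cast
      linarith
    rw [sum_range_succ, show q + (k + 1) = q + k + 1 by ring]
    rw [show q + (k + 1) = q + k + 1 by ring] at hmono
    have e : ∑ n ∈ range k, f (q + n) * ((q + n : ℕ) : ℝ) ^ (-s) +
        f (q + k) * ((q + k : ℕ) : ℝ) ^ (-s) -
          (∑ m ∈ range (q + k + 1), f m) * ((q + k + 1 : ℕ) : ℝ) ^ (-s) =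
        (∑ n ∈ range k, f (q + n) * ((q + n : ℕ) : ℝ) ^ (-s) -
          (∑ m ∈ range (q + k), f m) * ((q + k : ℕ) : ℝ) ^ (-s)) +
        (∑ m ∈ range (q + k + 1), f m) *
          (((q + k : ℕ) : ℝ) ^ (-s) - ((q + k + 1 : ℕ) : ℝ) ^ (-s)) := by
      rw [sum_range_succ f (q + k)]
      ring
    rw [e]
    refine (abs_add_le _ _).trans ?_
    rw [abs_mul, abs_of_nonneg (sub_nonneg.2 hmono)]
    have h1 := mul_le_mul_of_nonneg_right hb (sub_nonneg.2 hmono)
    linarith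

/-- Upper bound for the Dirichlet series of a periodic function of mean value zero. -/
theorem series_le (f : ℕ → ℝ) (hf : ∀ n, |f n| ≤ 1) (q : ℕ) (hq : 1 ≤ q)
    (hper : ∀ n, f (n + q) = f n) (h0 : ∑ n ∈ range q, f n = 0) (s : ℝ) (hs : 1 < s) :
    ∑' n : ℕ, f n * (n : ℝ) ^ (-s) ≤ 2 + Real.log q := by
  have hsum := (summable_term f hf s hs).of_norm.hasSum.tendsto_sum_nat
  have hsum' := (tendsto_add_atTop_iff_nat q).2 hsum
  refine le_of_tendsto' hsum' fun k => ?_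
  rw [add_comm k q, sum_range_add]
  have h1 : ∑ n ∈ range q, f n * (n : ℝ) ^ (-s) ≤ 1 + Real.log q := by
    refine le_trans (sum_le_sum fun n _ => ?_) (head_le q hq s hs)
    have := Real.rpow_nonneg (Nat.cast_nonneg (α := ℝ) n) (-s)
    have h2 := (abs_le.1 (hf n)).2
    nlinarith
  have h2 := tail_le f hf q hq hper h0 s hs k
  have h3 := psum_bound f hf q hq hper h0 (q + k)
  have h4 := Real.rpow_nonneg (Nat.cast_nonneg (α := ℝ) (q + k)) (-s)
  have h5 : (∑ m ∈ range (q + k), f m) * ((q + k : ℕ) : ℝ) ^ (-s) ≤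
      q * ((q + k : ℕ) : ℝ) ^ (-s) := by
    have := (abs_le.1 h3).2
    nlinarith
  have h6 : (q : ℝ) * ((q : ℕ) : ℝ) ^ (-s) ≤ 1 := by
    have hq1 : (1 : ℝ) ≤ q := by exact_mod_cast hq
    have h7 : (q : ℝ) ^ (-s) ≤ (q : ℝ) ^ (-1 : ℝ) :=
      Real.rpow_le_rpow_of_exponent_le hq1 (by linarith)
    rw [Real.rpow_neg_one] at h7
    have h8 : (q : ℝ) * (q : ℝ)⁻¹ = 1 := mul_inv_cancel₀ (by linarith)
    nlinarith
  have h7 := (abs_le.1 h2).2
  linarith


/-! ### the three characters modulo 8 -/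

/-- a multiplicative table modulo 8 -/
structure Tab (t : ZMod 8 → ℤ) : Prop where
  zero : t 0 = 0
  one : t 1 = 1
  mul : ∀ a b, t (a * b) = t a * t b
  bd : ∀ a, |t a| ≤ 1
  even : t 2 = 0 ∧ t 4 = 0 ∧ t 6 = 0
  sum : t 0 + t 1 + t 2 + t 3 + t 4 + t 5 + t 6 + t 7 = 0

/-- the completely multiplicative function of a table -/
noncomputable def ofTab {t : ZMod 8 → ℤ} (h : Tab t) : ℕ →*₀ ℝ where
  toFun n := ((t (n : ZMod 8) : ℤ) : ℝ)
  map_zero' := by simp [h.zero]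
  map_one' := by simp [h.one]
  map_mul' a b := by
    rw [Nat.cast_mul, h.mul, Int.cast_mul]

lemma ofTab_apply {t : ZMod 8 → ℤ} (h : Tab t) (n : ℕ) : ofTab h n = ((t (n : ZMod 8) : ℤ) : ℝ) :=
  rfl

lemma ofTab_abs {t : ZMod 8 → ℤ} (h : Tab t) (n : ℕ) : |ofTab h n| ≤ 1 := by
  rw [ofTab_apply]
  exact_mod_cast h.bd _

lemma ofTab_per {t : ZMod 8 → ℤ} (h : Tab t) (n : ℕ) : ofTab h (n + 8) = ofTab h n := by
  rw [ofTab_apply, ofTab_apply]
  congr 2
  push_cast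
  have : (8 : ZMod 8) = 0 := by decide
  rw [this, add_zero]

lemma ofTab_sum {t : ZMod 8 → ℤ} (h : Tab t) : ∑ n ∈ range 8, ofTab h n = 0 := by
  have := h.sum
  simp only [sum_range_succ, range_zero, sum_empty, ofTab_apply, zero_add]
  exact_mod_cast this

/-- values in the block `8 k + r` -/
lemma ofTab_block {t : ZMod 8 → ℤ} (h : Tab t) (k r : ℕ) : ofTab h (8 * k + r) = ofTab h r := by
  rw [ofTab_apply, ofTab_apply]
  congr 2
  push_cast
  have : (8 : ZMod 8) = 0 := by decide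
  rw [this, zero_mul, zero_add]

lemma block_sum {t : ZMod 8 → ℤ} (h : Tab t) (s : ℝ) (k : ℕ) :
    ∑ n ∈ range (8 * (k + 1)), ofTab h n * (n : ℝ) ^ (-s) =
      ∑ n ∈ range (8 * k), ofTab h n * (n : ℝ) ^ (-s) +
        (((8 * k + 1 : ℕ) : ℝ) ^ (-s) + (t 3 : ℝ) * ((8 * k + 3 : ℕ) : ℝ) ^ (-s) +
          (t 5 : ℝ) * ((8 * k + 5 : ℕ) : ℝ) ^ (-s) + (t 7 : ℝ) * ((8 * k + 7 : ℕ) : ℝ) ^ (-s)) := by
  rw [show 8 * (k + 1) = 8 * k + 8 by ring, sum_range_add]
  simp only [sum_range_succ, range_zero, sum_empty, zero_add]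
  rw [ofTab_block, ofTab_block, ofTab_block, ofTab_block, ofTab_block, ofTab_block, ofTab_block,
    ofTab_block]
  have e0 : ofTab h 0 = 0 := map_zero _
  have e1 : ofTab h 1 = 1 := map_one _
  have e2 : ofTab h 2 = 0 := by rw [ofTab_apply]; exact_mod_cast h.even.1
  have e4 : ofTab h 4 = 0 := by rw [ofTab_apply]; exact_mod_cast h.even.2.1
  have e6 : ofTab h 6 = 0 := by rw [ofTab_apply]; exact_mod_cast h.even.2.2
  have e3 : ofTab h 3 = t 3 := by rw [ofTab_apply]; norm_num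
  have e5 : ofTab h 5 = t 5 := by rw [ofTab_apply]; norm_num
  have e7 : ofTab h 7 = t 7 := by rw [ofTab_apply]; norm_num
  rw [e0, e1, e2, e3, e4, e5, e6, e7]
  ring

lemma rpow_anti {s : ℝ} (hs : 1 < s) {a b : ℕ} (ha : 0 < a) (hab : a ≤ b) :
    (b : ℝ) ^ (-s) ≤ (a : ℝ) ^ (-s) :=
  Real.rpow_le_rpow_of_nonpos (by exact_mod_cast ha) (by exact_mod_cast hab) (by linarith)

/-- convexity -/
lemma rpow_conv {s : ℝ} (hs : 1 < s) (a : ℕ) (ha : 0 < a) :
    ((a + 2 : ℕ) : ℝ) ^ (-s) + ((a + 4 : ℕ) : ℝ) ^ (-s) ≤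
      (a : ℝ) ^ (-s) + ((a + 6 : ℕ) : ℝ) ^ (-s) := by
  have hc : ConvexOn ℝ (Set.Ioi (0 : ℝ)) fun x : ℝ => x ^ (-s) := by
    apply convexOn_of_deriv2_nonneg' (convex_Ioi 0)
    · intro x hx
      exact (Real.differentiableAt_rpow_const_of_ne _ (ne_of_gt hx)).differentiableWithinAt
    · intro x hx
      have e : Set.EqOn (deriv fun x : ℝ => x ^ (-s)) (fun x => -s * x ^ (-s - 1)) (Set.Ioi 0) := by
        intro y hy
        exact (Real.hasDerivAt_rpow_const (Or.inl (ne_of_gt hy))).deriv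
      refine DifferentiableWithinAt.congr ?_ e (e hx)
      exact ((Real.differentiableAt_rpow_const_of_ne _ (ne_of_gt hx)).const_mul
        _).differentiableWithinAt
    · intro x hx
      have e : deriv (fun x : ℝ => x ^ (-s)) =ᶠ[𝓝 x] fun x => -s * x ^ (-s - 1) := by
        filter_upwards [Ioi_mem_nhds (Set.mem_Ioi.1 hx)] with y hy
        exact (Real.hasDerivAt_rpow_const (Or.inl (ne_of_gt hy))).deriv
      rw [Function.iterate_succ, Function.iterate_one, Function.comp_apply, e.deriv_eq]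
      rw [((Real.hasDerivAt_rpow_const (p := -s - 1) (Or.inl (ne_of_gt hx))).const_mul (-s)).deriv]
      have := Real.rpow_nonneg (le_of_lt (Set.mem_Ioi.1 hx)) (-s - 1 - 1)
      have h2 : 0 ≤ -s * (-s - 1) := by nlinarith
      nlinarith
  have ha0 : (0 : ℝ) < a := by exact_mod_cast ha
  have m1 : (a : ℝ) ∈ Set.Ioi (0 : ℝ) := ha0
  have m2 : ((a + 6 : ℕ) : ℝ) ∈ Set.Ioi (0 : ℝ) := by
    rw [Set.mem_Ioi]; push_cast; linarith
  have c1 := hc.2 m1 m2 (show (0 : ℝ) ≤ 2 / 3 by norm_num) (show (0 : ℝ) ≤ 1 / 3 by norm_num)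
    (by norm_num)
  have c2 := hc.2 m1 m2 (show (0 : ℝ) ≤ 1 / 3 by norm_num) (show (0 : ℝ) ≤ 2 / 3 by norm_num)
    (by norm_num)
  simp only [smul_eq_mul] at c1 c2
  have e1 : (2 : ℝ) / 3 * a + 1 / 3 * ((a + 6 : ℕ) : ℝ) = ((a + 2 : ℕ) : ℝ) := by
    push_cast; ring
  have e2 : (1 : ℝ) / 3 * a + 2 / 3 * ((a + 6 : ℕ) : ℝ) = ((a + 4 : ℕ) : ℝ) := by
    push_cast; ring
  rw [e1] at c1
  rw [e2] at c2
  linarith

/-- the sign patterns used -/
def Pat (t : ZMod 8 → ℤ) : Prop :=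
  (t 3 = -1 ∧ t 5 = 1 ∧ t 7 = -1) ∨ (t 3 = -1 ∧ t 5 = -1 ∧ t 7 = 1) ∨
    (t 3 = 1 ∧ t 5 = -1 ∧ t 7 = -1)

lemma block_nonneg {t : ZMod 8 → ℤ} (ht : Pat t) (s : ℝ) (hs : 1 < s) (k : ℕ) :
    0 ≤ ((8 * k + 1 : ℕ) : ℝ) ^ (-s) + (t 3 : ℝ) * ((8 * k + 3 : ℕ) : ℝ) ^ (-s) +
      (t 5 : ℝ) * ((8 * k + 5 : ℕ) : ℝ) ^ (-s) + (t 7 : ℝ) * ((8 * k + 7 : ℕ) : ℝ) ^ (-s) := by
  have h13 := rpow_anti hs (a := 8 * k + 1) (b := 8 * k + 3) (by omega) (by omega)
  have h57 := rpow_anti hs (a := 8 * k + 5) (b := 8 * k + 7) (by omega) (by omega)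
  have h35 := rpow_anti hs (a := 8 * k + 3) (b := 8 * k + 5) (by omega) (by omega)
  have hcv := rpow_conv hs (8 * k + 1) (by omega)
  rw [show 8 * k + 1 + 2 = 8 * k + 3 by ring, show 8 * k + 1 + 4 = 8 * k + 5 by ring,
    show 8 * k + 1 + 6 = 8 * k + 7 by ring] at hcv
  rcases ht with ⟨h3, h5, h7⟩ | ⟨h3, h5, h7⟩ | ⟨h3, h5, h7⟩
  · rw [h3, h5, h7]; push_cast at *; linarith
  · rw [h3, h5, h7]; push_cast at *; linarith
  · rw [h3, h5, h7]; push_cast at *; linarith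

lemma block_zero {t : ZMod 8 → ℤ} (ht : Pat t) (s : ℝ) (hs : 1 < s) :
    7 / 15 ≤ ((8 * 0 + 1 : ℕ) : ℝ) ^ (-s) + (t 3 : ℝ) * ((8 * 0 + 3 : ℕ) : ℝ) ^ (-s) +
      (t 5 : ℝ) * ((8 * 0 + 5 : ℕ) : ℝ) ^ (-s) + (t 7 : ℝ) * ((8 * 0 + 7 : ℕ) : ℝ) ^ (-s) := by
  have hb : ∀ a : ℕ, 1 ≤ a → (a : ℝ) ^ (-s) ≤ 1 / a := by
    intro a ha
    have h1 : (1 : ℝ) ≤ a := by exact_mod_cast ha
    have h7 : (a : ℝ) ^ (-s) ≤ (a : ℝ) ^ (-1 : ℝ) :=
      Real.rpow_le_rpow_of_exponent_le h1 (by linarith)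
    rwa [Real.rpow_neg_one, ← one_div] at h7
  have h3' := hb 3 (by norm_num)
  have h5' := hb 5 (by norm_num)
  have h7' := hb 7 (by norm_num)
  have p3 : 0 ≤ ((3 : ℕ) : ℝ) ^ (-s) := Real.rpow_nonneg (by positivity) _
  have p5 : 0 ≤ ((5 : ℕ) : ℝ) ^ (-s) := Real.rpow_nonneg (by positivity) _
  have p7 : 0 ≤ ((7 : ℕ) : ℝ) ^ (-s) := Real.rpow_nonneg (by positivity) _
  have h57 := rpow_anti hs (a := 5) (b := 7) (by omega) (by omega)
  norm_num only [Nat.mul_zero, Nat.zero_add] at *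
  rw [Real.one_rpow]
  rcases ht with ⟨h3, h5, h7⟩ | ⟨h3, h5, h7⟩ | ⟨h3, h5, h7⟩
  · rw [h3, h5, h7]; push_cast at *; linarith
  · rw [h3, h5, h7]; push_cast at *; linarith
  · rw [h3, h5, h7]; push_cast at *; linarith

theorem series_ge {t : ZMod 8 → ℤ} (h : Tab t) (ht : Pat t) (s : ℝ) (hs : 1 < s) :
    7 / 15 ≤ ∑' n : ℕ, ofTab h n * (n : ℝ) ^ (-s) := by
  have hsum := (summable_term (ofTab h) (ofTab_abs h) s hs).of_norm.hasSum.tendsto_sum_nat
  have hsub : Tendsto (fun k : ℕ => 8 * (k + 1)) atTop atTop := by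
    apply tendsto_atTop_mono (fun k => (by omega : k ≤ 8 * (k + 1))) tendsto_id
  refine ge_of_tendsto' (hsum.comp hsub) fun k => ?_
  simp only [Function.comp_apply]
  induction k with
  | zero =>
    rw [block_sum]
    simpa using block_zero ht s hs
  | succ k ih =>
    rw [block_sum h s (k + 1)]
    have := block_nonneg ht s hs (k + 1)
    linarith

/-- Bounded prime sums for the three characters. -/
theorem char_bound {t : ZMod 8 → ℤ} (h : Tab t) (ht : Pat t) (z : ℕ) (hz : 2 ≤ z) :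
    |∑ p ∈ Q z, ((t (p : ZMod 8) : ℤ) : ℝ) / p| ≤ 20 := by
  have h1 := key (ofTab h) (ofTab_abs h) z hz
  have h2 := series_ge h ht (sg z) (one_lt_sg hz)
  have h3 := series_le (ofTab h) (ofTab_abs h) 8 (by norm_num) (ofTab_per h) (ofTab_sum h) (sg z)
    (one_lt_sg hz)
  set L := ∑' n : ℕ, ofTab h n * (n : ℝ) ^ (-sg z) with hL
  have h4 : -2 ≤ Real.log L := by
    rw [Real.le_log_iff_exp_le h1.1]
    refine le_trans ?_ h2
    have h5 := Real.exp_neg 2
    have h6 : (3 : ℝ) ≤ Real.exp 2 := by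
      have := Real.add_one_le_exp (2 : ℝ)
      linarith
    rw [show (-2 : ℝ) = -(2 : ℝ) by norm_num, h5]
    rw [inv_le_comm₀ (Real.exp_pos _) (by norm_num)]
    norm_num
    linarith
  have h5 : Real.log L ≤ 5 := by
    have h6 := Real.log_le_sub_one_of_pos h1.1
    have h7 : Real.log (8 : ℕ) ≤ 4 := by
      have h8 : Real.log ((8 : ℕ) : ℝ) = 3 * Real.log 2 := by
        rw [show ((8 : ℕ) : ℝ) = 2 ^ 3 by norm_num, Real.log_pow]; norm_num
      have h9 := Real.log_two_lt_d9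
      linarith
    linarith
  have h6 := abs_le.1 h1.2
  have e : ∑ p ∈ Q z, ((t (p : ZMod 8) : ℤ) : ℝ) / p = ∑ p ∈ Q z, ofTab h p / p := rfl
  rw [e, abs_le]
  constructor <;> linarith [h6.1, h6.2]

/-- the character `(-1 / ·)` -/
def t4 : ZMod 8 → ℤ := ![0, 1, 0, -1, 0, 1, 0, -1]
/-- the character `(2 / ·)` -/
def t8 : ZMod 8 → ℤ := ![0, 1, 0, -1, 0, -1, 0, 1]
/-- the character `(-2 / ·)` -/
def t8' : ZMod 8 → ℤ := ![0, 1, 0, 1, 0, -1, 0, -1]

lemma tab4 : Tab t4 := by constructor <;> decide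
lemma tab8 : Tab t8 := by constructor <;> decide
lemma tab8' : Tab t8' := by constructor <;> decide
lemma pat4 : Pat t4 := by unfold Pat; decide
lemma pat8 : Pat t8 := by unfold Pat; decide
lemma pat8' : Pat t8' := by unfold Pat; decide

lemma Q_eq (z a : ℕ) : (Finset.range (z + 1)).filter (fun p => p.Prime ∧ p % 8 = a) =
    (Q z).filter (fun p => p % 8 = a) := by
  ext p
  simp only [Q, mem_filter, mem_range, mem_Icc]
  constructor
  · rintro ⟨h1, h2, h3⟩
    exact ⟨⟨⟨h2.one_le, by omega⟩, h2⟩, h3⟩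
  · rintro ⟨⟨⟨_, h1⟩, h2⟩, h3⟩
    exact ⟨by omega, h2, h3⟩

lemma indicator (a : ℕ) (ha : a ∈ ({1, 3, 5, 7} : Finset ℕ)) (p : ℕ) (hp : p.Prime) :
    (if p % 8 = a then (1 : ℝ) else 0) = (1 + (t4 (a : ZMod 8) : ℝ) * (t4 (p : ZMod 8) : ℝ) +
      (t8 (a : ZMod 8) : ℝ) * (t8 (p : ZMod 8) : ℝ) +
      (t8' (a : ZMod 8) : ℝ) * (t8' (p : ZMod 8) : ℝ)) / 4 - (if p = 2 then 1 / 4 else 0) := by
  rcases eq_or_ne p 2 with rfl | h2
  · have hz : (2 % 8 = a) = False := by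
      simp only [mem_insert, mem_singleton] at ha
      rw [eq_iff_iff, iff_false]
      omega
    have e4 : t4 ((2 : ℕ) : ZMod 8) = 0 := by decide
    have e8 : t8 ((2 : ℕ) : ZMod 8) = 0 := by decide
    have e8' : t8' ((2 : ℕ) : ZMod 8) = 0 := by decide
    simp only [hz, if_false, e4, e8, e8', if_true]
    norm_num
  · have hodd : p % 2 = 1 := by
      rcases hp.eq_two_or_odd with h | h
      · exact absurd h h2
      · exact h
    have hp8 : p % 8 = 1 ∨ p % 8 = 3 ∨ p % 8 = 5 ∨ p % 8 = 7 := by omega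
    have hcast : (p : ZMod 8) = ((p % 8 : ℕ) : ZMod 8) := by rw [ZMod.natCast_mod]
    rw [hcast, if_neg h2]
    simp only [mem_insert, mem_singleton] at ha
    have a1 : t4 ((1 : ℕ) : ZMod 8) = 1 := by decide
    have a3 : t4 ((3 : ℕ) : ZMod 8) = -1 := by decide
    have a5 : t4 ((5 : ℕ) : ZMod 8) = 1 := by decide
    have a7 : t4 ((7 : ℕ) : ZMod 8) = -1 := by decide
    have b1 : t8 ((1 : ℕ) : ZMod 8) = 1 := by decide
    have b3 : t8 ((3 : ℕ) : ZMod 8) = -1 := by decide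
    have b5 : t8 ((5 : ℕ) : ZMod 8) = -1 := by decide
    have b7 : t8 ((7 : ℕ) : ZMod 8) = 1 := by decide
    have c1 : t8' ((1 : ℕ) : ZMod 8) = 1 := by decide
    have c3 : t8' ((3 : ℕ) : ZMod 8) = 1 := by decide
    have c5 : t8' ((5 : ℕ) : ZMod 8) = -1 := by decide
    have c7 : t8' ((7 : ℕ) : ZMod 8) = -1 := by decide
    rcases hp8 with h | h | h | h <;> rw [h] <;>
      rcases ha with rfl | rfl | rfl | rfl <;>
      simp only [a1, a3, a5, a7, b1, b3, b5, b7, c1, c3, c5, c7] <;> norm_num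

end A3

open A3 in
theorem A3_proof : A3Stmt := by
  obtain ⟨C0, hC0⟩ := Pool.Agent.PnMn.sumInvPrimes
  refine ⟨|C0| + 20, fun a ha z hz => ?_⟩
  rw [Q_eq, Finset.sum_filter]
  have e : ∑ p ∈ Q z, (if p % 8 = a then (1 : ℝ) / p else 0) =
      (∑ p ∈ Q z, (1 : ℝ) / p) / 4 +
      (t4 (a : ZMod 8) : ℝ) / 4 * ∑ p ∈ Q z, ((t4 (p : ZMod 8) : ℤ) : ℝ) / p +
      (t8 (a : ZMod 8) : ℝ) / 4 * ∑ p ∈ Q z, ((t8 (p : ZMod 8) : ℤ) : ℝ) / p +
      (t8' (a : ZMod 8) : ℝ) / 4 * ∑ p ∈ Q z, ((t8' (p : ZMod 8) : ℤ) : ℝ) / p -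
      ∑ p ∈ Q z, (if p = 2 then (1 : ℝ) / 4 else 0) / p := by
    rw [Finset.sum_div, Finset.mul_sum, Finset.mul_sum, Finset.mul_sum,
      ← Finset.sum_add_distrib, ← Finset.sum_add_distrib, ← Finset.sum_add_distrib,
      ← Finset.sum_sub_distrib]
    apply Finset.sum_congr rfl
    intro p hp
    have h := indicator a ha p (Finset.mem_filter.1 hp).2
    have h' : (if p % 8 = a then (1 : ℝ) / p else 0) = (if p % 8 = a then (1 : ℝ) else 0) / p := by
      split_ifs <;> simp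
    rw [h', h]
    ring
  have e2 : ∑ p ∈ Q z, (if p = 2 then (1 : ℝ) / 4 else 0) / p = 1 / 8 := by
    rw [Finset.sum_eq_single 2]
    · norm_num
    · intro b _ hb
      rw [if_neg hb, zero_div]
    · intro h
      exfalso
      apply h
      simp only [Q, Finset.mem_filter, Finset.mem_Icc]
      exact ⟨⟨by omega, hz⟩, Nat.prime_two⟩
  rw [e, e2]
  have h4 := char_bound tab4 pat4 z hz
  have h8 := char_bound tab8 pat8 z hz
  have h8' := char_bound tab8' pat8' z hz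
  have hu := hC0 z hz
  have hl := sum_inv_ge z hz
  have d4 : |(t4 (a : ZMod 8) : ℝ)| ≤ 1 := by exact_mod_cast tab4.bd _
  have d8 : |(t8 (a : ZMod 8) : ℝ)| ≤ 1 := by exact_mod_cast tab8.bd _
  have d8' : |(t8' (a : ZMod 8) : ℝ)| ≤ 1 := by exact_mod_cast tab8'.bd _
  have gen : ∀ x y : ℝ, |x| ≤ 1 → |y| ≤ 20 → |x / 4 * y| ≤ 5 := by
    intro x y hx hy
    rw [abs_mul, abs_div, abs_of_pos (show (0 : ℝ) < 4 by norm_num)]
    have := abs_nonneg x
    have := abs_nonneg y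
    nlinarith
  have g4 := abs_le.1 (gen _ _ d4 h4)
  have g8 := abs_le.1 (gen _ _ d8 h8)
  have g8' := abs_le.1 (gen _ _ d8' h8')
  have hC := le_abs_self C0
  have hC' := abs_nonneg C0
  rw [abs_le]
  constructor
  · linarith [g4.1, g8.1, g8'.1]
  · linarith [g4.2, g8.2, g8'.2]

end Pool.Agent.C1D
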