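import Pool.Agent.C1D.A3

set_option autoImplicit false

/-!
# C1D, A4: upper bound for the sums of `(d / p) / p` and `(p / d) / p` over the primes `1, 7`
modulo `8`
-/

namespace Pool.Agent.C1D
namespace A4

open Finset A3

open scoped NumberTheorySymbols

/-- A completely multiplicative function with value `-1` at a unit has mean value zero. -/
lemma sum_zero (h : ℕ →*₀ ℝ) (q : ℕ) (hq : 1 ≤ q) (hper : ∀ n, h (n + q) = h n) (m : ℕ)
    (hm : Nat.Coprime m q) (h1 : h m = -1) : ∑ n ∈ range q, h n = 0 := by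
  obtain ⟨k, rfl⟩ : ∃ k, q = k + 1 := ⟨q - 1, by omega⟩
  have hperk : ∀ n j, h (n + j * (k + 1)) = h n := by
    intro n j
    induction j with
    | zero => simp
    | succ j ih => rw [Nat.succ_mul, ← add_assoc, hper, ih]
  have hmod : ∀ n, h (n % (k + 1)) = h n := by
    intro n
    conv_rhs => rw [← Nat.mod_add_div n (k + 1), mul_comm (k + 1), hperk]
  have e : ∑ n ∈ range (k + 1), h n = ∑ x : ZMod (k + 1), h x.val := by
    rw [Finset.sum_range]
    rfl
  set u := ZMod.unitOfCoprime m hm with hu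
  have e2 : ∑ x : ZMod (k + 1), h (((u : ZMod (k + 1)) * x).val) = ∑ x : ZMod (k + 1), h x.val :=
    Equiv.sum_comp (Units.mulLeft u) (fun x : ZMod (k + 1) => h x.val)
  have e3 : ∀ x : ZMod (k + 1), h (((u : ZMod (k + 1)) * x).val) = - h x.val := by
    intro x
    rw [hu, ZMod.coe_unitOfCoprime, ZMod.val_mul, hmod, map_mul, ZMod.val_natCast, hmod, h1]
    ring
  rw [sum_congr rfl (fun x _ => e3 x), sum_neg_distrib] at e2
  rw [e]
  linarith

/-- the product with the character `(2 / ·)` -/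
noncomputable def mul8 (c : ℕ →*₀ ℝ) : ℕ →*₀ ℝ where
  toFun n := c n * ofTab tab8 n
  map_zero' := by simp
  map_one' := by simp
  map_mul' a b := by
    rw [map_mul, map_mul]
    ring

lemma loglog_le (d : ℕ) (hd : 1 < d) :
    Real.log (2 + Real.log ((8 * d : ℕ) : ℝ)) ≤ Real.log (Real.log (3 * d)) + 2 := by
  have hd' : (2 : ℝ) ≤ d := by exact_mod_cast hd
  have h1 : Real.log 4 ≤ Real.log (3 * d) := Real.log_le_log (by norm_num) (by linarith)
  have h4 : Real.log 4 = 2 * Real.log 2 := by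
    rw [show (4 : ℝ) = 2 ^ 2 by norm_num, Real.log_pow]; norm_num
  have h2 := Real.log_two_gt_d9
  have h2' := Real.log_two_lt_d9
  have h3 : Real.log ((8 * d : ℕ) : ℝ) ≤ Real.log 4 + Real.log (3 * d) := by
    rw [← Real.log_mul (by norm_num) (by positivity)]
    apply Real.log_le_log
    · push_cast; positivity
    · push_cast; linarith
  have h5 : 2 + Real.log ((8 * d : ℕ) : ℝ) ≤ Real.log (3 * d) * 4 := by linarith
  have h6 : 0 ≤ Real.log ((8 * d : ℕ) : ℝ) := by
    apply Real.log_nonneg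
    push_cast
    linarith
  have h7 : Real.log (2 + Real.log ((8 * d : ℕ) : ℝ)) ≤ Real.log (Real.log (3 * d) * 4) :=
    Real.log_le_log (by linarith) h5
  rw [Real.log_mul (by linarith) (by norm_num)] at h7
  linarith

lemma one_char (c : ℕ →*₀ ℝ) (hc : ∀ n, |c n| ≤ 1) (d : ℕ) (hd : 1 < d)
    (hper : ∀ n, c (n + 8 * d) = c n) (m : ℕ) (hm : Nat.Coprime m (8 * d)) (h1 : c m = -1)
    (z : ℕ) (hz : 2 ≤ z) :
    ∑ p ∈ Q z, c p / p ≤ Real.log (Real.log (3 * d)) + 17 := by
  have h2 := key c hc z hz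
  have h3 := series_le c hc (8 * d) (by omega) hper
    (sum_zero c (8 * d) (by omega) hper m hm h1) (sg z) (one_lt_sg hz)
  have h4 := (abs_le.1 h2.2).2
  have h5 := Real.log_le_log h2.1 h3
  have h6 := loglog_le d hd
  linarith

lemma t8_abs (n : ℕ) : |ofTab tab8 n| ≤ 1 := ofTab_abs tab8 n

lemma both_char (c : ℕ →*₀ ℝ) (hc : ∀ n, |c n| ≤ 1) (d : ℕ) (hd : 1 < d)
    (hper : ∀ n, c (n + 8 * d) = c n) (m : ℕ) (hm : Nat.Coprime m (8 * d)) (h1 : c m = -1)
    (hm8 : m % 8 = 1) (hev : c 2 = 0) (z : ℕ) (hz : 2 ≤ z) :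
    ∑ p ∈ P8le z, c p / p ≤ Real.log (Real.log (3 * d)) + 17 := by
  have ha := one_char c hc d hd hper m hm h1 z hz
  have hb := one_char (mul8 c) (fun n => by
      change |c n * ofTab tab8 n| ≤ 1
      rw [abs_mul]
      exact mul_le_one₀ (hc n) (abs_nonneg _) (t8_abs n)) d hd (fun n => by
      change c (n + 8 * d) * ofTab tab8 (n + 8 * d) = c n * ofTab tab8 n
      rw [hper, add_comm n, ofTab_block]) m hm (by
      change c m * ofTab tab8 m = -1
      have e : ofTab tab8 m = 1 := by
        have h := ofTab_block tab8 (m / 8) (m % 8)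
        rw [Nat.div_add_mod, hm8] at h
        rw [h, map_one]
      rw [h1, e]
      norm_num) z hz
  have e : ∑ p ∈ P8le z, c p / p = (∑ p ∈ Q z, c p / p) / 2 + (∑ p ∈ Q z, mul8 c p / p) / 2 := by
    have hset : P8le z = (Q z).filter (fun p => p % 8 = 1 ∨ p % 8 = 7) := by
      ext p
      simp only [P8le, Q, mem_filter, mem_range, mem_Icc]
      constructor
      · rintro ⟨h1, h2, h3⟩
        exact ⟨⟨⟨h2.one_le, by omega⟩, h2⟩, h3⟩
      · rintro ⟨⟨⟨_, h1⟩, h2⟩, h3⟩
        exact ⟨by omega, h2, h3⟩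
    rw [hset, sum_filter, sum_div, sum_div, ← sum_add_distrib]
    apply sum_congr rfl
    intro p hp
    change (if p % 8 = 1 ∨ p % 8 = 7 then c p / p else 0) = c p / p / 2 + (c p * ofTab tab8 p) / p / 2
    have hpp := (mem_filter.1 hp).2
    have h := ofTab_block tab8 (p / 8) (p % 8)
    rw [Nat.div_add_mod] at h
    rw [h]
    rcases hpp.eq_two_or_odd with h2 | h2
    · subst h2
      rw [hev]
      simp
    · have b1 : ofTab tab8 1 = 1 := map_one _
      have b3 : ofTab tab8 3 = -1 := by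
        have : t8 ((3 : ℕ) : ZMod 8) = -1 := by decide
        rw [ofTab_apply, this]; norm_num
      have b5 : ofTab tab8 5 = -1 := by
        have : t8 ((5 : ℕ) : ZMod 8) = -1 := by decide
        rw [ofTab_apply, this]; norm_num
      have b7 : ofTab tab8 7 = 1 := by
        have : t8 ((7 : ℕ) : ZMod 8) = 1 := by decide
        rw [ofTab_apply, this]; norm_num
      have hp8 : p % 8 = 1 ∨ p % 8 = 3 ∨ p % 8 = 5 ∨ p % 8 = 7 := by omega
      rcases hp8 with h8 | h8 | h8 | h8 <;> rw [h8]
      · rw [b1]; simp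
      · rw [b3, if_neg (by norm_num)]; ring
      · rw [b5, if_neg (by norm_num)]; ring
      · rw [b7]; simp
  rw [e]
  linarith

/-- `n ↦ (d / n)` on odd numbers -/
noncomputable def cR (d : ℕ) : ℕ →*₀ ℝ where
  toFun n := if Even n then 0 else ((J((d : ℤ) | n) : ℤ) : ℝ)
  map_zero' := by simp
  map_one' := by simp
  map_mul' a b := by
    by_cases ha : Even a
    · simp [ha]
    by_cases hb : Even b
    · simp [hb]
    have hab : ¬ Even (a * b) := by
      rw [Nat.even_mul]
      tauto
    rw [if_neg ha, if_neg hb, if_neg hab]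
    have : NeZero a := ⟨fun h => ha (by simp [h])⟩
    have : NeZero b := ⟨fun h => hb (by simp [h])⟩
    rw [jacobiSym.mul_right]
    push_cast
    ring

/-- `n ↦ (n / d)` on odd numbers -/
noncomputable def cL (d : ℕ) : ℕ →*₀ ℝ where
  toFun n := if Even n then 0 else ((J((n : ℤ) | d) : ℤ) : ℝ)
  map_zero' := by simp
  map_one' := by simp
  map_mul' a b := by
    by_cases ha : Even a
    · simp [ha]
    by_cases hb : Even b
    · simp [hb]
    have hab : ¬ Even (a * b) := by
      rw [Nat.even_mul]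
      tauto
    rw [if_neg ha, if_neg hb, if_neg hab]
    push_cast
    rw [jacobiSym.mul_left]
    push_cast
    ring

lemma jac_abs (a : ℤ) (b : ℕ) : |((J(a | b) : ℤ) : ℝ)| ≤ 1 := by
  rcases jacobiSym.trichotomy a b with h | h | h <;> rw [h] <;> norm_num

/-- a number `1` modulo `8` with symbol `-1` -/
lemma exists_m (d : ℕ) (hd : F0 d) (h1 : 1 < d) :
    ∃ m : ℕ, Nat.Coprime m (8 * d) ∧ m % 8 = 1 ∧ J((m : ℤ) | d) = -1 ∧ J((d : ℤ) | m) = -1 := by
  obtain ⟨hsq, hpr⟩ := hd
  obtain ⟨l, hl, hld⟩ := Nat.exists_prime_and_dvd (ne_of_gt h1)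
  obtain ⟨e, rfl⟩ := hld
  have : Fact l.Prime := ⟨hl⟩
  have hl8 := hpr l hl (dvd_mul_right l e)
  have hl2 : l ≠ 2 := by
    rintro rfl
    omega
  have he0 : e ≠ 0 := by
    rintro rfl
    simp at h1
  have hcop : Nat.Coprime l e := (Nat.squarefree_mul_iff.1 hsq).1
  have hodd : Odd (l * e) := by
    rw [← Nat.not_even_iff_odd, even_iff_two_dvd]
    intro h
    have := hpr 2 Nat.prime_two h
    omega
  have hel : Odd e := (Nat.odd_mul.1 hodd).2
  have hcop8 : Nat.Coprime (8 * e) l := by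
    apply Nat.Coprime.mul_left
    · have : Nat.Coprime 2 l := (Nat.coprime_primes Nat.prime_two hl).2 (Ne.symm hl2)
      exact this.pow_left 3
    · exact hcop.symm
  obtain ⟨x, hx⟩ := FiniteField.exists_nonsquare (F := ZMod l) (by rw [ZMod.ringChar_zmod_n]; exact hl2)
  obtain ⟨m, hm1, hm2⟩ := Nat.chineseRemainder hcop8 1 x.val
  have hx0 : x ≠ 0 := by
    rintro rfl
    exact hx (IsSquare.zero)
  have hml : (m : ZMod l) = x := by
    have : (m : ZMod l) = ((x.val : ℕ) : ZMod l) := (ZMod.natCast_eq_natCast_iff _ _ _).2 hm2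
    rw [this, ZMod.natCast_zmod_val]
  have hm8 : m % 8 = 1 := by
    have : m ≡ 1 [MOD 8] := hm1.of_mul_right e
    simpa [Nat.ModEq] using this
  have hme : m ≡ 1 [MOD e] := hm1.of_mul_left 8
  have c1 : Nat.Coprime m (8 * e) := by
    have := hm1.gcd_eq
    rw [Nat.gcd_one_left] at this
    exact this
  have c2 : Nat.Coprime m l := by
    rw [Nat.coprime_comm, hl.coprime_iff_not_dvd]
    intro h
    rw [← ZMod.natCast_eq_zero_iff, hml] at h
    exact hx0 h
  have hJ : J((m : ℤ) | l * e) = -1 := by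
    have : NeZero l := ⟨hl.ne_zero⟩
    have : NeZero e := ⟨he0⟩
    rw [jacobiSym.mul_right, ← jacobiSym.legendreSym.to_jacobiSym]
    have a1 : legendreSym l (m : ℤ) = -1 := by
      rw [legendreSym.eq_neg_one_iff]
      push_cast
      rw [hml]
      exact hx
    have a2 : J((m : ℤ) | e) = 1 := by
      rw [jacobiSym.mod_left]
      have : ((m : ℤ) % (e : ℤ)) = (1 : ℤ) % (e : ℤ) := by exact_mod_cast hme
      rw [this, ← jacobiSym.mod_left, jacobiSym.one_left]
    rw [a1, a2]
    norm_num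
  refine ⟨m, ?_, hm8, hJ, ?_⟩
  · rw [show 8 * (l * e) = l * (8 * e) by ring]
    exact c2.mul_right c1
  · rw [← jacobiSym.quadratic_reciprocity_one_mod_four (by omega) hodd]
    exact hJ

end A4

open A4 A3 in
theorem A4_proof : A4Stmt := by
  refine ⟨17, fun d hd h1 z hz => ?_⟩
  obtain ⟨m, hm, hm8, hL, hR⟩ := exists_m d hd h1
  have hmo : ¬ Even m := by
    rw [Nat.even_iff]
    omega
  have hodd : ∀ p ∈ P8le z, ¬ Even p := by
    intro p hp
    have := (Finset.mem_filter.1 hp).2.2
    rw [Nat.even_iff]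
    omega
  constructor
  · have h := both_char (cR d) (fun n => by
        change |(if Even n then 0 else ((jacobiSym (d : ℤ) n : ℤ) : ℝ))| ≤ 1
        split_ifs
        · simp
        · exact jac_abs _ _) d h1 (fun n => by
        change (if Even (n + 8 * d) then (0 : ℝ) else ((jacobiSym (d : ℤ) (n + 8 * d) : ℤ) : ℝ)) =
          if Even n then 0 else ((jacobiSym (d : ℤ) n : ℤ) : ℝ)
        have e : Even (n + 8 * d) ↔ Even n := by
          rw [Nat.even_iff, Nat.even_iff]
          omega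
        by_cases hn : Even n
        · rw [if_pos hn, if_pos (e.2 hn)]
        · rw [if_neg hn, if_neg (fun h => hn (e.1 h))]
          have hn' : Odd n := Nat.not_even_iff_odd.1 hn
          have hn'' : Odd (n + 8 * d) := Nat.not_even_iff_odd.1 (fun h => hn (e.1 h))
          rw [jacobiSym.mod_right _ hn'', jacobiSym.mod_right _ hn', Int.natAbs_natCast]
          congr 2
          rw [show n + 8 * d = n + (4 * d) * 2 by ring, Nat.add_mul_mod_self_left]) m hm (by
        change (if Even m then (0 : ℝ) else ((jacobiSym (d : ℤ) m : ℤ) : ℝ)) = -1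
        rw [if_neg hmo, hR]
        norm_num) hm8 (by
        change (if Even 2 then (0 : ℝ) else ((jacobiSym (d : ℤ) 2 : ℤ) : ℝ)) = 0
        rw [if_pos (by decide)]) z hz
    refine le_trans (le_of_eq (Finset.sum_congr rfl fun p hp => ?_)) h
    change _ = (if Even p then (0 : ℝ) else ((jacobiSym (d : ℤ) p : ℤ) : ℝ)) / p
    rw [if_neg (hodd p hp)]
  · have h := both_char (cL d) (fun n => by
        change |(if Even n then 0 else ((jacobiSym (n : ℤ) d : ℤ) : ℝ))| ≤ 1
        split_ifs
        · simp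
        · exact jac_abs _ _) d h1 (fun n => by
        change (if Even (n + 8 * d) then (0 : ℝ) else ((jacobiSym ((n + 8 * d : ℕ) : ℤ) d : ℤ) : ℝ)) =
          if Even n then 0 else ((jacobiSym (n : ℤ) d : ℤ) : ℝ)
        have e : Even (n + 8 * d) ↔ Even n := by
          rw [Nat.even_iff, Nat.even_iff]
          omega
        by_cases hn : Even n
        · rw [if_pos hn, if_pos (e.2 hn)]
        · rw [if_neg hn, if_neg (fun h => hn (e.1 h))]
          rw [jacobiSym.mod_left, jacobiSym.mod_left (n : ℤ)]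
          congr 2
          push_cast
          rw [Int.add_mul_emod_self_right]) m hm (by
        change (if Even m then (0 : ℝ) else ((jacobiSym (m : ℤ) d : ℤ) : ℝ)) = -1
        rw [if_neg hmo, hL]
        norm_num) hm8 (by
        change (if Even 2 then (0 : ℝ) else ((jacobiSym ((2 : ℕ) : ℤ) d : ℤ) : ℝ)) = 0
        rw [if_pos (by decide)]) z hz
    refine le_trans (le_of_eq (Finset.sum_congr rfl fun p hp => ?_)) h
    change _ = (if Even p then (0 : ℝ) else ((jacobiSym (p : ℤ) d : ℤ) : ℝ)) / p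
    rw [if_neg (hodd p hp)]

end Pool.Agent.C1D
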