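import Pool.Agent.C1D.Stmts
import Pool.Agent.HyperWeil.SieveRange

set_option autoImplicit false

/-!
# C1D / D3: mean square of the symbol averages (large sieve)

`D3.large`: the sum of `Shat^2` over all `d ≤ N^{1/20}` is bounded;
`D3.medium`: the sum of `Shat^2 / d` over `N^{1/20} < d ≤ N^K` is at most `N^{-κ}`.
-/

namespace Pool.Agent.C1D

open Finset Filter Pool.Agent.HyperWeil

namespace D3

/-- indicator function of a set of primes -/
noncomputable def ind (A : Finset ℕ) (p : ℕ) : ℝ := if p ∈ A then 1 else 0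

lemma abs_ind_le (A : Finset ℕ) (p : ℕ) : |ind A p| ≤ 1 := by
  unfold ind; split_ifs <;> simp

lemma mem_pr {N θ : ℝ} {c p : ℕ} (hp : p ∈ pr N θ c) :
    p ≤ ⌊(1 + θ) * N⌋₊ ∧ p.Prime ∧ p % 16 = c := by
  rw [pr, mem_filter, mem_Ioc] at hp
  exact ⟨hp.1.2, hp.2⟩

lemma cls_odd {c : ℕ} (hc : c ∈ cls) : c % 2 = 1 := by
  simp only [cls, mem_insert, mem_singleton] at hc
  omega

lemma tsum_eq {N θ : ℝ} {c : ℕ} (hc : c ∈ cls) (d : ℕ) :
    tsum' (ind (pr N θ c)) ⌊(1 + θ) * N⌋₊ (d : ℤ)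
      = ∑ p ∈ pr N θ c, ((jacobiSym (d : ℤ) p : ℤ) : ℝ) := by
  classical
  unfold tsum'
  have hsub : pr N θ c ⊆ oddPrimes ⌊(1 + θ) * N⌋₊ := by
    intro p hp
    have h := mem_pr hp
    have h1 := cls_odd hc
    rw [mem_oddPrimes]
    refine ⟨h.1, h.2.1, ?_⟩
    rintro rfl
    omega
  rw [← Finset.sum_subset hsub]
  · refine Finset.sum_congr rfl fun p hp => ?_
    have h := mem_pr hp
    have h1 := cls_odd hc
    rw [ind, if_pos hp, one_mul, psi, if_pos (by omega)]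
  · intro p _ hp
    rw [ind, if_neg hp, zero_mul]

lemma tsum_eq_Shat {N θ : ℝ} {c : ℕ} (hc : c ∈ cls) (hA : 0 < ((pr N θ c).card : ℝ)) (d : ℕ) :
    tsum' (ind (pr N θ c)) ⌊(1 + θ) * N⌋₊ (d : ℤ) = (pr N θ c).card * Shat (pr N θ c) d := by
  rw [tsum_eq hc, Shat, mul_div_cancel₀ _ hA.ne']

open Classical in
/-- the elements of `F0` in a finite set, as integers -/
noncomputable def zset (s : Finset ℕ) : Finset ℤ := (s.filter F0).map Nat.castEmbedding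

lemma zset_sqf (s : Finset ℕ) : ∀ d ∈ zset s, Squarefree d := by
  classical
  intro d hd
  rw [zset, Finset.mem_map] at hd
  obtain ⟨n, hn, rfl⟩ := hd
  rw [mem_filter] at hn
  exact Int.squarefree_natCast.mpr hn.2.1

lemma zset_le {s : Finset ℕ} {D : ℕ} (h : ∀ d ∈ s, d ≤ D) : ∀ d ∈ zset s, d.natAbs ≤ D := by
  classical
  intro d hd
  rw [zset, Finset.mem_map] at hd
  obtain ⟨n, hn, rfl⟩ := hd
  rw [mem_filter] at hn
  exact h n hn.1

lemma zset_card (s : Finset ℕ) : (zset s).card ≤ s.card := by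
  classical
  rw [zset, card_map]
  exact card_filter_le _ _

open Classical in
lemma sum_zset (s : Finset ℕ) (g : ℤ → ℝ) :
    ∑ d ∈ zset s, g d = ∑ d ∈ s.filter F0, g (d : ℤ) := by
  rw [zset, sum_map]
  rfl

lemma log_pow_le (C : ℝ) (m : ℕ) {a : ℝ} (ha : 0 < a) :
    ∀ᶠ N : ℝ in atTop, C * Real.log N ^ m ≤ N ^ a := by
  have h := (isLittleO_log_rpow_rpow_atTop (m : ℝ) ha).bound
    (c := 1 / (|C| + 1)) (by positivity)
  filter_upwards [h, eventually_ge_atTop (1 : ℝ)] with N hN h1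
  rw [Real.norm_eq_abs, Real.norm_eq_abs, Real.rpow_natCast,
    abs_of_nonneg (by positivity : 0 ≤ N ^ a)] at hN
  have h2 : 0 ≤ Real.log N ^ m := pow_nonneg (Real.log_nonneg h1) m
  rw [abs_of_nonneg h2] at hN
  have h3 : C ≤ |C| + 1 := by linarith [le_abs_self C]
  calc C * Real.log N ^ m ≤ (|C| + 1) * Real.log N ^ m := by gcongr
    _ ≤ (|C| + 1) * (1 / (|C| + 1) * N ^ a) := by gcongr
    _ = N ^ a := by field_simp

/-- lower bound for the number of primes in a block -/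
lemma card_lower (hA1 : A1Stmt) {θ : ℝ} (hθ : 0 < θ) : ∀ᶠ N : ℝ in atTop, ∀ c ∈ cls,
    θ / 16 * (N / Real.log N) ≤ ((pr N θ c).card : ℝ) := by
  obtain ⟨N1, -, h⟩ := hA1 θ hθ (θ / 16) (by positivity)
  filter_upwards [eventually_ge_atTop N1] with N hN c hc
  have h1 := (abs_le.mp (h N hN c hc)).1
  have e1 : θ * N / (8 * Real.log N) = θ / 8 * (N / Real.log N) := by
    rw [mul_div_mul_comm]
  have e2 : θ / 16 * N / Real.log N = θ / 16 * (N / Real.log N) := by ring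
  rw [e1, e2] at h1
  linarith

lemma card_oddPrimes (M : ℕ) : ((oddPrimes M).card : ℝ) ≤ Nat.primeCounting M := by
  have h : (oddPrimes M).card ≤ Nat.primeCounting M := by
    rw [Nat.primeCounting, Nat.primeCounting', Nat.count_eq_card_filter_range]
    apply card_le_card
    intro p hp
    rw [oddPrimes, mem_filter] at hp
    rw [mem_filter]
    exact ⟨hp.1, hp.2.1⟩
  exact_mod_cast h

lemma card_oddPrimes_le (M : ℕ) : ((oddPrimes M).card : ℝ) ≤ M := by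
  have h : (oddPrimes M).card ≤ (Icc 1 M).card := by
    apply card_le_card
    intro p hp
    rw [mem_oddPrimes] at hp
    rw [mem_Icc]
    exact ⟨hp.2.1.one_le, hp.1⟩
  rw [Nat.card_Icc, Nat.add_sub_cancel] at h
  exact_mod_cast h

open Classical in
/-- **Large range.** -/
lemma large (hA1 : A1Stmt) {θ : ℝ} (hθ : 0 < θ) : ∃ C : ℝ, 0 < C ∧ ∀ᶠ N : ℝ in atTop,
    ∀ c ∈ cls, ∑ d ∈ (Icc 1 ⌊N ^ (1 / 20 : ℝ)⌋₊).filter F0, Shat (pr N θ c) d ^ 2 ≤ C := by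
  set Cπ : ℝ := Real.log 4 + 1 with hCπ
  have hCπ0 : 0 < Cπ := by
    have : 0 < Real.log 4 := Real.log_pos (by norm_num)
    linarith
  have hpi : ∀ᶠ N : ℝ in atTop, ((Nat.primeCounting ⌊(1 + θ) * N⌋₊ : ℕ) : ℝ) ≤
      Cπ * ((1 + θ) * N) / Real.log ((1 + θ) * N) := by
    have h1 := Chebyshev.eventually_primeCounting_le (ε := 1) one_pos
    have h2 : Tendsto (fun N : ℝ => (1 + θ) * N) atTop atTop :=
      tendsto_id.const_mul_atTop (by linarith)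
    exact h2.eventually h1
  have hz : ∀ᶠ N : ℝ in atTop, (2 : ℝ) ≤ N ^ (1 / 200 : ℝ) :=
    (tendsto_rpow_atTop (by norm_num)).eventually_ge_atTop 2
  refine ⟨Cπ * (1 + θ) * (400 * (1 + θ) + 1) / (θ / 16) ^ 2, by positivity, ?_⟩
  filter_upwards [hpi, hz, card_lower hA1 hθ, log_pow_le 50 1 (a := 34 / 100) (by norm_num),
    eventually_ge_atTop (Real.exp 1)] with N hpi hz hcard hlog hN c hc
  have hN0 : 0 < N := (Real.exp_pos 1).trans_le hN
  have hN1 : 1 ≤ N := by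
    have := Real.add_one_le_exp (1 : ℝ)
    linarith
  have hL : 1 ≤ Real.log N := by
    rw [Real.le_log_iff_exp_le hN0]; exact hN
  set L := Real.log N with hLdef
  have hL0 : 0 < L := by linarith
  set M := ⌊(1 + θ) * N⌋₊ with hM
  set z := ⌊N ^ (1 / 100 : ℝ)⌋₊ with hzdef
  set D := ⌊N ^ (1 / 20 : ℝ)⌋₊ with hD
  set A := pr N θ c with hA
  have hcA := hcard c hc
  have hA0 : 0 < (A.card : ℝ) := lt_of_lt_of_le (by positivity) hcA
  -- the parameters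
  have hsplit : N ^ (1 / 100 : ℝ) = N ^ (1 / 200 : ℝ) * N ^ (1 / 200 : ℝ) := by
    rw [← Real.rpow_add hN0]; norm_num
  have hz1 : N ^ (1 / 200 : ℝ) ≤ z := by
    have h1 : N ^ (1 / 100 : ℝ) < z + 1 := Nat.lt_floor_add_one _
    nlinarith
  have hz2 : 2 ≤ z := by
    have : (2 : ℝ) ≤ z := hz.trans hz1
    exact_mod_cast this
  have hzle : (z : ℝ) ≤ N ^ (1 / 100 : ℝ) := Nat.floor_le (by positivity)
  have hlogz : L / 200 ≤ Real.log z := by
    have h1 : Real.log (N ^ (1 / 200 : ℝ)) ≤ Real.log z := Real.log_le_log (by positivity) hz1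
    rw [Real.log_rpow hN0] at h1
    linarith
  have hDle : (D : ℝ) ≤ N ^ (1 / 20 : ℝ) := Nat.floor_le (by positivity)
  have hMle : (M : ℝ) ≤ (1 + θ) * N := Nat.floor_le (by positivity)
  set S := zset (Icc 1 D) with hS
  have hScard : (S.card : ℝ) ≤ N ^ (1 / 20 : ℝ) := by
    have h1 : S.card ≤ D := (zset_card _).trans (by simp)
    have h2 : (S.card : ℝ) ≤ D := by exact_mod_cast h1
    linarith
  have hlarge := large_range S (zset_sqf _) (D := D) (zset_le fun d hd => (mem_Icc.mp hd).2)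
    (abs_ind_le A) M z hz2
  rw [hS, sum_zset] at hlarge
  rw [← hS] at hlarge
  have hlhs : ∑ d ∈ (Icc 1 D).filter F0, tsum' (ind A) M (d : ℤ) ^ 2
      = (A.card : ℝ) ^ 2 * ∑ d ∈ (Icc 1 D).filter F0, Shat A d ^ 2 := by
    rw [mul_sum]
    refine sum_congr rfl fun d _ => ?_
    rw [tsum_eq_Shat hc hA0, mul_pow]
  rw [hlhs] at hlarge
  -- bound of the right side
  have hP : ((oddPrimes M).card : ℝ) ≤ Cπ * (1 + θ) * (N / L) := by
    refine (card_oddPrimes M).trans (hpi.trans ?_)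
    have h1 : L ≤ Real.log ((1 + θ) * N) := Real.log_le_log hN0 (by nlinarith)
    calc Cπ * ((1 + θ) * N) / Real.log ((1 + θ) * N) ≤ Cπ * ((1 + θ) * N) / L := by gcongr
      _ = _ := by ring
  have hone : 1 ≤ N ^ (3 / 20 : ℝ) := Real.one_le_rpow hN1 (by norm_num)
  have hV1 : (1 + 4 * (D : ℝ) ^ 2 * S.card) ≤ 5 * N ^ (3 / 20 : ℝ) := by
    have h1 : (D : ℝ) ^ 2 * S.card ≤ (N ^ (1 / 20 : ℝ)) ^ 2 * N ^ (1 / 20 : ℝ) := by gcongr
    have h2 : (N ^ (1 / 20 : ℝ)) ^ 2 * N ^ (1 / 20 : ℝ) = N ^ (3 / 20 : ℝ) := by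
      rw [← Real.rpow_natCast, ← Real.rpow_mul hN0.le, ← Real.rpow_add hN0]; norm_num
    rw [h2] at h1
    linarith
  have hV2 : (z : ℝ) ^ 36 * (1 + 4 * (D : ℝ) ^ 2 * S.card) ^ 2 ≤ 25 * N ^ (66 / 100 : ℝ) := by
    calc (z : ℝ) ^ 36 * (1 + 4 * (D : ℝ) ^ 2 * S.card) ^ 2
        ≤ (N ^ (1 / 100 : ℝ)) ^ 36 * (5 * N ^ (3 / 20 : ℝ)) ^ 2 := by gcongr
      _ = 25 * ((N ^ (1 / 100 : ℝ)) ^ 36 * (N ^ (3 / 20 : ℝ)) ^ 2) := by ring
      _ = 25 * N ^ (66 / 100 : ℝ) := by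
          congr 1
          rw [← Real.rpow_natCast, ← Real.rpow_natCast, ← Real.rpow_mul hN0.le,
            ← Real.rpow_mul hN0.le, ← Real.rpow_add hN0]
          norm_num
  have hV3 : 2 * (25 * N ^ (66 / 100 : ℝ)) ≤ N / L := by
    rw [le_div_iff₀ hL0]
    rw [pow_one] at hlog
    calc 2 * (25 * N ^ (66 / 100 : ℝ)) * L = N ^ (66 / 100 : ℝ) * (50 * L) := by ring
      _ ≤ N ^ (66 / 100 : ℝ) * N ^ (34 / 100 : ℝ) := by gcongr
      _ = N := by rw [← Real.rpow_add hN0]; norm_num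
  have hV4 : 2 * (M : ℝ) / Real.log z ≤ 400 * (1 + θ) * (N / L) := by
    calc 2 * (M : ℝ) / Real.log z ≤ 2 * ((1 + θ) * N) / (L / 200) := by gcongr
      _ = _ := by field_simp; ring
  have hV : 2 * (M : ℝ) / Real.log z + 2 * ((z : ℝ) ^ 36 * (1 + 4 * (D : ℝ) ^ 2 * S.card) ^ 2)
      ≤ (400 * (1 + θ) + 1) * (N / L) := by linarith
  have hV0 : 0 ≤ 2 * (M : ℝ) / Real.log z
      + 2 * ((z : ℝ) ^ 36 * (1 + 4 * (D : ℝ) ^ 2 * S.card) ^ 2) := by
    have : 0 ≤ Real.log z := by linarith [hlogz, (by positivity : 0 ≤ L / 200)]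
    positivity
  have htot : (A.card : ℝ) ^ 2 * ∑ d ∈ (Icc 1 D).filter F0, Shat A d ^ 2
      ≤ (Cπ * (1 + θ) * (N / L)) * ((400 * (1 + θ) + 1) * (N / L)) := by
    refine hlarge.trans ?_
    rw [one_pow, one_mul]
    gcongr
  have hsum0 : 0 ≤ ∑ d ∈ (Icc 1 D).filter F0, Shat A d ^ 2 := sum_nonneg fun _ _ => sq_nonneg _
  rw [le_div_iff₀ (by positivity)]
  have hNL : 0 < (N / L) ^ 2 := by positivity
  refine le_of_mul_le_mul_right ?_ hNL
  calc (∑ d ∈ (Icc 1 D).filter F0, Shat A d ^ 2) * (θ / 16) ^ 2 * (N / L) ^ 2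
      = (θ / 16 * (N / L)) ^ 2 * ∑ d ∈ (Icc 1 D).filter F0, Shat A d ^ 2 := by ring
    _ ≤ (A.card : ℝ) ^ 2 * ∑ d ∈ (Icc 1 D).filter F0, Shat A d ^ 2 := by gcongr
    _ ≤ _ := htot
    _ = _ := by ring

lemma young {x lam : ℝ} (hx : 0 ≤ x) (hl : 0 < lam) (m : ℕ) : x ≤ x ^ (m + 1) / lam ^ m + lam := by
  rcases le_total x lam with h | h
  · have : 0 ≤ x ^ (m + 1) / lam ^ m := by positivity
    linarith
  · have h1 : x ≤ x ^ (m + 1) / lam ^ m := by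
      rw [le_div_iff₀ (by positivity), pow_succ, mul_comm]
      gcongr
    linarith

lemma sum_inv_le {D : ℕ} {y : ℝ} (hD : (D : ℝ) ≤ y) (hy : 1 ≤ y) :
    ∑ d ∈ Icc 1 D, (1 : ℝ) / d ≤ 1 + Real.log y := by
  have h1 := harmonic_le_one_add_log D
  have h2 : ((harmonic D : ℚ) : ℝ) = ∑ d ∈ Icc 1 D, (1 : ℝ) / d := by
    rw [harmonic_eq_sum_Icc]
    push_cast
    exact sum_congr rfl fun d _ => by rw [one_div]
  rw [← h2]
  refine h1.trans ?_
  rcases Nat.eq_zero_or_pos D with h0 | h0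
  · subst h0
    simp only [CharP.cast_eq_zero, Real.log_zero, add_zero]
    linarith [Real.log_nonneg hy]
  · have : Real.log D ≤ Real.log y := Real.log_le_log (by exact_mod_cast h0) hD
    linarith

open Classical in
/-- **Medium range.** -/
lemma medium (hA1 : A1Stmt) {θ : ℝ} (hθ : 0 < θ) (K : ℕ) : ∃ κ : ℝ, 0 < κ ∧ ∀ᶠ N : ℝ in atTop,
    ∀ c ∈ cls, ∑ d ∈ (Ioc ⌊N ^ (1 / 20 : ℝ)⌋₊ ⌊N ^ K⌋₊).filter F0, Shat (pr N θ c) d ^ 2 / d
      ≤ N ^ (-κ) := by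
  set k : ℕ := 3 * K + 1 with hk
  have hk0 : (0 : ℝ) < k := by rw [hk]; positivity
  have hk1 : (1 : ℝ) ≤ k := by rw [hk]; push_cast; linarith [(Nat.cast_nonneg K : (0 : ℝ) ≤ K)]
  set κ : ℝ := 1 / (80 * k) with hκ
  have hκ0 : 0 < κ := by positivity
  set Ck : ℝ := (k * (1 + θ)) ^ k * ((1 + θ) ^ k + 1) / (θ / 16) ^ (2 * k) with hCk
  have hCk0 : 0 < Ck := by positivity
  refine ⟨κ, hκ0, ?_⟩
  filter_upwards [card_lower hA1 hθ, log_pow_le (2 * Ck) (2 * k) (a := 1 / 80) (by norm_num),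
    log_pow_le (2 + 2 * K) 1 hκ0, eventually_ge_atTop (Real.exp 1), eventually_ge_atTop (4 : ℝ)]
    with N hcard hlog1 hlog2 hN hN4 c hc
  have hN0 : 0 < N := (Real.exp_pos 1).trans_le hN
  have hN1 : 1 ≤ N := by linarith
  have hL : 1 ≤ Real.log N := by
    rw [Real.le_log_iff_exp_le hN0]; exact hN
  set L := Real.log N with hLdef
  have hL0 : 0 < L := by linarith
  set M := ⌊(1 + θ) * N⌋₊ with hM
  set D1 := ⌊N ^ (1 / 20 : ℝ)⌋₊ with hD1
  set D := ⌊N ^ K⌋₊ with hD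
  set A := pr N θ c with hA
  have hcA := hcard c hc
  have hA0 : 0 < (A.card : ℝ) := lt_of_lt_of_le (by positivity) hcA
  have hDle : (D : ℝ) ≤ N ^ K := Nat.floor_le (by positivity)
  have hMle : (M : ℝ) ≤ (1 + θ) * N := Nat.floor_le (by positivity)
  set S := zset (Ioc D1 D) with hS
  have hScard : (S.card : ℝ) ≤ N ^ K := by
    have h1 : S.card ≤ D := (zset_card _).trans (by simp)
    have h2 : (S.card : ℝ) ≤ D := by exact_mod_cast h1
    linarith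
  have hmed := medium_range S (zset_sqf _) (D := D) (zset_le fun d hd => (mem_Ioc.mp hd).2)
    (abs_ind_le A) M k
  rw [hS, sum_zset] at hmed
  rw [← hS] at hmed
  have hlhs : ∑ d ∈ (Ioc D1 D).filter F0, tsum' (ind A) M (d : ℤ) ^ (2 * k)
      = (A.card : ℝ) ^ (2 * k) * ∑ d ∈ (Ioc D1 D).filter F0, (Shat A d ^ 2) ^ k := by
    rw [mul_sum]
    refine sum_congr rfl fun d _ => ?_
    rw [tsum_eq_Shat hc hA0, mul_pow, pow_mul (Shat A d)]
  rw [hlhs, one_pow, one_pow, one_mul] at hmed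
  have hsum0 : 0 ≤ ∑ d ∈ (Ioc D1 D).filter F0, (Shat A d ^ 2) ^ k :=
    sum_nonneg fun _ _ => by positivity
  have hP : ((oddPrimes M).card : ℝ) ≤ (1 + θ) * N := (card_oddPrimes_le M).trans hMle
  have hV : ((M : ℝ) ^ k + 4 * (D : ℝ) ^ 2 * S.card) ≤ ((1 + θ) ^ k + 1) * N ^ k := by
    have h1 : (M : ℝ) ^ k ≤ ((1 + θ) * N) ^ k := by gcongr
    have h2 : 4 * (D : ℝ) ^ 2 * S.card ≤ 4 * (N ^ K) ^ 2 * N ^ K := by gcongr
    have h3 : 4 * (N ^ K) ^ 2 * N ^ K ≤ N ^ k := by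
      have e : 4 * (N ^ K) ^ 2 * N ^ K = N ^ (3 * K) * 4 := by
        rw [pow_mul' N 3 K]; ring
      rw [e, hk, pow_succ]
      gcongr
    rw [mul_pow] at h1
    linarith
  have hsumk : ∑ d ∈ (Ioc D1 D).filter F0, (Shat A d ^ 2) ^ k ≤ Ck * L ^ (2 * k) := by
    have hNL : 0 < (N / L) ^ (2 * k) := by positivity
    have h1 : (A.card : ℝ) ^ (2 * k) * ∑ d ∈ (Ioc D1 D).filter F0, (Shat A d ^ 2) ^ k
        ≤ (k * (1 + θ)) ^ k * ((1 + θ) ^ k + 1) * N ^ (2 * k) := by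
      refine hmed.trans ?_
      calc (k * ((oddPrimes M).card : ℝ)) ^ k * ((M : ℝ) ^ k + 4 * (D : ℝ) ^ 2 * S.card)
          ≤ (k * ((1 + θ) * N)) ^ k * (((1 + θ) ^ k + 1) * N ^ k) := by gcongr
        _ = _ := by
          rw [← mul_assoc (k : ℝ), mul_pow _ N k, two_mul k, pow_add N k k]; ring
    have h2 : (θ / 16 * (N / L)) ^ (2 * k) * ∑ d ∈ (Ioc D1 D).filter F0, (Shat A d ^ 2) ^ k
        ≤ (k * (1 + θ)) ^ k * ((1 + θ) ^ k + 1) * N ^ (2 * k) := by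
      refine le_trans ?_ h1
      gcongr
    rw [hCk, div_mul_eq_mul_div, le_div_iff₀ (by positivity)]
    refine le_of_mul_le_mul_right ?_ hNL
    calc (∑ d ∈ (Ioc D1 D).filter F0, (Shat A d ^ 2) ^ k) * (θ / 16) ^ (2 * k) * (N / L) ^ (2 * k)
        = (θ / 16 * (N / L)) ^ (2 * k) * ∑ d ∈ (Ioc D1 D).filter F0, (Shat A d ^ 2) ^ k := by
          rw [mul_pow]; ring
      _ ≤ (k * (1 + θ)) ^ k * ((1 + θ) ^ k + 1) * N ^ (2 * k) := h2
      _ = (k * (1 + θ)) ^ k * ((1 + θ) ^ k + 1) * L ^ (2 * k) * (N / L) ^ (2 * k) := by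
          rw [mul_assoc _ (L ^ (2 * k)), ← mul_pow, mul_div_cancel₀ _ hL0.ne']
  -- Young
  set lam : ℝ := N ^ (-(1 / (40 * k) : ℝ)) with hlam
  have hlam0 : 0 < lam := by positivity
  have hterm : ∀ d ∈ (Ioc D1 D).filter F0, Shat A d ^ 2 / d
      ≤ (Shat A d ^ 2) ^ k * (N ^ (-(1 / 40) : ℝ)) + lam * (1 / d) := by
    intro d hd
    rw [mem_filter, mem_Ioc] at hd
    have hd1 : N ^ (1 / 20 : ℝ) ≤ d := by
      have h1 : N ^ (1 / 20 : ℝ) < D1 + 1 := Nat.lt_floor_add_one _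
      have h2 : ((D1 + 1 : ℕ) : ℝ) ≤ d := by exact_mod_cast hd.1.1
      push_cast at h2
      linarith
    have hd0 : (0 : ℝ) < d := lt_of_lt_of_le (by positivity) hd1
    have hy := young (sq_nonneg (Shat A d)) hlam0 (3 * K)
    have h1 : Shat A d ^ 2 / d ≤ ((Shat A d ^ 2) ^ k / lam ^ (3 * K) + lam) / d := by
      gcongr
    refine h1.trans ?_
    rw [add_div, div_eq_mul_one_div lam]
    have h2 : (Shat A d ^ 2) ^ k / lam ^ (3 * K) / d ≤ (Shat A d ^ 2) ^ k * N ^ (-(1 / 40) : ℝ) := by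
      rw [div_div, div_eq_mul_inv]
      refine mul_le_mul_of_nonneg_left ?_ (by positivity)
      have h3 : N ^ (1 / 40 : ℝ) ≤ lam ^ (3 * K) * d := by
        have h4 : N ^ (-(1 / 40) : ℝ) ≤ lam ^ (3 * K) := by
          rw [hlam, ← Real.rpow_natCast, ← Real.rpow_mul hN0.le]
          apply Real.rpow_le_rpow_of_exponent_le hN1
          have h5 : (3 * K : ℝ) ≤ k := by rw [hk]; push_cast; linarith
          rw [neg_mul, neg_le_neg_iff]
          push_cast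
          rw [div_mul_eq_mul_div, div_le_div_iff₀ (by positivity) (by norm_num)]
          linarith
        calc N ^ (1 / 40 : ℝ) = N ^ (-(1 / 40) : ℝ) * N ^ (1 / 20 : ℝ) := by
              rw [← Real.rpow_add hN0]; norm_num
          _ ≤ lam ^ (3 * K) * d := by gcongr
      calc (lam ^ (3 * K) * (d : ℝ))⁻¹ ≤ (N ^ (1 / 40 : ℝ))⁻¹ :=
            inv_anti₀ (by positivity) h3
        _ = N ^ (-(1 / 40) : ℝ) := by rw [Real.rpow_neg hN0.le]
    linarith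
  refine (sum_le_sum hterm).trans ?_
  rw [sum_add_distrib, ← sum_mul, ← mul_sum]
  have hsum1 : ∑ d ∈ (Ioc D1 D).filter F0, (1 : ℝ) / d ≤ 1 + K * L := by
    have hNK : 1 ≤ N ^ K := one_le_pow₀ hN1
    have h1 := sum_inv_le hDle hNK
    rw [Real.log_pow] at h1
    refine le_trans ?_ h1
    refine sum_le_sum_of_subset_of_nonneg ?_ (fun _ _ _ => by positivity)
    intro d hd
    rw [mem_filter, mem_Ioc] at hd
    rw [mem_Icc]
    omega
  have hpart1 : (∑ d ∈ (Ioc D1 D).filter F0, (Shat A d ^ 2) ^ k) * N ^ (-(1 / 40) : ℝ)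
      ≤ 1 / 2 * N ^ (-κ) := by
    have h1 : Ck * L ^ (2 * k) ≤ 1 / 2 * N ^ (1 / 80 : ℝ) := by linarith
    have h2 : -(1 / 80 : ℝ) ≤ -κ := by
      rw [neg_le_neg_iff, hκ]
      rw [div_le_div_iff₀ (by positivity) (by norm_num)]
      linarith
    calc (∑ d ∈ (Ioc D1 D).filter F0, (Shat A d ^ 2) ^ k) * N ^ (-(1 / 40) : ℝ)
        ≤ (1 / 2 * N ^ (1 / 80 : ℝ)) * N ^ (-(1 / 40) : ℝ) := by
          gcongr
          exact hsumk.trans h1
      _ = 1 / 2 * N ^ (-(1 / 80) : ℝ) := by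
          rw [mul_assoc, ← Real.rpow_add hN0]; norm_num
      _ ≤ 1 / 2 * N ^ (-κ) := by
          gcongr
  have hpart2 : lam * ∑ d ∈ (Ioc D1 D).filter F0, (1 : ℝ) / d ≤ 1 / 2 * N ^ (-κ) := by
    have h1 : 1 + K * L ≤ 1 / 2 * N ^ κ := by
      rw [pow_one] at hlog2
      have hK0 : (0 : ℝ) ≤ K := Nat.cast_nonneg K
      nlinarith
    calc lam * ∑ d ∈ (Ioc D1 D).filter F0, (1 : ℝ) / d ≤ lam * (1 / 2 * N ^ κ) := by
          gcongr
          exact hsum1.trans h1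
      _ = 1 / 2 * (N ^ (-(1 / (40 * k) : ℝ)) * N ^ κ) := by rw [hlam]; ring
      _ = 1 / 2 * N ^ (-κ) := by
          rw [← Real.rpow_add hN0]
          congr 2
          rw [hκ]
          field_simp
          norm_num
  linarith

end D3

open D3 in
/-- **[D3]** -/
theorem D3_of (hA1 : A1Stmt) : D3Stmt := by
  classical
  intro θ hθ K
  obtain ⟨C, hC, hl⟩ := large hA1 hθ
  obtain ⟨κ, hκ, hm⟩ := medium hA1 hθ K
  obtain ⟨N1, hN1⟩ := eventually_atTop.mp (hl.and hm)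
  refine ⟨max C 1, κ, max N1 2, by positivity, hκ, le_max_right _ _, ?_⟩
  intro N hN c hc D0 hD0
  obtain ⟨hl', hm'⟩ := hN1 N ((le_max_left _ _).trans hN)
  have hN2 : (2 : ℝ) ≤ N := (le_max_right _ _).trans hN
  have hl'' := hl' c hc
  have hm'' := hm' c hc
  have hD0' : (1 : ℝ) ≤ D0 := by exact_mod_cast hD0
  rw [← sum_filter_add_sum_filter_not ((Ioc D0 ⌊N ^ K⌋₊).filter F0)
    (fun d => d ≤ ⌊N ^ (1 / 20 : ℝ)⌋₊)]
  refine add_le_add ?_ ?_
  · calc ∑ d ∈ ((Ioc D0 ⌊N ^ K⌋₊).filter F0).filter (fun d => d ≤ ⌊N ^ (1 / 20 : ℝ)⌋₊),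
          Shat (pr N θ c) d ^ 2 / d
        ≤ ∑ d ∈ ((Ioc D0 ⌊N ^ K⌋₊).filter F0).filter (fun d => d ≤ ⌊N ^ (1 / 20 : ℝ)⌋₊),
          Shat (pr N θ c) d ^ 2 / D0 := by
          refine sum_le_sum fun d hd => ?_
          rw [mem_filter, mem_filter, mem_Ioc] at hd
          have : (D0 : ℝ) ≤ d := by exact_mod_cast hd.1.1.1.le
          gcongr
      _ ≤ ∑ d ∈ (Icc 1 ⌊N ^ (1 / 20 : ℝ)⌋₊).filter F0, Shat (pr N θ c) d ^ 2 / D0 := by
          refine sum_le_sum_of_subset_of_nonneg ?_ (fun _ _ _ => by positivity)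
          intro d hd
          rw [mem_filter, mem_filter, mem_Ioc] at hd
          rw [mem_filter, mem_Icc]
          exact ⟨⟨by omega, hd.2⟩, hd.1.2⟩
      _ = (∑ d ∈ (Icc 1 ⌊N ^ (1 / 20 : ℝ)⌋₊).filter F0, Shat (pr N θ c) d ^ 2) / D0 := by
          rw [sum_div]
      _ ≤ max C 1 / D0 := by
          gcongr
          exact hl''.trans (le_max_left _ _)
  · calc ∑ d ∈ ((Ioc D0 ⌊N ^ K⌋₊).filter F0).filter (fun d => ¬ d ≤ ⌊N ^ (1 / 20 : ℝ)⌋₊),
          Shat (pr N θ c) d ^ 2 / d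
        ≤ ∑ d ∈ (Ioc ⌊N ^ (1 / 20 : ℝ)⌋₊ ⌊N ^ K⌋₊).filter F0, Shat (pr N θ c) d ^ 2 / d := by
          refine sum_le_sum_of_subset_of_nonneg ?_ (fun _ _ _ => by positivity)
          intro d hd
          rw [mem_filter, mem_filter, mem_Ioc] at hd
          rw [mem_filter, mem_Ioc]
          exact ⟨⟨by omega, hd.1.1.2⟩, hd.1.2⟩
      _ ≤ N ^ (-κ) := hm''
      _ ≤ max C 1 * N ^ (-κ) := by
          have h1 : 0 ≤ N ^ (-κ) := by positivity
          have h2 : 1 ≤ max C 1 := le_max_right _ _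
          nlinarith

end Pool.Agent.C1D
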