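import Pool.Agent.C1D.D3

set_option autoImplicit false

/-!
# C1D / D4: the total equidistribution error is small
-/

namespace Pool.Agent.C1D

open Finset Filter

namespace D4

open Classical in
/-- fixed `d`: the symbol average is small in long blocks -/
lemma small_d (hA1 : A1Stmt) (hA2 : A2Stmt) {θ : ℝ} (hθ : 0 < θ) {d : ℕ} (hd : F0 d) (hd1 : 1 < d)
    {δ : ℝ} (hδ : 0 < δ) :
    ∀ᶠ N : ℝ in atTop, ∀ c ∈ cls, Shat (pr N θ c) d ^ 2 ≤ δ := by
  set ε : ℝ := θ / 16 * Real.sqrt δ with hε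
  have hsδ : 0 < Real.sqrt δ := Real.sqrt_pos.mpr hδ
  obtain ⟨N1, -, h⟩ := hA2 θ hθ d hd hd1 ε (by positivity)
  filter_upwards [eventually_ge_atTop N1, D3.card_lower hA1 hθ, eventually_ge_atTop (2 : ℝ)]
    with N hN hcard hN2 c hc
  have hL : 0 < Real.log N := Real.log_pos (by linarith)
  have hN0 : 0 < N := by linarith
  have h1 := h N hN c hc
  have h2 := hcard c hc
  have hA0 : 0 < ((pr N θ c).card : ℝ) := lt_of_lt_of_le (by positivity) h2
  have h3 : |Shat (pr N θ c) d| ≤ Real.sqrt δ := by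
    rw [Shat, abs_div, abs_of_pos hA0, div_le_iff₀ hA0]
    refine h1.trans ?_
    calc ε * N / Real.log N = Real.sqrt δ * (θ / 16 * (N / Real.log N)) := by rw [hε]; ring
      _ ≤ Real.sqrt δ * (pr N θ c).card := by gcongr
  calc Shat (pr N θ c) d ^ 2 = |Shat (pr N θ c) d| ^ 2 := (sq_abs _).symm
    _ ≤ Real.sqrt δ ^ 2 := by gcongr
    _ = δ := Real.sq_sqrt hδ.le

lemma weight_le {d : ℕ} (hd : 1 ≤ d) : Real.sqrt (1 + Real.log d) / d ≤ 1 / Real.sqrt d := by
  have hd0 : (0 : ℝ) < d := by exact_mod_cast hd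
  have hs : 0 < Real.sqrt d := Real.sqrt_pos.mpr hd0
  have h1 : Real.sqrt (1 + Real.log d) ≤ Real.sqrt d := by
    apply Real.sqrt_le_sqrt
    have := Real.log_le_sub_one_of_pos hd0
    linarith
  rw [div_le_div_iff₀ hd0 hs]
  calc Real.sqrt (1 + Real.log d) * Real.sqrt d ≤ Real.sqrt d * Real.sqrt d := by gcongr
    _ = 1 * d := by rw [Real.mul_self_sqrt hd0.le, one_mul]

open Classical in
/-- the weighted mean square of the symbol averages is small -/
lemma W_small (hA1 : A1Stmt) (hA2 : A2Stmt) {θ : ℝ} (hθ : 0 < θ) (K : ℕ) {δ : ℝ} (hδ : 0 < δ) :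
    ∀ᶠ N : ℝ in atTop, ∀ c ∈ cls, ∑ d ∈ (Ioc 1 ⌊N ^ K⌋₊).filter F0,
      Shat (pr N θ c) d ^ 2 * (Real.sqrt (1 + Real.log d) / d) ≤ δ := by
  obtain ⟨C, hC, hl⟩ := D3.large hA1 hθ
  obtain ⟨κ, hκ, hm⟩ := D3.medium hA1 hθ K
  set D0 : ℕ := ⌈(3 * C / δ) ^ 2⌉₊ + 1 with hD0
  have hD0pos : (0 : ℝ) < D0 := by rw [hD0]; positivity
  have hD0s : C / Real.sqrt D0 ≤ δ / 3 := by
    have h1 : 3 * C / δ ≤ Real.sqrt D0 := by
      apply Real.le_sqrt_of_sq_le
      have := Nat.le_ceil ((3 * C / δ) ^ 2)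
      rw [hD0]; push_cast; linarith
    have hs : 0 < Real.sqrt D0 := Real.sqrt_pos.mpr hD0pos
    rw [div_le_iff₀ hs]
    rw [div_le_iff₀ hδ] at h1
    linarith
  have hsmall : ∀ᶠ N : ℝ in atTop, ∀ d ∈ (Ioc 1 D0).filter F0, ∀ c ∈ cls,
      Shat (pr N θ c) d ^ 2 ≤ δ / (3 * D0) := by
    rw [Filter.eventually_all_finset]
    intro d hd
    rw [mem_filter, mem_Ioc] at hd
    exact small_d hA1 hA2 hθ hd.2 hd.1.1 (by positivity)
  filter_upwards [hl, hm, hsmall, D3.log_pow_le (3 * (1 + K) / δ) 1 hκ,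
    eventually_ge_atTop (Real.exp 1)] with N hl hm hsmall hlog hN c hc
  have hN0 : 0 < N := (Real.exp_pos 1).trans_le hN
  have hN1 : 1 ≤ N := by
    have := Real.add_one_le_exp (1 : ℝ)
    linarith
  have hL : 1 ≤ Real.log N := by
    rw [Real.le_log_iff_exp_le hN0]; exact hN
  have hl' := hl c hc
  have hm' := hm c hc
  set A := pr N θ c with hA
  set D1 := ⌊N ^ (1 / 20 : ℝ)⌋₊ with hD1
  set D := ⌊N ^ K⌋₊ with hD
  have hDle : (D : ℝ) ≤ N ^ K := Nat.floor_le (by positivity)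
  set f : ℕ → ℝ := fun d => Shat A d ^ 2 * (Real.sqrt (1 + Real.log d) / d) with hf
  have hf0 : ∀ d, 0 ≤ f d := fun d => by
    rw [hf]; positivity
  have hsub : (Ioc 1 D).filter F0 ⊆ ((Ioc 1 D0).filter F0 ∪
      ((Icc 1 D1).filter F0).filter (fun d => D0 < d)) ∪ (Ioc D1 D).filter F0 := by
    intro d hd
    simp only [mem_union, mem_filter, mem_Ioc, mem_Icc] at hd ⊢
    by_cases h1 : d ≤ D0
    · left; left; exact ⟨⟨hd.1.1, h1⟩, hd.2⟩
    · by_cases h2 : d ≤ D1
      · left; right; exact ⟨⟨⟨hd.1.1.le, h2⟩, hd.2⟩, by omega⟩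
      · right; exact ⟨⟨by omega, hd.1.2⟩, hd.2⟩
  have hsplit : ∑ d ∈ (Ioc 1 D).filter F0, f d ≤ ∑ d ∈ (Ioc 1 D0).filter F0, f d
      + ∑ d ∈ ((Icc 1 D1).filter F0).filter (fun d => D0 < d), f d
      + ∑ d ∈ (Ioc D1 D).filter F0, f d := by
    refine (sum_le_sum_of_subset_of_nonneg hsub fun d _ _ => hf0 d).trans ?_
    have u1 := sum_union_inter (s₁ := (Ioc 1 D0).filter F0 ∪
      ((Icc 1 D1).filter F0).filter (fun d => D0 < d)) (s₂ := (Ioc D1 D).filter F0) (f := f)
    have u2 := sum_union_inter (s₁ := (Ioc 1 D0).filter F0)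
      (s₂ := ((Icc 1 D1).filter F0).filter (fun d => D0 < d)) (f := f)
    have n1 : 0 ≤ ∑ d ∈ ((Ioc 1 D0).filter F0 ∪
      ((Icc 1 D1).filter F0).filter (fun d => D0 < d)) ∩ (Ioc D1 D).filter F0, f d :=
      sum_nonneg fun d _ => hf0 d
    have n2 : 0 ≤ ∑ d ∈ (Ioc 1 D0).filter F0 ∩
      ((Icc 1 D1).filter F0).filter (fun d => D0 < d), f d := sum_nonneg fun d _ => hf0 d
    linarith
  refine hsplit.trans ?_
  have p1 : ∑ d ∈ (Ioc 1 D0).filter F0, f d ≤ δ / 3 := by
    have h1 : ∀ d ∈ (Ioc 1 D0).filter F0, f d ≤ δ / (3 * D0) := by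
      intro d hd
      have h2 := hsmall d hd c hc
      rw [mem_filter, mem_Ioc] at hd
      have hd1 : (1 : ℝ) ≤ d := by exact_mod_cast hd.1.1.le
      have h3 : Real.sqrt (1 + Real.log d) / d ≤ 1 := by
        refine (weight_le hd.1.1.le).trans ?_
        have : 1 ≤ Real.sqrt d := Real.one_le_sqrt.mpr hd1
        rw [div_le_one (by linarith)]
        exact this
      calc f d = Shat A d ^ 2 * (Real.sqrt (1 + Real.log d) / d) := rfl
        _ ≤ (δ / (3 * D0)) * 1 := by gcongr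
        _ = _ := mul_one _
    refine (sum_le_card_nsmul _ _ _ h1).trans ?_
    rw [nsmul_eq_mul]
    have h4 : (((Ioc 1 D0).filter F0).card : ℝ) ≤ D0 := by
      have : ((Ioc 1 D0).filter F0).card ≤ D0 := (card_filter_le _ _).trans (by simp)
      exact_mod_cast this
    calc (((Ioc 1 D0).filter F0).card : ℝ) * (δ / (3 * D0)) ≤ D0 * (δ / (3 * D0)) := by gcongr
      _ = δ / 3 := by field_simp
  have p2 : ∑ d ∈ ((Icc 1 D1).filter F0).filter (fun d => D0 < d), f d ≤ δ / 3 := by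
    have h1 : ∀ d ∈ ((Icc 1 D1).filter F0).filter (fun d => D0 < d),
        f d ≤ Shat A d ^ 2 * (1 / Real.sqrt D0) := by
      intro d hd
      rw [mem_filter, mem_filter, mem_Icc] at hd
      have h3 : (D0 : ℝ) ≤ d := by exact_mod_cast hd.2.le
      have hs : 0 < Real.sqrt D0 := Real.sqrt_pos.mpr hD0pos
      have h4 : Real.sqrt (1 + Real.log d) / d ≤ 1 / Real.sqrt D0 := by
        refine (weight_le hd.1.1.1).trans ?_
        gcongr
      change Shat A d ^ 2 * (Real.sqrt (1 + Real.log d) / d) ≤ _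
      gcongr
    refine (sum_le_sum h1).trans ?_
    rw [← sum_mul]
    calc (∑ d ∈ ((Icc 1 D1).filter F0).filter (fun d => D0 < d), Shat A d ^ 2)
          * (1 / Real.sqrt D0)
        ≤ (∑ d ∈ (Icc 1 D1).filter F0, Shat A d ^ 2) * (1 / Real.sqrt D0) := by
          gcongr
          exact filter_subset _ _
      _ ≤ C * (1 / Real.sqrt D0) := by gcongr
      _ = C / Real.sqrt D0 := by ring
      _ ≤ δ / 3 := hD0s
  have p3 : ∑ d ∈ (Ioc D1 D).filter F0, f d ≤ δ / 3 := by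
    have h1 : ∀ d ∈ (Ioc D1 D).filter F0, f d ≤ Shat A d ^ 2 / d * (1 + K * Real.log N) := by
      intro d hd
      rw [mem_filter, mem_Ioc] at hd
      have hd1 : 1 ≤ d := by omega
      have hd0 : (0 : ℝ) < d := by exact_mod_cast hd1
      have hdD : (d : ℝ) ≤ N ^ K := by
        have : (d : ℝ) ≤ D := by exact_mod_cast hd.1.2
        linarith
      have h2 : Real.log d ≤ K * Real.log N := by
        rw [← Real.log_pow]
        exact Real.log_le_log hd0 hdD
      have hlogd : 0 ≤ Real.log d := Real.log_nonneg (by exact_mod_cast hd1)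
      have h3 : Real.sqrt (1 + Real.log d) ≤ 1 + K * Real.log N := by
        rw [Real.sqrt_le_left (by positivity)]
        nlinarith
      rw [hf]
      calc Shat A d ^ 2 * (Real.sqrt (1 + Real.log d) / d)
          ≤ Shat A d ^ 2 * ((1 + K * Real.log N) / d) := by gcongr
        _ = _ := by ring
    refine (sum_le_sum h1).trans ?_
    rw [← sum_mul]
    have hK0 : (0 : ℝ) ≤ K := Nat.cast_nonneg K
    have h5 : (1 + K * Real.log N) ≤ δ / 3 * N ^ κ := by
      rw [pow_one, div_mul_eq_mul_div, div_le_iff₀ hδ] at hlog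
      nlinarith
    calc (∑ d ∈ (Ioc D1 D).filter F0, Shat A d ^ 2 / d) * (1 + K * Real.log N)
        ≤ N ^ (-κ) * (δ / 3 * N ^ κ) := by
          gcongr
      _ = δ / 3 * (N ^ (-κ) * N ^ κ) := by ring
      _ = δ / 3 := by rw [← Real.rpow_add hN0]; simp
  linarith

lemma sqrt_log_mul {Y d : ℝ} (hd : 1 ≤ d) (hdY : d ≤ Y) :
    Real.sqrt (1 + Real.log Y) ≤ Real.sqrt (1 + Real.log (Y / d)) * Real.sqrt (1 + Real.log d) := by
  have hd0 : 0 < d := by linarith
  have h1 : 0 ≤ Real.log d := Real.log_nonneg hd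
  have h2 : 0 ≤ Real.log (Y / d) := Real.log_nonneg (by rw [le_div_iff₀ hd0]; linarith)
  rw [← Real.sqrt_mul (by linarith)]
  apply Real.sqrt_le_sqrt
  have h3 : Real.log Y = Real.log (Y / d) + Real.log d := by
    rw [Real.log_div (by linarith) hd0.ne']; ring
  rw [h3]
  nlinarith

lemma F0_dvd {n d : ℕ} (hn : F0 n) (hd : d ∣ n) : F0 d :=
  ⟨hn.1.squarefree_of_dvd hd, fun p hp hpd => hn.2 p hp (hpd.trans hd)⟩

open Classical in
lemma count_multiples {Y : ℝ} {d : ℕ} (hd : 1 ≤ d) :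
    ((((Icc 1 ⌊Y⌋₊).filter F0).filter (fun n => d ∣ n)).card : ℝ) ≤ N0 (Y / d) := by
  rw [N0]
  have h : (((Icc 1 ⌊Y⌋₊).filter F0).filter (fun n => d ∣ n)).card
      ≤ ((Icc 1 ⌊Y / d⌋₊).filter F0).card := by
    apply card_le_card_of_injOn (fun n => n / d)
    · intro n hn
      simp only [coe_filter, mem_filter, mem_Icc, Set.mem_ofPred_eq] at hn ⊢
      obtain ⟨⟨⟨h1, h2⟩, h3⟩, h4⟩ := hn
      have hdn : n / d ∣ n := Nat.div_dvd_of_dvd h4
      refine ⟨⟨Nat.div_pos (Nat.le_of_dvd (by omega) h4) (by omega), ?_⟩, F0_dvd h3 hdn⟩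
      rw [Nat.floor_div_natCast]
      exact Nat.div_le_div_right h2
    · intro a ha b hb hab
      simp only [coe_filter, mem_filter, Set.mem_ofPred_eq] at ha hb
      have h1 := Nat.div_mul_cancel ha.2
      have h2 := Nat.div_mul_cancel hb.2
      simp only at hab
      rw [← h1, ← h2, hab]
  exact_mod_cast h

open Classical in
/-- Cauchy–Schwarz in the other primes. -/
lemma inner {C : ℝ} (hE : ∀ X : ℝ, 1 ≤ X → N0 X ≤ C * (X / Real.sqrt (1 + Real.log X)))
    {Y : ℝ} (hY : 1 ≤ Y) (S : ℕ → ℝ) {W : ℝ} (hW0 : 0 ≤ W)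
    (hW : ∑ d ∈ (Ioc 1 ⌊Y⌋₊).filter F0, S d ^ 2 * (Real.sqrt (1 + Real.log d) / d) ≤ W) :
    ∑ n ∈ (Icc 1 ⌊Y⌋₊).filter F0, Real.sqrt (∑ d ∈ n.divisors.erase 1, S d ^ 2)
      ≤ C * (Y / Real.sqrt (1 + Real.log Y)) * Real.sqrt W := by
  set I := (Icc 1 ⌊Y⌋₊).filter F0 with hI
  have hlogY : 0 ≤ Real.log Y := Real.log_nonneg hY
  set s := Real.sqrt (1 + Real.log Y) with hs
  have hs0 : 0 < s := Real.sqrt_pos.mpr (by linarith)
  have hN0Y : (I.card : ℝ) ≤ C * (Y / s) := hE Y hY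
  have hCY : 0 ≤ C * (Y / s) := (Nat.cast_nonneg _).trans hN0Y
  have hC0 : 0 ≤ C := by
    by_contra hcon
    push Not at hcon
    have hcard1 : (1 : ℝ) ≤ I.card := by
      have : 1 ∈ I := by
        rw [hI, mem_filter, mem_Icc]
        refine ⟨⟨le_rfl, Nat.le_floor (by exact_mod_cast hY)⟩, squarefree_one, ?_⟩
        intro p hp hp1
        exact absurd (Nat.dvd_one.mp hp1) hp.one_lt.ne'
      exact_mod_cast (card_pos.mpr ⟨1, this⟩)
    have : C * (Y / s) < 0 := mul_neg_of_neg_of_pos hcon (by positivity)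
    linarith
  -- swap the sums
  have hswap : ∑ n ∈ I, ∑ d ∈ n.divisors.erase 1, S d ^ 2
      ≤ ∑ d ∈ (Ioc 1 ⌊Y⌋₊).filter F0, S d ^ 2 * N0 (Y / d) := by
    have h1 : ∑ n ∈ I, ∑ d ∈ n.divisors.erase 1, S d ^ 2
        = ∑ d ∈ (Ioc 1 ⌊Y⌋₊).filter F0, ∑ n ∈ I.filter (fun n => d ∣ n), S d ^ 2 := by
      apply sum_comm'
      intro n d
      simp only [hI, mem_filter, mem_Icc, mem_Ioc, mem_erase, Nat.mem_divisors]
      constructor
      · rintro ⟨⟨⟨h1, h2⟩, h3⟩, h4, h5, h6⟩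
        have h7 := Nat.le_of_dvd (by omega) h5
        have h8 := Nat.pos_of_dvd_of_pos h5 (by omega)
        exact ⟨⟨⟨⟨h1, h2⟩, h3⟩, h5⟩, ⟨by omega, by omega⟩, F0_dvd h3 h5⟩
      · rintro ⟨⟨⟨⟨h1, h2⟩, h3⟩, h5⟩, ⟨h6, h7⟩, h8⟩
        exact ⟨⟨⟨h1, h2⟩, h3⟩, by omega, h5, by omega⟩
    rw [h1]
    refine sum_le_sum fun d hd => ?_
    rw [mem_filter, mem_Ioc] at hd
    rw [sum_const, nsmul_eq_mul, mul_comm]
    exact mul_le_mul_of_nonneg_left (count_multiples hd.1.1.le) (sq_nonneg _)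
  have hbound : ∑ n ∈ I, ∑ d ∈ n.divisors.erase 1, S d ^ 2 ≤ C * (Y / s) * W := by
    refine hswap.trans ?_
    refine le_trans ?_ (mul_le_mul_of_nonneg_left hW hCY)
    rw [mul_sum]
    refine sum_le_sum fun d hd => ?_
    rw [mem_filter, mem_Ioc] at hd
    have hd1 : (1 : ℝ) ≤ d := by exact_mod_cast hd.1.1.le
    have hd0 : (0 : ℝ) < d := by linarith
    have hdY : (d : ℝ) ≤ Y := by
      have h1 : (d : ℝ) ≤ ⌊Y⌋₊ := by exact_mod_cast hd.1.2
      exact h1.trans (Nat.floor_le (by linarith))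
    have hYd : 1 ≤ Y / d := by rw [le_div_iff₀ hd0]; linarith
    have h1 := hE (Y / d) hYd
    have hlYd : 0 ≤ Real.log (Y / d) := Real.log_nonneg hYd
    have hld : 0 ≤ Real.log d := Real.log_nonneg hd1
    set t := Real.sqrt (1 + Real.log (Y / d)) with ht
    have ht0 : 0 < t := Real.sqrt_pos.mpr (by linarith)
    set u := Real.sqrt (1 + Real.log d) with hu
    have hst : s ≤ t * u := sqrt_log_mul hd1 hdY
    have h2 : N0 (Y / d) ≤ C * (Y / s) * (u / d) := by
      refine h1.trans ?_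
      have h3 : 1 / t ≤ u / s := by
        rw [div_le_div_iff₀ ht0 hs0]
        linarith
      calc C * (Y / d / t) = C * (Y / d) * (1 / t) := by ring
        _ ≤ C * (Y / d) * (u / s) := by gcongr
        _ = _ := by ring
    calc S d ^ 2 * N0 (Y / d) ≤ S d ^ 2 * (C * (Y / s) * (u / d)) := by gcongr
      _ = _ := by ring
  -- Cauchy-Schwarz
  have hCS : (∑ n ∈ I, Real.sqrt (∑ d ∈ n.divisors.erase 1, S d ^ 2)) ^ 2
      ≤ (I.card : ℝ) * ∑ n ∈ I, ∑ d ∈ n.divisors.erase 1, S d ^ 2 := by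
    have h1 := sq_sum_le_card_mul_sum_sq (s := I)
      (f := fun n => Real.sqrt (∑ d ∈ n.divisors.erase 1, S d ^ 2))
    refine h1.trans (le_of_eq ?_)
    congr 1
    refine sum_congr rfl fun n _ => ?_
    exact Real.sq_sqrt (sum_nonneg fun _ _ => sq_nonneg _)
  have hfin : (∑ n ∈ I, Real.sqrt (∑ d ∈ n.divisors.erase 1, S d ^ 2)) ^ 2
      ≤ (C * (Y / s) * Real.sqrt W) ^ 2 := by
    refine hCS.trans ?_
    calc (I.card : ℝ) * ∑ n ∈ I, ∑ d ∈ n.divisors.erase 1, S d ^ 2
        ≤ (C * (Y / s)) * (C * (Y / s) * W) := by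
          refine mul_le_mul hN0Y hbound ?_ hCY
          exact sum_nonneg fun _ _ => sum_nonneg fun _ _ => sq_nonneg _
      _ = (C * (Y / s) * Real.sqrt W) ^ 2 := by
          rw [mul_pow, Real.sq_sqrt hW0]; ring
  exact (sq_le_sq₀ (sum_nonneg fun _ _ => Real.sqrt_nonneg _) (by positivity)).mp hfin

/-- the sum over the blocks -/
lemma sum_sqrt {l : ℝ} (hl : 0 < l) (m : ℕ) :
    ∑ i ∈ range (m + 1), 1 / Real.sqrt (1 + i * l) ≤ 1 + 2 / l * Real.sqrt (1 + m * l) := by
  induction m with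
  | zero =>
    simp only [zero_add, range_one, sum_singleton, CharP.cast_eq_zero, zero_mul, add_zero,
      Real.sqrt_one, div_one, mul_one]
    have : 0 < 2 / l := by positivity
    linarith
  | succ m ih =>
    rw [sum_range_succ]
    set a := Real.sqrt (1 + ((m + 1 : ℕ) : ℝ) * l) with ha
    set b := Real.sqrt (1 + (m : ℝ) * l) with hb
    have ha0 : 0 < a := Real.sqrt_pos.mpr (by positivity)
    have hb0 : 0 ≤ b := Real.sqrt_nonneg _
    have ha2 : a ^ 2 = 1 + ((m + 1 : ℕ) : ℝ) * l := Real.sq_sqrt (by positivity)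
    have hb2 : b ^ 2 = 1 + (m : ℝ) * l := Real.sq_sqrt (by positivity)
    have hab : b ≤ a := by
      apply Real.sqrt_le_sqrt
      push_cast
      nlinarith
    have h1 : l ≤ 2 * (a - b) * a := by
      have h2 : (a - b) * (a + b) = l := by
        have : (a - b) * (a + b) = a ^ 2 - b ^ 2 := by ring
        rw [this, ha2, hb2]; push_cast; ring
      nlinarith
    have h3 : 1 / a ≤ 2 / l * (a - b) := by
      rw [div_mul_eq_mul_div, div_le_div_iff₀ ha0 hl]
      linarith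
    have h4 : 2 / l * a = 2 / l * b + 2 / l * (a - b) := by ring
    linarith

lemma sum_blocks {l U : ℝ} (hl : 0 < l) (hl1 : l ≤ 1) (hU : 0 ≤ U) :
    ∑ b ∈ range (⌊U / l⌋₊ + 1), 1 / Real.sqrt (1 + (U - b * l)) ≤ 3 / l * Real.sqrt (1 + U) := by
  set m := ⌊U / l⌋₊ with hm
  have hml : (m : ℝ) * l ≤ U := by
    have : (m : ℝ) ≤ U / l := Nat.floor_le (by positivity)
    rwa [le_div_iff₀ hl] at this
  rw [← sum_range_reflect]
  have h1 : ∑ j ∈ range (m + 1), 1 / Real.sqrt (1 + (U - ((m + 1 - 1 - j : ℕ) : ℝ) * l))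
      ≤ ∑ j ∈ range (m + 1), 1 / Real.sqrt (1 + j * l) := by
    refine sum_le_sum fun j hj => ?_
    have hj' : j ≤ m := by
      have := mem_range.mp hj
      omega
    have h2 : ((m + 1 - 1 - j : ℕ) : ℝ) = m - j := by
      rw [Nat.add_sub_cancel, Nat.cast_sub hj']
    rw [h2]
    have h3 : (j : ℝ) * l ≤ U - (m - j) * l := by nlinarith
    have h4 : 0 < Real.sqrt (1 + j * l) := Real.sqrt_pos.mpr (by positivity)
    gcongr
  refine h1.trans ((sum_sqrt hl m).trans ?_)
  have h5 : Real.sqrt (1 + m * l) ≤ Real.sqrt (1 + U) := Real.sqrt_le_sqrt (by linarith)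
  have h6 : 1 ≤ Real.sqrt (1 + U) := Real.one_le_sqrt.mpr (by linarith)
  have h7 : 1 ≤ 1 / l := by rw [le_div_iff₀ hl]; linarith
  calc 1 + 2 / l * Real.sqrt (1 + m * l) ≤ 1 / l * Real.sqrt (1 + U) + 2 / l * Real.sqrt (1 + U) := by
        gcongr
        nlinarith
    _ = _ := by ring

end D4

open D4 in
/-- **[D4]** -/
theorem D4_of (hA1 : A1Stmt) (hA2 : A2Stmt) (hE2 : E2Stmt) : D4Stmt := by
  classical
  intro η hη hη1 θ hθ hθ1 ε hε
  obtain ⟨⟨C, hE⟩, -⟩ := hE2
  set l := Real.log (1 + θ) with hl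
  have hl0 : 0 < l := Real.log_pos (by linarith)
  have hl1 : l ≤ 1 := by
    have := Real.log_le_sub_one_of_pos (show 0 < 1 + θ by linarith)
    linarith
  have hC0 : 0 ≤ C := by
    have h1 := hE 1 le_rfl
    have h2 : 0 ≤ N0 1 := by rw [N0]; positivity
    rw [Real.log_one, add_zero, Real.sqrt_one, div_one, mul_one] at h1
    linarith
  set Q : ℝ := 96 * θ * C / (η * l) with hQ
  have hQ0 : 0 ≤ Q := by positivity
  set δ : ℝ := (ε / (Q + 1)) ^ 2 with hδ
  have hδ0 : 0 < δ := by positivity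
  have hsδ : Real.sqrt δ = ε / (Q + 1) := Real.sqrt_sq (by positivity)
  set K : ℕ := ⌈2 / η⌉₊ with hK
  obtain ⟨N1, hW⟩ := eventually_atTop.mp (W_small hA1 hA2 hθ K hδ0)
  obtain ⟨N2, -, hcard⟩ := hA1 θ hθ θ hθ
  -- size of z
  have hz : ∀ᶠ X : ℝ in atTop, max (max N1 N2) 2 ≤ X ^ (η / 2) :=
    (tendsto_rpow_atTop (by positivity)).eventually_ge_atTop _
  obtain ⟨X0, hX0⟩ := eventually_atTop.mp (hz.and (eventually_ge_atTop (Real.exp 1)))
  refine ⟨X0, fun X hX => ?_⟩
  obtain ⟨hz, hXe⟩ := hX0 X hX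
  have hXpos : 0 < X := (Real.exp_pos 1).trans_le hXe
  have hX1 : 1 ≤ X := by
    have := Real.add_one_le_exp (1 : ℝ)
    linarith
  have hLX : 1 ≤ Real.log X := by
    rw [Real.le_log_iff_exp_le hXpos]; exact hXe
  set z := zz η X with hzdef
  have hsplit : X ^ η = X ^ (η / 2) * X ^ (η / 2) := by
    rw [← Real.rpow_add hXpos]; congr 1; ring
  have hr2 : 2 ≤ X ^ (η / 2) := (le_max_right _ _).trans hz
  have hz1 : X ^ (η / 2) ≤ z := by
    have h1 : X ^ η < z + 1 := Nat.lt_floor_add_one _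
    nlinarith
  have hz0 : (0 : ℝ) < z := by linarith
  have hzX : (z : ℝ) ≤ X := by
    have h1 : (z : ℝ) ≤ X ^ η := Nat.floor_le (by positivity)
    refine h1.trans ?_
    calc X ^ η ≤ X ^ (1 : ℝ) := Real.rpow_le_rpow_of_exponent_le hX1 hη1.le
      _ = X := Real.rpow_one X
  set U := Real.log (X / z) with hU
  have hU0 : 0 ≤ U := Real.log_nonneg (by rw [le_div_iff₀ hz0]; linarith)
  have hUX : U ≤ Real.log X := by
    rw [hU, Real.log_div hXpos.ne' hz0.ne']
    have : 0 ≤ Real.log z := Real.log_nonneg (by linarith)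
    linarith
  have hlogz : η / 2 * Real.log X ≤ Real.log z := by
    rw [← Real.log_rpow hXpos]
    exact Real.log_le_log (by positivity) hz1
  have hXK : X ≤ (X ^ (η / 2)) ^ K := by
    rw [← Real.rpow_natCast, ← Real.rpow_mul hXpos.le]
    calc X = X ^ (1 : ℝ) := (Real.rpow_one X).symm
      _ ≤ X ^ (η / 2 * (K : ℝ)) := by
        apply Real.rpow_le_rpow_of_exponent_le hX1
        have h1 : 2 / η ≤ K := Nat.le_ceil _
        rw [div_le_iff₀ hη] at h1
        linarith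
  -- one block
  have hblock : ∀ b ∈ range (nblk z θ X), ∀ c ∈ cls, ((blk z θ b c).card : ℝ) *
      ∑ n ∈ (Icc 1 ⌊X / Nb z θ b⌋₊).filter F0,
        Real.sqrt (∑ d ∈ n.divisors.erase 1, Shat (blk z θ b c) d ^ 2)
      ≤ (4 * θ * C * Real.sqrt δ * X / (η * Real.log X)) * (1 / Real.sqrt (1 + (U - b * l))) := by
    intro b hb c hc
    rw [nblk, mem_range] at hb
    set N := Nb z θ b with hN
    have hpow1 : 1 ≤ (1 + θ) ^ b := one_le_pow₀ (by linarith)
    have hNz : (z : ℝ) ≤ N := by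
      rw [hN, Nb]
      nlinarith
    have hN0 : 0 < N := by linarith
    have hNN1 : N1 ≤ N := by
      have h1 : N1 ≤ X ^ (η / 2) := ((le_max_left _ _).trans (le_max_left _ _)).trans hz
      linarith
    have hNN2 : N2 ≤ N := by
      have h1 : N2 ≤ X ^ (η / 2) := ((le_max_right _ _).trans (le_max_left _ _)).trans hz
      linarith
    have hN2' : 2 ≤ N := by linarith
    have hlogN : Real.log N = Real.log z + b * l := by
      rw [hN, Nb, Real.log_mul hz0.ne' (by positivity), Real.log_pow]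
    have hbU : (b : ℝ) * l ≤ U := by
      have h1 : b ≤ ⌊U / l⌋₊ := by
        have : b < ⌊U / l⌋₊ + 1 := hb
        omega
      have h2 : (b : ℝ) ≤ U / l := by
        have h3 : (b : ℝ) ≤ (⌊U / l⌋₊ : ℝ) := by exact_mod_cast h1
        exact h3.trans (Nat.floor_le (by positivity))
      rwa [le_div_iff₀ hl0] at h2
    have hlogY : Real.log (X / N) = U - b * l := by
      rw [Real.log_div hXpos.ne' hN0.ne', hlogN, hU, Real.log_div hXpos.ne' hz0.ne']
      ring
    have hY1 : 1 ≤ X / N := by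
      have h1 : 0 ≤ Real.log (X / N) := by rw [hlogY]; linarith
      by_contra hcon
      push Not at hcon
      have := Real.log_neg (by positivity) hcon
      linarith
    have hYK : X / N ≤ N ^ K := by
      calc X / N ≤ X := by
            rw [div_le_iff₀ hN0]
            nlinarith
        _ ≤ (X ^ (η / 2)) ^ K := hXK
        _ ≤ N ^ K := by
            gcongr
            linarith
    have hWb : ∑ d ∈ (Ioc 1 ⌊X / N⌋₊).filter F0,
        Shat (blk z θ b c) d ^ 2 * (Real.sqrt (1 + Real.log d) / d) ≤ δ := by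
      refine le_trans ?_ (hW N hNN1 c hc)
      refine sum_le_sum_of_subset_of_nonneg ?_ (fun d _ _ => by positivity)
      intro d hd
      rw [mem_filter, mem_Ioc] at hd ⊢
      exact ⟨⟨hd.1.1, hd.1.2.trans (Nat.floor_mono hYK)⟩, hd.2⟩
    have hin := inner hE hY1 (fun d => Shat (blk z θ b c) d) hδ0.le hWb
    have hcardb : ((blk z θ b c).card : ℝ) ≤ 2 * θ * (N / Real.log N) := by
      have h1 := (abs_le.mp (hcard N hNN2 c hc)).2
      have hLN : 0 < Real.log N := Real.log_pos (by linarith)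
      have e1 : θ * N / (8 * Real.log N) = θ / 8 * (N / Real.log N) := by
        rw [mul_div_mul_comm]
      have e2 : θ * N / Real.log N = θ * (N / Real.log N) := by ring
      rw [e1, e2] at h1
      have h2 : 0 ≤ N / Real.log N := by positivity
      have h3 : blk z θ b c = pr N θ c := rfl
      rw [h3]
      nlinarith
    have hLN : η / 2 * Real.log X ≤ Real.log N := by
      rw [hlogN]
      have : 0 ≤ (b : ℝ) * l := by positivity
      linarith
    have hLN0 : 0 < η / 2 * Real.log X := by positivity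
    set s := Real.sqrt (1 + (U - b * l)) with hs
    have hs0 : 0 < s := Real.sqrt_pos.mpr (by linarith)
    calc ((blk z θ b c).card : ℝ) * ∑ n ∈ (Icc 1 ⌊X / N⌋₊).filter F0,
          Real.sqrt (∑ d ∈ n.divisors.erase 1, Shat (blk z θ b c) d ^ 2)
        ≤ (2 * θ * (N / Real.log N)) *
          (C * ((X / N) / Real.sqrt (1 + Real.log (X / N))) * Real.sqrt δ) := by
          refine mul_le_mul hcardb hin ?_ ?_
          · exact sum_nonneg fun _ _ => Real.sqrt_nonneg _
          · have : 0 < Real.log N := lt_of_lt_of_le hLN0 hLN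
            positivity
      _ = (2 * θ * C * Real.sqrt δ * X / Real.log N) * (1 / s) := by
          rw [hlogY, ← hs]
          have : Real.log N ≠ 0 := (lt_of_lt_of_le hLN0 hLN).ne'
          field_simp
      _ ≤ (2 * θ * C * Real.sqrt δ * X / (η / 2 * Real.log X)) * (1 / s) := by gcongr
      _ = (4 * θ * C * Real.sqrt δ * X / (η * Real.log X)) * (1 / s) := by
          congr 1
          field_simp
          ring
  -- sum up
  have hErr : Err z θ X ≤ ∑ b ∈ range (nblk z θ X), ∑ c ∈ cls,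
      (4 * θ * C * Real.sqrt δ * X / (η * Real.log X)) * (1 / Real.sqrt (1 + (U - b * l))) :=
    sum_le_sum fun b hb => sum_le_sum fun c hc => hblock b hb c hc
  refine hErr.trans ?_
  have hcls : cls.card = 4 := rfl
  have e1 : ∑ b ∈ range (nblk z θ X), ∑ c ∈ cls,
      (4 * θ * C * Real.sqrt δ * X / (η * Real.log X)) * (1 / Real.sqrt (1 + (U - b * l)))
      = (16 * θ * C * Real.sqrt δ * X / (η * Real.log X)) *
        ∑ b ∈ range (nblk z θ X), 1 / Real.sqrt (1 + (U - b * l)) := by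
    rw [mul_sum]
    refine sum_congr rfl fun b _ => ?_
    rw [sum_const, hcls, nsmul_eq_mul]
    push_cast
    ring
  rw [e1]
  have hsb := sum_blocks hl0 hl1 hU0
  have hnb : nblk z θ X = ⌊U / l⌋₊ + 1 := rfl
  rw [hnb]
  have hL0 : 0 < Real.log X := by linarith
  set r := Real.sqrt (Real.log X) with hr
  have hr0 : 0 < r := Real.sqrt_pos.mpr hL0
  have hrr : r * r = Real.log X := Real.mul_self_sqrt hL0.le
  have hUr : Real.sqrt (1 + U) ≤ 2 * r := by
    rw [Real.sqrt_le_left (by positivity)]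
    nlinarith
  rw [hsδ, SX]
  calc (16 * θ * C * (ε / (Q + 1)) * X / (η * Real.log X)) *
        ∑ b ∈ range (⌊U / l⌋₊ + 1), 1 / Real.sqrt (1 + (U - b * l))
      ≤ (16 * θ * C * (ε / (Q + 1)) * X / (η * Real.log X)) * (3 / l * (2 * r)) := by
        gcongr
        exact hsb.trans (by gcongr)
    _ = (Q / (Q + 1)) * (ε * (X / r)) := by
        have hQ' : 96 * θ * C = Q * (η * l) := by
          rw [hQ]; field_simp
        have e2 : (16 * θ * C * (ε / (Q + 1)) * X / (η * Real.log X)) * (3 / l * (2 * r))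
            = (96 * θ * C) * (ε / (Q + 1)) * X * r / (η * l * Real.log X) := by
          field_simp
          ring
        rw [e2, hQ', ← hrr]
        field_simp
    _ ≤ 1 * (ε * (X / r)) := by
        gcongr
        rw [div_le_one (by linarith)]
        linarith
    _ = ε * (X / r) := one_mul _

end Pool.Agent.C1D
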