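import Mathlib

set_option autoImplicit false

/-!
# C1D: the density of the second Tunnell digit in the thin family (MP_f126a2_nt)

Basic definitions shared by all modules.  Nothing here is specific to the proof of one module.
-/

namespace Pool.Agent.C1D

open Finset

/-! ### The thin family -/

/-- The primes `1, 7` modulo `8`. -/
def P8 (p : ℕ) : Prop := p.Prime ∧ (p % 8 = 1 ∨ p % 8 = 7)

/-- Squarefree with all prime factors in `P8`; the number `1` is allowed. -/
def F0 (m : ℕ) : Prop := Squarefree m ∧ ∀ p, p.Prime → p ∣ m → (p % 8 = 1 ∨ p % 8 = 7)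

/-- The thin family: `m > 1`, `m = 1` modulo `8`, squarefree, all primes `1, 7` modulo `8`. -/
def FF (m : ℕ) : Prop := 1 < m ∧ m % 8 = 1 ∧ F0 m

open Classical in
/-- number of elements of `F0` up to `X` -/
noncomputable def N0 (X : ℝ) : ℝ := (((Finset.Icc 1 ⌊X⌋₊).filter F0).card : ℝ)

open Classical in
/-- number of elements of `FF` up to `X` -/
noncomputable def NF (X : ℝ) : ℝ := (((Finset.Icc 1 ⌊X⌋₊).filter FF).card : ℝ)

/-- the limit density `∏_{i ≥ 1} (1 - 2^{-i})` -/
noncomputable def gam : ℝ := ∏' i : ℕ, (1 - (1 / 2 : ℝ) ^ (i + 1))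

/-- the finite products `∏_{1 ≤ i ≤ j} (1 - 2^{-i})` -/
noncomputable def gamF (j : ℕ) : ℝ := ∏ i ∈ Finset.range j, (1 - (1 / 2 : ℝ) ^ (i + 1))

/-! ### Symbols -/

section Symbols

variable {κ : Type*} [Fintype κ]

/-- The linear condition: the kernel of `[R | lam]` is `{0, (1, ..., 1, 0)}`; `R` is the matrix with
off diagonal entries `sym a b` and zero row sums (the diagonal of `sym` is irrelevant). -/
def GoodS (sym : κ → κ → ZMod 2) (lam : κ → ZMod 2) : Prop :=
  ∀ (x : κ → ZMod 2) (c : ZMod 2), (∀ a, ∑ b, sym a b * (x b + x a) + c * lam a = 0) →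
    c = 0 ∧ ∀ a b, x a = x b

/-- additive symbols of a family of numbers: `1` when `v b` is a nonresidue modulo `v a` -/
def symN {κ : Type*} (v : κ → ℕ) (a b : κ) : ZMod 2 :=
  if jacobiSym (v b : ℤ) (v a) = -1 then 1 else 0

/-- `1` for the classes `7, 9` modulo `16` -/
def lamN {κ : Type*} (v : κ → ℕ) (a : κ) : ZMod 2 := if v a % 16 = 7 ∨ v a % 16 = 9 then 1 else 0

/-- `1` for the class `7` modulo `8` -/
def epsN {κ : Type*} (v : κ → ℕ) (a : κ) : ZMod 2 := if v a % 8 = 7 then 1 else 0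

end Symbols

/-- The event studied: `GoodS` for the prime factors of `m`. -/
def GoodN (m : ℕ) : Prop :=
  GoodS (symN (fun p : m.primeFactors => (p : ℕ))) (lamN (fun p : m.primeFactors => (p : ℕ)))

/-! ### The random model -/

section Model

variable {ι : Type*} [Fintype ι] {T : ℕ}

/-- The symbol matrix on `ι ⊕ Fin T` extending `sym0` on `ι` with the free bits `s` (between
`Fin T` and `ι`) and `w` (inside `Fin T`, only the entries `w j l` with `j < l` are used); the
opposite entries are given by reciprocity. -/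
def symM (sym0 : ι → ι → ZMod 2) (e : ι → ZMod 2) (eps : Fin T → ZMod 2)
    (s : Fin T → ι → ZMod 2) (w : Fin T → Fin T → ZMod 2) : ι ⊕ Fin T → ι ⊕ Fin T → ZMod 2
  | Sum.inl a, Sum.inl b => sym0 a b
  | Sum.inr j, Sum.inl a => s j a
  | Sum.inl a, Sum.inr j => s j a + eps j * e a
  | Sum.inr j, Sum.inr l => if j < l then w j l else if l < j then w l j + eps l * eps j else 0

open Classical in
/-- Fraction of the free bits `(s, w)` for which the symbol matrix is good (classes fixed). -/
noncomputable def modelAvg (sym0 : ι → ι → ZMod 2) (e l : ι → ZMod 2) (eps lam : Fin T → ZMod 2) :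
    ℝ :=
  ((Finset.univ.filter fun q : (Fin T → ι → ZMod 2) × (Fin T → Fin T → ZMod 2) =>
      GoodS (symM sym0 e eps q.1 q.2) (Sum.elim l lam)).card : ℝ) /
    Fintype.card ((Fin T → ι → ZMod 2) × (Fin T → Fin T → ZMod 2))

/-- `x` is in the kernel of `M0 + diag u`, `M0` the matrix of `sym0` with zero row sums -/
def InK (sym0 : ι → ι → ZMod 2) (u x : ι → ZMod 2) : Prop :=
  ∀ a, ∑ b, sym0 a b * (x b + x a) + u a * x a = 0

/-- `x` is in the kernel of the transpose of `M0 + diag u` (here `sym0 a a` must be `0`) -/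
def InL (sym0 : ι → ι → ZMod 2) (u x : ι → ZMod 2) : Prop :=
  ∀ b, ∑ a, sym0 a b * x a + (∑ c, sym0 b c) * x b + u b * x b = 0

open Classical in
/-- average over `u` of the size of the kernel -/
noncomputable def A1 (sym0 : ι → ι → ZMod 2) : ℝ :=
  (∑ u : ι → ZMod 2, ((Finset.univ.filter fun x : ι → ZMod 2 => InK sym0 u x).card : ℝ)) /
    2 ^ Fintype.card ι

open Classical in
/-- average over `u` of the number of nonzero vectors in both kernels -/
noncomputable def A2 (sym0 : ι → ι → ZMod 2) : ℝ :=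
  (∑ u : ι → ZMod 2, ((Finset.univ.filter fun x : ι → ZMod 2 =>
      x ≠ 0 ∧ InK sym0 u x ∧ InL sym0 u x).card : ℝ)) / 2 ^ Fintype.card ι

end Model

/-- `A1` of the symbols of the prime factors of `m` -/
noncomputable def A1N (m : ℕ) : ℝ := A1 (symN (fun p : m.primeFactors => (p : ℕ)))

/-- `A2` of the symbols of the prime factors of `m` -/
noncomputable def A2N (m : ℕ) : ℝ := A2 (symN (fun p : m.primeFactors => (p : ℕ)))

/-- number of prime factors `7` modulo `8` -/
def w7 (m : ℕ) : ℕ := (m.primeFactors.filter fun p => p % 8 = 7).card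

/-! ### Primes, smooth numbers -/

/-- primes of `P8` up to `z` -/
def P8le (z : ℕ) : Finset ℕ := (Finset.range (z + 1)).filter fun p => p.Prime ∧ (p % 8 = 1 ∨ p % 8 = 7)

/-- the `z`-smooth elements of `F0` (a finite set) -/
def Sm (z : ℕ) : Finset ℕ := (∏ p ∈ P8le z, p).divisors

/-- product of the prime factors `≤ z` (for squarefree `m` the `z`-smooth part) -/
def smp (z m : ℕ) : ℕ := ∏ p ∈ m.primeFactors.filter (· ≤ z), p

/-- number of prime factors `> z` -/
def wz (z m : ℕ) : ℕ := (m.primeFactors.filter (z < ·)).card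

/-- `avg` of the symbols `(d / p)` over a finite set of primes -/
noncomputable def Shat (A : Finset ℕ) (d : ℕ) : ℝ :=
  (∑ p ∈ A, ((jacobiSym (d : ℤ) p : ℤ) : ℝ)) / A.card

/-! ### Blocks -/

/-- the primes of the class `c` modulo `16` in `(N, (1+θ) N]` -/
noncomputable def pr (N θ : ℝ) (c : ℕ) : Finset ℕ :=
  (Finset.Ioc ⌊N⌋₊ ⌊(1 + θ) * N⌋₊).filter fun p => p.Prime ∧ p % 16 = c

/-- lower end of block `b` -/
noncomputable def Nb (z : ℕ) (θ : ℝ) (b : ℕ) : ℝ := z * (1 + θ) ^ b

/-- block `b`: the primes of the class `c` modulo `16` in `(z (1+θ)^b, z (1+θ)^(b+1)]` -/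
noncomputable def blk (z : ℕ) (θ : ℝ) (b c : ℕ) : Finset ℕ := pr (Nb z θ b) θ c

/-- the four classes -/
def cls : Finset ℕ := {1, 7, 9, 15}

/-- number of blocks that can meet `[1, X]` -/
noncomputable def nblk (z : ℕ) (θ X : ℝ) : ℕ := ⌊Real.log (X / z) / Real.log (1 + θ)⌋₊ + 1

open Classical in
/-- The total equidistribution error. -/
noncomputable def Err (z : ℕ) (θ X : ℝ) : ℝ :=
  ∑ b ∈ Finset.range (nblk z θ X), ∑ c ∈ cls, ((blk z θ b c).card : ℝ) *
    ∑ n ∈ (Finset.Icc 1 ⌊X / Nb z θ b⌋₊).filter F0,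
      Real.sqrt (∑ d ∈ n.divisors.erase 1, Shat (blk z θ b c) d ^ 2)

/-- the choice of `z` -/
noncomputable def zz (η X : ℝ) : ℕ := ⌊X ^ η⌋₊

/-- the main size `X / sqrt (log X)` -/
noncomputable def SX (X : ℝ) : ℝ := X / Real.sqrt (Real.log X)

/-! ### The model, averaged over the classes with the parity condition -/

open Classical in
/-- pairs `(eps, lam)` of class data with `∑ e + ∑ eps = 0` -/
noncomputable def parSet {ι : Type*} [Fintype ι] (e : ι → ZMod 2) (T : ℕ) :
    Finset ((Fin T → ZMod 2) × (Fin T → ZMod 2)) :=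
  Finset.univ.filter fun q => ∑ a, e a + ∑ j, q.1 j = 0

/-- average of `modelAvg` over the class data with the parity condition -/
noncomputable def parAvg {ι : Type*} [Fintype ι] (sym0 : ι → ι → ZMod 2) (e l : ι → ZMod 2)
    (T : ℕ) : ℝ :=
  (∑ q ∈ parSet e T, modelAvg sym0 e l q.1 q.2) / (parSet e T).card

/-! ### The matrix `Z` (fixed `u`) -/

/-- `Z` is invertible (trivial kernel); rows and columns are indexed by one point, `Fin n` and `ι`.
The diagonal `w j j` and the entries `w j l`, `j < l`, are used. -/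
def ZGood {ι : Type*} [Fintype ι] {n : ℕ} (M : ι → ι → ZMod 2) (e l : ι → ZMod 2)
    (s : Fin n → ι → ZMod 2) (w : Fin n → Fin n → ZMod 2) (eps lam : Fin n → ZMod 2)
    (Lam : ZMod 2) : Prop :=
  ∀ (c : ZMod 2) (y : Fin n → ZMod 2) (x : ι → ZMod 2),
    Lam * c + ∑ j, eps j * y j + ∑ a, e a * x a = 0 →
    (∀ j, lam j * c + ∑ k, (if j ≤ k then w j k else w k j + eps j * eps k) * y k
      + ∑ a, s j a * x a = 0) →
    (∀ a, l a * c + ∑ j, (s j a + eps j * e a) * y j + ∑ b, M a b * x b = 0) →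
    c = 0 ∧ y = 0 ∧ x = 0

/-- bits of `Z` -/
abbrev ZBits (ι : Type*) (n : ℕ) : Type _ :=
  (Fin n → ι → ZMod 2) × (Fin n → Fin n → ZMod 2) × (Fin n → ZMod 2) × (Fin n → ZMod 2) × ZMod 2

open Classical in
/-- fraction of the bits for which `Z` is invertible -/
noncomputable def zAvg {ι : Type*} [Fintype ι] (n : ℕ) (M : ι → ι → ZMod 2) (e l : ι → ZMod 2) :
    ℝ :=
  ((Finset.univ.filter fun q : ZBits ι n =>
      ZGood M e l q.1 q.2.1 q.2.2.1 q.2.2.2.1 q.2.2.2.2).card : ℝ) / Fintype.card (ZBits ι n)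

end Pool.Agent.C1D
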