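import Pool.Agent.C1D.Stmts

set_option autoImplicit false

/-!
# C1D, module E1: upper bound of Hall-Tenenbaum type

`S log X = ∑ f(m) log m + ∑ f(m) log (X/m)`, `log m = ∑_{p | m} log p`, Chebyshev.
-/

namespace Pool.Agent.C1D

open Finset

namespace E1

/-- transport of a sum of nonnegative terms along an injection -/
lemma sum_le_of_inj {α β : Type*} [DecidableEq β] (s : Finset α) (t : Finset β) (i : α → β)
    (f : α → ℝ) (g : β → ℝ) (hi : ∀ a ∈ s, i a ∈ t)
    (hinj : ∀ a ∈ s, ∀ b ∈ s, i a = i b → a = b)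
    (hle : ∀ a ∈ s, f a ≤ g (i a)) (hg : ∀ b ∈ t, 0 ≤ g b) :
    ∑ a ∈ s, f a ≤ ∑ b ∈ t, g b := by
  calc ∑ a ∈ s, f a ≤ ∑ a ∈ s, g (i a) := Finset.sum_le_sum hle
    _ = ∑ b ∈ s.image i, g b := by
        rw [Finset.sum_image]
        intro a ha b hb h
        exact hinj a ha b hb h
    _ ≤ ∑ b ∈ t, g b := by
        apply Finset.sum_le_sum_of_subset_of_nonneg
        · intro b hb
          rw [Finset.mem_image] at hb
          obtain ⟨a, ha, rfl⟩ := hb
          exact hi a ha
        · intro b hb _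
          exact hg b hb

/-- `∏_{p | m} g p` -/
noncomputable def ff (g : ℕ → ℝ) (m : ℕ) : ℝ := ∏ p ∈ m.primeFactors, g p

lemma ff_nonneg {g : ℕ → ℝ} (hg : ∀ p : ℕ, p.Prime → 0 ≤ g p) (m : ℕ) : 0 ≤ ff g m :=
  Finset.prod_nonneg fun p hp => hg p (Nat.prime_of_mem_primeFactors hp)

/-- removing a prime factor of a squarefree number -/
lemma ff_div {g : ℕ → ℝ} {m p : ℕ} (hm : Squarefree m) (hp : p ∈ m.primeFactors) :
    ff g m = g p * ff g (m / p) := by
  have hpp := Nat.prime_of_mem_primeFactors hp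
  have hdvd := Nat.dvd_of_mem_primeFactors hp
  obtain ⟨n, rfl⟩ := hdvd
  have hcop : Nat.Coprime p n := by
    rw [Nat.squarefree_mul_iff] at hm
    exact hm.1
  rw [Nat.mul_div_cancel_left n hpp.pos]
  unfold ff
  rw [hcop.primeFactors_mul, hpp.primeFactors, Finset.prod_union, Finset.prod_singleton]
  rw [Finset.disjoint_singleton_left]
  intro h
  have := Nat.dvd_of_mem_primeFactors h
  exact (Nat.Prime.coprime_iff_not_dvd hpp).1 hcop this

lemma log_eq_sum {m : ℕ} (hm : Squarefree m) :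
    Real.log m = ∑ p ∈ m.primeFactors, Real.log p := by
  conv_lhs => rw [← Nat.prod_primeFactors_of_squarefree hm]
  push_cast
  rw [Real.log_prod]
  intro p hp
  have := (Nat.prime_of_mem_primeFactors hp).pos
  positivity

/-- the first sum -/
lemma sum_log {g : ℕ → ℝ} {A : ℝ} (hA : 0 ≤ A) (hg : ∀ p : ℕ, p.Prime → 0 ≤ g p ∧ g p ≤ A)
    {X : ℝ} (hX : 2 ≤ X) :
    ∑ m ∈ (Finset.Icc 1 ⌊X⌋₊).filter Squarefree, ff g m * Real.log m ≤
      A * Real.log 4 * X * ∑ m ∈ (Finset.Icc 1 ⌊X⌋₊).filter Squarefree, ff g m / m := by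
  have hg0 : ∀ p : ℕ, p.Prime → 0 ≤ g p := fun p hp => (hg p hp).1
  have h1 : ∑ m ∈ (Finset.Icc 1 ⌊X⌋₊).filter Squarefree, ff g m * Real.log m =
      ∑ q ∈ ((Finset.Icc 1 ⌊X⌋₊).filter Squarefree).sigma (fun m => m.primeFactors),
        ff g q.1 * Real.log q.2 := by
    rw [Finset.sum_sigma]
    apply Finset.sum_congr rfl
    intro m hm
    rw [Finset.mem_filter] at hm
    rw [log_eq_sum hm.2, Finset.mul_sum]
  have h2 : ∑ n ∈ (Finset.Icc 1 ⌊X⌋₊).filter Squarefree, ∑ p ∈ (Finset.Ioc 0 ⌊X / n⌋₊).filter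
      Nat.Prime, ff g n * (A * Real.log p) =
      ∑ q ∈ ((Finset.Icc 1 ⌊X⌋₊).filter Squarefree).sigma
        (fun n => (Finset.Ioc 0 ⌊X / n⌋₊).filter Nat.Prime), ff g q.1 * (A * Real.log q.2) := by
    rw [Finset.sum_sigma]
  have h3 : ∑ m ∈ (Finset.Icc 1 ⌊X⌋₊).filter Squarefree, ff g m * Real.log m ≤
      ∑ n ∈ (Finset.Icc 1 ⌊X⌋₊).filter Squarefree, ∑ p ∈ (Finset.Ioc 0 ⌊X / n⌋₊).filter
      Nat.Prime, ff g n * (A * Real.log p) := by
    rw [h1, h2]
    apply sum_le_of_inj _ _ (fun q : (_ : ℕ) × ℕ => (⟨q.1 / q.2, q.2⟩ : (_ : ℕ) × ℕ))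
    · rintro ⟨m, p⟩ hq
      simp only [Finset.mem_sigma, Finset.mem_filter, Finset.mem_Icc, Finset.mem_Ioc] at hq ⊢
      obtain ⟨⟨⟨hm1, hmX⟩, hsq⟩, hp⟩ := hq
      have hpp := Nat.prime_of_mem_primeFactors hp
      have hdvd := Nat.dvd_of_mem_primeFactors hp
      obtain ⟨n, rfl⟩ := hdvd
      rw [Nat.mul_div_cancel_left n hpp.pos]
      have hn : 1 ≤ n := by
        rcases Nat.eq_zero_or_pos n with h | h
        · subst h; simp at hm1
        · exact h
      have hnle : n ≤ p * n := Nat.le_mul_of_pos_left n hpp.pos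
      refine ⟨⟨⟨hn, hnle.trans hmX⟩, hsq.squarefree_of_dvd ⟨p, by ring⟩⟩, ⟨hpp.pos, ?_⟩, hpp⟩
      apply Nat.le_floor
      rw [le_div_iff₀ (by exact_mod_cast hn)]
      have := (Nat.le_floor_iff (by linarith : (0:ℝ) ≤ X)).1 hmX
      push_cast at this
      exact this
    · rintro ⟨m, p⟩ hq ⟨m', p'⟩ hq' h
      simp only [Finset.mem_sigma, Finset.mem_filter, Finset.mem_Icc] at hq hq'
      simp only [Sigma.mk.injEq, heq_eq_eq] at h
      obtain ⟨h1, rfl⟩ := h
      have e1 := Nat.div_mul_cancel (Nat.dvd_of_mem_primeFactors hq.2)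
      have e2 := Nat.div_mul_cancel (Nat.dvd_of_mem_primeFactors hq'.2)
      have : m = m' := by rw [← e1, ← e2, h1]
      subst this
      rfl
    · rintro ⟨m, p⟩ hq
      simp only [Finset.mem_sigma, Finset.mem_filter, Finset.mem_Icc] at hq
      have hpp := Nat.prime_of_mem_primeFactors hq.2
      simp only
      rw [ff_div hq.1.2 hq.2]
      have hl : 0 ≤ Real.log p := Real.log_natCast_nonneg p
      have hf := ff_nonneg hg0 (m / p)
      nlinarith [mul_nonneg hf hl, mul_le_mul_of_nonneg_right (hg p hpp).2 (mul_nonneg hf hl)]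
    · rintro ⟨n, p⟩ _
      simp only
      have hl : 0 ≤ Real.log p := Real.log_natCast_nonneg p
      have hf := ff_nonneg hg0 n
      positivity
  refine h3.trans ?_
  rw [Finset.mul_sum]
  apply Finset.sum_le_sum
  intro n hn
  rw [Finset.mem_filter, Finset.mem_Icc] at hn
  have hn0 : (0:ℝ) < n := by exact_mod_cast hn.1.1
  have hf := ff_nonneg hg0 n
  rw [← Finset.mul_sum, ← Finset.mul_sum]
  have hch := Chebyshev.theta_le_log4_mul_x (x := X / n) (by positivity)
  unfold Chebyshev.theta at hch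
  calc ff g n * (A * ∑ p ∈ (Finset.Ioc 0 ⌊X / n⌋₊).filter Nat.Prime, Real.log p)
      ≤ ff g n * (A * (Real.log 4 * (X / n))) := by gcongr
    _ = A * Real.log 4 * X * (ff g n / n) := by ring

/-- Euler product bound -/
lemma sum_div_le {g : ℕ → ℝ} (hg : ∀ p : ℕ, p.Prime → 0 ≤ g p) (N : ℕ) :
    ∑ m ∈ (Finset.Icc 1 N).filter Squarefree, ff g m / m ≤
      Real.exp (∑ p ∈ (Finset.Icc 1 N).filter Nat.Prime, g p / p) := by
  have h1 : ∑ m ∈ (Finset.Icc 1 N).filter Squarefree, ff g m / m ≤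
      ∑ s ∈ ((Finset.Icc 1 N).filter Nat.Prime).powerset, ∏ p ∈ s, g p / p := by
    apply sum_le_of_inj _ _ (fun m : ℕ => m.primeFactors)
    · intro m hm
      rw [Finset.mem_filter, Finset.mem_Icc] at hm
      rw [Finset.mem_powerset]
      intro p hp
      rw [Finset.mem_filter, Finset.mem_Icc]
      have hpp := Nat.prime_of_mem_primeFactors hp
      exact ⟨⟨hpp.pos, (Nat.le_of_mem_primeFactors hp).trans hm.1.2⟩, hpp⟩
    · intro a ha b hb h
      rw [Finset.mem_filter] at ha hb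
      rw [← Nat.prod_primeFactors_of_squarefree ha.2, ← Nat.prod_primeFactors_of_squarefree hb.2,
        h]
    · intro m hm
      rw [Finset.mem_filter] at hm
      unfold ff
      rw [Finset.prod_div_distrib]
      conv_lhs => rw [← Nat.prod_primeFactors_of_squarefree hm.2]
      rw [Nat.prod_primeFactors_of_squarefree hm.2]
      have : ((m : ℕ) : ℝ) = ∏ p ∈ m.primeFactors, (p : ℝ) := by
        conv_lhs => rw [← Nat.prod_primeFactors_of_squarefree hm.2]
        push_cast
        rfl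
      rw [this]
    · intro s hs
      rw [Finset.mem_powerset] at hs
      apply Finset.prod_nonneg
      intro p hp
      have := hs hp
      rw [Finset.mem_filter] at this
      exact div_nonneg (hg p this.2) (by positivity)
  refine h1.trans ?_
  rw [← Finset.prod_one_add, Real.exp_sum]
  apply Finset.prod_le_prod
  · intro p hp
    rw [Finset.mem_filter] at hp
    have : 0 ≤ g p / p := div_nonneg (hg p hp.2) (by positivity)
    linarith
  · intro p _
    rw [add_comm]
    exact Real.add_one_le_exp _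

end E1

theorem E1_proof : E1Stmt := by
  intro A hA
  refine ⟨A * Real.log 4 + 1, ?_, ?_⟩
  · have : 0 ≤ Real.log 4 := Real.log_nonneg (by norm_num)
    positivity
  intro g hg X hX
  have hg0 : ∀ p : ℕ, p.Prime → 0 ≤ g p := fun p hp => (hg p hp).1
  have hlX : 0 < Real.log X := Real.log_pos (by linarith)
  have hl4 : 0 ≤ Real.log 4 := Real.log_nonneg (by norm_num)
  set S := ∑ m ∈ (Finset.Icc 1 ⌊X⌋₊).filter Squarefree, E1.ff g m with hS
  set D := ∑ m ∈ (Finset.Icc 1 ⌊X⌋₊).filter Squarefree, E1.ff g m / m with hD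
  have hD' : D ≤ Real.exp (∑ p ∈ (Finset.Icc 1 ⌊X⌋₊).filter Nat.Prime, g p / p) :=
    E1.sum_div_le hg0 _
  have h1 := E1.sum_log hA hg hX
  have h2 : S * Real.log X ≤ ∑ m ∈ (Finset.Icc 1 ⌊X⌋₊).filter Squarefree,
      E1.ff g m * Real.log m + X * D := by
    rw [hS, hD, Finset.sum_mul, Finset.mul_sum, ← Finset.sum_add_distrib]
    apply Finset.sum_le_sum
    intro m hm
    rw [Finset.mem_filter, Finset.mem_Icc] at hm
    have hm0 : (0:ℝ) < m := by exact_mod_cast hm.1.1
    have hf := E1.ff_nonneg hg0 m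
    have hl : Real.log X - Real.log m ≤ X / m := by
      rw [← Real.log_div (by linarith) hm0.ne']
      have := Real.log_le_sub_one_of_pos (div_pos (by linarith : (0:ℝ) < X) hm0)
      linarith
    calc E1.ff g m * Real.log X
        = E1.ff g m * Real.log m + E1.ff g m * (Real.log X - Real.log m) := by ring
      _ ≤ E1.ff g m * Real.log m + E1.ff g m * (X / m) := by gcongr
      _ = E1.ff g m * Real.log m + X * (E1.ff g m / m) := by ring
  have h3 : S * Real.log X ≤ (A * Real.log 4 + 1) * X * D := by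
    have := h2.trans (add_le_add_left h1 _)
    linarith
  have h4 : S ≤ (A * Real.log 4 + 1) * X * D / Real.log X := by
    rw [le_div_iff₀ hlX]
    exact h3
  calc ∑ m ∈ (Finset.Icc 1 ⌊X⌋₊).filter Squarefree, ∏ p ∈ m.primeFactors, g p = S := rfl
    _ ≤ (A * Real.log 4 + 1) * X * D / Real.log X := h4
    _ = (A * Real.log 4 + 1) * (X / Real.log X) * D := by ring
    _ ≤ (A * Real.log 4 + 1) * (X / Real.log X) *
        Real.exp (∑ p ∈ (Finset.Icc 1 ⌊X⌋₊).filter Nat.Prime, g p / p) := by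
      have : 0 ≤ (A * Real.log 4 + 1) * (X / Real.log X) := by positivity
      gcongr

end Pool.Agent.C1D
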