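import Pool.Agent.C1D.Stmts

set_option autoImplicit false

/-!
# C1D, module E2: sizes of the families

Upper bound from E1 and A3; lower bound by the numbers `n p`, `n ∈ F0`, `n ≤ X ^ (1/4)`, `p` a prime
in `(X / (2 n), X / n]` in the right class modulo 8 (A1), and
`∑ n ∈ F0, n ≤ y, 1 / n ≥ c * sqrt (log y)` from A3 and the harmonic sum.
-/

namespace Pool.Agent.C1D

open Finset

namespace E2

/-! ### Mertens sums -/

lemma range_filter_eq_Icc (z : ℕ) (P : ℕ → Prop) [DecidablePred P] (hP : ∀ p, P p → p.Prime) :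
    (Finset.range (z + 1)).filter P = (Finset.Icc 1 z).filter P := by
  ext p
  simp only [mem_filter, mem_range, mem_Icc]
  constructor
  · rintro ⟨h1, h2⟩
    exact ⟨⟨(hP p h2).one_lt.le, by omega⟩, h2⟩
  · rintro ⟨h1, h2⟩
    exact ⟨by omega, h2⟩

lemma exp_loglog (z : ℕ) (hz : 2 ≤ z) (C : ℝ) :
    Real.exp (Real.log (Real.log z) / 2 + C) = Real.exp C * Real.sqrt (Real.log z) := by
  have h1 : (1 : ℝ) < z := by exact_mod_cast (by omega : 1 < z)
  have hl : 0 < Real.log z := Real.log_pos h1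
  rw [Real.exp_add, mul_comm]
  congr 1
  rw [Real.sqrt_eq_rpow, Real.rpow_def_of_pos hl]
  congr 1
  ring

/-- the upper bound for `F0` -/
theorem upper (h1 : E1Stmt) (h3 : A3Stmt) :
    ∃ C : ℝ, ∀ X : ℝ, 1 ≤ X → N0 X ≤ C * (X / Real.sqrt (1 + Real.log X)) := by
  classical
  obtain ⟨C1, hC1, hE⟩ := h1 1 zero_le_one
  obtain ⟨C3, hC3⟩ := h3
  refine ⟨2 * C1 * Real.exp (2 * C3) + 2, fun X hX => ?_⟩
  have hXp : 0 < X := by linarith
  rcases lt_or_ge X 2 with hX2 | hX2
  · -- small X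
    have hfl : ⌊X⌋₊ = 1 := by
      rw [Nat.floor_eq_iff (by linarith)]
      constructor
      · push_cast; linarith
      · push_cast; linarith
    have hN : N0 X ≤ 1 := by
      unfold N0
      have : ((Finset.Icc 1 ⌊X⌋₊).filter F0).card ≤ 1 := by
        refine (Finset.card_filter_le _ _).trans ?_
        rw [hfl]; simp
      exact_mod_cast this
    have hlog : Real.log X ≤ 3 := by
      have := Real.log_le_sub_one_of_pos hXp
      linarith
    have hlog0 : 0 ≤ Real.log X := Real.log_nonneg hX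
    have hs : Real.sqrt (1 + Real.log X) ≤ 2 := by
      rw [show (2 : ℝ) = Real.sqrt 4 by
        rw [show (4 : ℝ) = 2 ^ 2 by norm_num, Real.sqrt_sq (by norm_num)]]
      exact Real.sqrt_le_sqrt (by linarith)
    have hs0 : 0 < Real.sqrt (1 + Real.log X) := Real.sqrt_pos.mpr (by linarith)
    have hq : 1 / 2 ≤ X / Real.sqrt (1 + Real.log X) := by
      rw [div_le_div_iff₀ (by norm_num) hs0]
      linarith
    have : 0 ≤ 2 * C1 * Real.exp (2 * C3) * (X / Real.sqrt (1 + Real.log X)) := by positivity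
    nlinarith
  · have hlog : 0 < Real.log X := Real.log_pos (by linarith)
    have hz2 : 2 ≤ ⌊X⌋₊ := Nat.le_floor (by exact_mod_cast hX2)
    set z := ⌊X⌋₊ with hz
    have hzX : (z : ℝ) ≤ X := Nat.floor_le (by linarith)
    have hz1 : (1 : ℝ) < z := by exact_mod_cast (by omega : 1 < z)
    have hlz : 0 < Real.log z := Real.log_pos hz1
    have hlzX : Real.log z ≤ Real.log X := Real.log_le_log (by linarith) hzX
    let g : ℕ → ℝ := fun p => if p % 8 = 1 ∨ p % 8 = 7 then 1 else 0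
    have hg : ∀ p : ℕ, p.Prime → 0 ≤ g p ∧ g p ≤ 1 := by
      intro p _
      simp only [g]
      split_ifs <;> norm_num
    have hE' := hE g hg X hX2
    have hcount : N0 X ≤ ∑ m ∈ (Finset.Icc 1 ⌊X⌋₊).filter Squarefree,
        ∏ p ∈ m.primeFactors, g p := by
      unfold N0
      have e1 : (((Finset.Icc 1 ⌊X⌋₊).filter F0).card : ℝ) =
          ∑ m ∈ (Finset.Icc 1 ⌊X⌋₊).filter F0, ∏ p ∈ m.primeFactors, g p := by
        rw [Finset.card_eq_sum_ones]
        push_cast
        refine Finset.sum_congr rfl fun m hm => ?_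
        rw [mem_filter] at hm
        symm
        refine Finset.prod_eq_one fun p hp => ?_
        rw [Nat.mem_primeFactors] at hp
        simp only [g]
        rw [if_pos (hm.2.2 p hp.1 hp.2.1)]
      rw [e1]
      refine Finset.sum_le_sum_of_subset_of_nonneg ?_ ?_
      · intro m hm
        rw [mem_filter] at hm ⊢
        exact ⟨hm.1, hm.2.1⟩
      · intro m _ _
        refine Finset.prod_nonneg fun p hp => ?_
        exact (hg p (Nat.prime_of_mem_primeFactors hp)).1
    have hsum : ∑ p ∈ (Finset.Icc 1 ⌊X⌋₊).filter Nat.Prime, g p / p ≤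
        Real.log (Real.log z) / 2 + 2 * C3 := by
      have e1 : ∑ p ∈ (Finset.Icc 1 ⌊X⌋₊).filter Nat.Prime, g p / p =
          ∑ p ∈ (Finset.Icc 1 ⌊X⌋₊).filter (fun p => p.Prime ∧ p % 8 = 1), (1 : ℝ) / p +
          ∑ p ∈ (Finset.Icc 1 ⌊X⌋₊).filter (fun p => p.Prime ∧ p % 8 = 7), (1 : ℝ) / p := by
        rw [← Finset.filter_filter, ← Finset.filter_filter, Finset.sum_filter (fun p => p % 8 = 1),
          Finset.sum_filter (fun p => p % 8 = 7), ← Finset.sum_add_distrib]
        refine Finset.sum_congr rfl fun p _ => ?_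
        simp only [g]
        by_cases h1 : p % 8 = 1
        · have h7 : ¬ p % 8 = 7 := by omega
          simp [h1]
        · by_cases h7 : p % 8 = 7
          · simp [h7]
          · simp [h1, h7]
      rw [e1, ← range_filter_eq_Icc z (fun p => p.Prime ∧ p % 8 = 1) (fun p h => h.1),
        ← range_filter_eq_Icc z (fun p => p.Prime ∧ p % 8 = 7) (fun p h => h.1)]
      have a1 := (abs_le.mp (hC3 1 (by simp) z hz2)).2
      have a7 := (abs_le.mp (hC3 7 (by simp) z hz2)).2
      linarith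
    have hexp : Real.exp (∑ p ∈ (Finset.Icc 1 ⌊X⌋₊).filter Nat.Prime, g p / p) ≤
        Real.exp (2 * C3) * Real.sqrt (Real.log X) := by
      refine (Real.exp_le_exp.mpr hsum).trans ?_
      rw [exp_loglog z hz2]
      exact mul_le_mul_of_nonneg_left (Real.sqrt_le_sqrt hlzX) (Real.exp_pos _).le
    have hsl : 0 < Real.sqrt (Real.log X) := Real.sqrt_pos.mpr hlog
    have hs1 : 0 < Real.sqrt (1 + Real.log X) := Real.sqrt_pos.mpr (by linarith)
    have hl2 : (1 : ℝ) / 3 ≤ Real.log X := by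
      have h2 : Real.log 2 ≤ Real.log X := Real.log_le_log (by norm_num) hX2
      have := Real.log_two_gt_d9
      linarith
    have hcmp : Real.sqrt (1 + Real.log X) ≤ 2 * Real.sqrt (Real.log X) := by
      rw [show (2 : ℝ) * Real.sqrt (Real.log X) = Real.sqrt (4 * Real.log X) by
        rw [Real.sqrt_mul (by norm_num), show (4 : ℝ) = 2 ^ 2 by norm_num,
          Real.sqrt_sq (by norm_num)]]
      exact Real.sqrt_le_sqrt (by linarith)
    calc N0 X ≤ C1 * (X / Real.log X) * Real.exp (∑ p ∈ (Finset.Icc 1 ⌊X⌋₊).filter Nat.Prime,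
          g p / p) := hcount.trans hE'
      _ ≤ C1 * (X / Real.log X) * (Real.exp (2 * C3) * Real.sqrt (Real.log X)) := by
          refine mul_le_mul_of_nonneg_left hexp ?_
          positivity
      _ = C1 * Real.exp (2 * C3) * (X / Real.sqrt (Real.log X)) := by
          have hsq : Real.sqrt (Real.log X) * Real.sqrt (Real.log X) = Real.log X :=
            Real.mul_self_sqrt hlog.le
          field_simp
          rw [sq, hsq]
      _ ≤ C1 * Real.exp (2 * C3) * (2 * (X / Real.sqrt (1 + Real.log X))) := by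
          refine mul_le_mul_of_nonneg_left ?_ (by positivity)
          rw [← mul_div_assoc, div_le_div_iff₀ hsl hs1]
          nlinarith
      _ ≤ (2 * C1 * Real.exp (2 * C3) + 2) * (X / Real.sqrt (1 + Real.log X)) := by
          have : 0 ≤ X / Real.sqrt (1 + Real.log X) := by positivity
          nlinarith

/-! ### The reciprocal sum over `F0` -/

/-- primes `2, 3, 5` modulo `8` up to `y` -/
def Q (y : ℕ) : Finset ℕ := (Finset.range (y + 1)).filter fun p => p.Prime ∧ ¬ (p % 8 = 1 ∨ p % 8 = 7)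

lemma sum_sq_le (y : ℕ) : ∑ s ∈ Finset.Icc 1 y, (1 : ℝ) / (s : ℝ) ^ 2 ≤ 2 := by
  have h : ∀ y : ℕ, 1 ≤ y → ∑ s ∈ Finset.Icc 1 y, (1 : ℝ) / (s : ℝ) ^ 2 ≤ 2 - 1 / y := by
    intro y hy
    induction y, hy using Nat.le_induction with
    | base => norm_num
    | succ n hn ih =>
      rw [Finset.sum_Icc_succ_top (by omega)]
      have hn' : (0 : ℝ) < n := by exact_mod_cast hn
      have : (1 : ℝ) / ((n + 1 : ℕ) : ℝ) ^ 2 ≤ 1 / n - 1 / ((n + 1 : ℕ) : ℝ) := by
        push_cast
        rw [div_sub_div _ _ hn'.ne' (by positivity), div_le_div_iff₀ (by positivity) (by positivity)]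
        nlinarith
      linarith
  rcases Nat.eq_zero_or_pos y with rfl | hy
  · simp
  · refine (h y hy).trans ?_
    have : (0 : ℝ) ≤ 1 / y := by positivity
    linarith

lemma decomp (y k : ℕ) (hk : k ∈ Finset.Icc 1 y) :
    ∃ t : ℕ × Finset ℕ × ℕ, (F0 t.1 ∧ 1 ≤ t.1 ∧ t.1 ≤ y) ∧ t.2.1 ⊆ Q y ∧ (1 ≤ t.2.2 ∧ t.2.2 ≤ y) ∧
      t.1 * (∏ p ∈ t.2.1, p) * t.2.2 ^ 2 = k := by
  classical
  rw [mem_Icc] at hk
  obtain ⟨a, s, hsa, ha⟩ := Nat.sq_mul_squarefree k
  have hk0 : k ≠ 0 := by omega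
  have ha0 : a ≠ 0 := by
    rintro rfl
    exact hk0 (by rw [← hsa]; simp)
  have hs0 : s ≠ 0 := by
    rintro rfl
    exact hk0 (by rw [← hsa]; simp)
  have hadvd : a ∣ k := ⟨s ^ 2, by rw [← hsa]; ring⟩
  have hale : a ≤ k := Nat.le_of_dvd (by omega) hadvd
  have hsle : s ≤ k := by
    have : s ∣ k := ⟨s * a, by rw [← hsa]; ring⟩
    exact Nat.le_of_dvd (by omega) this
  have hprod : (∏ p ∈ a.primeFactors.filter (fun p => p % 8 = 1 ∨ p % 8 = 7), p) *
      (∏ p ∈ a.primeFactors.filter (fun p => ¬ (p % 8 = 1 ∨ p % 8 = 7)), p) = a := by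
    rw [Finset.prod_filter_mul_prod_filter_not]
    exact Nat.prod_primeFactors_of_squarefree ha
  set n := ∏ p ∈ a.primeFactors.filter (fun p => p % 8 = 1 ∨ p % 8 = 7), p with hn
  have hnd : n ∣ a := ⟨_, hprod.symm⟩
  have hnle : n ≤ a := Nat.le_of_dvd (by omega) hnd
  have hn1 : 1 ≤ n := Nat.one_le_iff_ne_zero.mpr (fun h => ha0 (by rw [← hprod, h, zero_mul]))
  refine ⟨(n, a.primeFactors.filter (fun p => ¬ (p % 8 = 1 ∨ p % 8 = 7)), s), ⟨⟨?_, ?_⟩, hn1, ?_⟩,
    ?_, ⟨Nat.one_le_iff_ne_zero.mpr hs0, hsle.trans hk.2⟩, ?_⟩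
  · exact ha.squarefree_of_dvd hnd
  · intro p hp hpn
    have hpn' : p ∣ ∏ p ∈ a.primeFactors.filter (fun p => p % 8 = 1 ∨ p % 8 = 7), p := hpn
    rw [Prime.dvd_finsetProd_iff hp.prime] at hpn'
    obtain ⟨q, hq, hpq⟩ := hpn'
    rw [mem_filter] at hq
    have hqp : q.Prime := Nat.prime_of_mem_primeFactors hq.1
    rw [(Nat.prime_dvd_prime_iff_eq hp hqp).mp hpq]
    exact hq.2
  · show n ≤ y
    omega
  · intro p hp
    rw [mem_filter] at hp
    rw [Q, mem_filter, mem_range]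
    have hpp := Nat.prime_of_mem_primeFactors hp.1
    have hpa := Nat.le_of_dvd (by omega) (Nat.dvd_of_mem_primeFactors hp.1)
    exact ⟨by omega, hpp, hp.2⟩
  · show n * _ * s ^ 2 = k
    rw [hprod, ← hsa]
    ring

open Classical in
lemma sum_inv_le (y : ℕ) : ∑ k ∈ Finset.Icc 1 y, (1 : ℝ) / k ≤
    (∑ n ∈ (Finset.Icc 1 y).filter F0, (1 : ℝ) / n) *
      ((∏ p ∈ Q y, (1 + (1 : ℝ) / p)) * ∑ s ∈ Finset.Icc 1 y, (1 : ℝ) / (s : ℝ) ^ 2) := by
  let W : Finset (ℕ × Finset ℕ × ℕ) := ((Finset.Icc 1 y).filter F0) ×ˢ ((Q y).powerset ×ˢ Finset.Icc 1 y)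
  let f : ℕ × Finset ℕ × ℕ → ℝ := fun t => (1 / t.1) * ((∏ p ∈ t.2.1, (1 : ℝ) / p) * (1 / (t.2.2 : ℝ) ^ 2))
  have hR : (∑ n ∈ (Finset.Icc 1 y).filter F0, (1 : ℝ) / n) *
      ((∏ p ∈ Q y, (1 + (1 : ℝ) / p)) * ∑ s ∈ Finset.Icc 1 y, (1 : ℝ) / (s : ℝ) ^ 2) =
      ∑ t ∈ W, f t := by
    simp only [W, f]
    rw [Finset.sum_product, Finset.sum_mul]
    refine Finset.sum_congr rfl fun n _ => ?_
    rw [Finset.sum_product, Finset.prod_one_add, Finset.sum_mul, Finset.mul_sum]
    refine Finset.sum_congr rfl fun S _ => ?_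
    rw [Finset.mul_sum, Finset.mul_sum]
  rw [hR]
  choose! ψ hψ using decomp y
  have hinj : Set.InjOn ψ (Finset.Icc 1 y : Finset ℕ) := by
    intro a ha b hb hab
    have h1 := (hψ a ha).2.2.2
    have h2 := (hψ b hb).2.2.2
    rw [hab] at h1
    exact h1.symm.trans h2
  calc ∑ k ∈ Finset.Icc 1 y, (1 : ℝ) / k = ∑ k ∈ Finset.Icc 1 y, f (ψ k) := by
        refine Finset.sum_congr rfl fun k hk => ?_
        have h := (hψ k hk).2.2.2
        simp only [f]
        conv_lhs => rw [← h]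
        push_cast
        rw [Finset.prod_div_distrib, Finset.prod_const_one, one_div_mul_one_div, one_div_mul_one_div,
          mul_assoc]
    _ = ∑ t ∈ (Finset.Icc 1 y).image ψ, f t := (Finset.sum_image hinj).symm
    _ ≤ ∑ t ∈ W, f t := by
        refine Finset.sum_le_sum_of_subset_of_nonneg ?_ ?_
        · intro t ht
          rw [mem_image] at ht
          obtain ⟨k, hk, rfl⟩ := ht
          obtain ⟨h1, h2, h3, -⟩ := hψ k hk
          simp only [W, mem_product, mem_filter, mem_Icc, mem_powerset]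
          exact ⟨⟨⟨h1.2.1, h1.2.2⟩, h1.1⟩, h2, h3⟩
        · intro t _ _
          simp only [f]
          refine mul_nonneg (by positivity) (mul_nonneg ?_ (by positivity))
          exact Finset.prod_nonneg fun p _ => by positivity

lemma sum_union_le' (s t : Finset ℕ) : ∑ p ∈ s ∪ t, (1 : ℝ) / p ≤
    ∑ p ∈ s, (1 : ℝ) / p + ∑ p ∈ t, (1 : ℝ) / p := by
  rw [← Finset.sum_union_inter]
  have : 0 ≤ ∑ p ∈ s ∩ t, (1 : ℝ) / p := Finset.sum_nonneg fun p _ => by positivity
  linarith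

open Classical in
theorem recip (h3 : A3Stmt) : ∃ c : ℝ, 0 < c ∧ ∀ y : ℕ, 2 ≤ y →
    c * Real.sqrt (Real.log y) ≤ ∑ n ∈ (Finset.Icc 1 y).filter F0, (1 : ℝ) / n := by
  obtain ⟨C3, hC3⟩ := h3
  refine ⟨1 / (2 * Real.exp (2 * C3 + 1 / 2)), by positivity, fun y hy => ?_⟩
  have hy1 : (1 : ℝ) < y := by exact_mod_cast (by omega : 1 < y)
  have hl : 0 < Real.log y := Real.log_pos hy1
  have h1 : Real.log y ≤ ∑ k ∈ Finset.Icc 1 y, (1 : ℝ) / k := by
    have h := log_add_one_le_harmonic y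
    rw [harmonic_eq_sum_Icc] at h
    push_cast at h
    refine le_trans (Real.log_le_log (by linarith) (by linarith)) (h.trans (le_of_eq ?_))
    refine Finset.sum_congr rfl fun k _ => ?_
    rw [one_div]
  have h2 := sum_inv_le y
  have h4 : ∏ p ∈ Q y, (1 + (1 : ℝ) / p) ≤
      Real.exp (2 * C3 + 1 / 2) * Real.sqrt (Real.log y) := by
    have e0 : ∏ p ∈ Q y, (1 + (1 : ℝ) / p) ≤ ∏ p ∈ Q y, Real.exp ((1 : ℝ) / p) := by
      refine Finset.prod_le_prod (fun p _ => by positivity) fun p _ => ?_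
      have := Real.add_one_le_exp ((1 : ℝ) / p)
      linarith
    rw [← Real.exp_sum] at e0
    refine e0.trans ?_
    rw [← exp_loglog y hy]
    refine Real.exp_le_exp.mpr ?_
    have hsub : Q y ⊆ ((Finset.range (y + 1)).filter (fun p => p.Prime ∧ p % 8 = 3)) ∪
        (((Finset.range (y + 1)).filter (fun p => p.Prime ∧ p % 8 = 5)) ∪ {2}) := by
      intro p hp
      rw [Q, mem_filter] at hp
      simp only [mem_union, mem_filter, mem_singleton]
      obtain ⟨hp1, hp2, hp3⟩ := hp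
      rcases hp2.eq_two_or_odd with h | h
      · right; right; exact h
      · have : p % 8 = 3 ∨ p % 8 = 5 := by omega
        rcases this with h' | h'
        · left; exact ⟨hp1, hp2, h'⟩
        · right; left; exact ⟨hp1, hp2, h'⟩
    have hle : ∑ p ∈ Q y, (1 : ℝ) / p ≤
        ∑ p ∈ (Finset.range (y + 1)).filter (fun p => p.Prime ∧ p % 8 = 3), (1 : ℝ) / p +
        (∑ p ∈ (Finset.range (y + 1)).filter (fun p => p.Prime ∧ p % 8 = 5), (1 : ℝ) / p +
          ∑ p ∈ ({2} : Finset ℕ), (1 : ℝ) / p) := by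
      refine (Finset.sum_le_sum_of_subset_of_nonneg hsub fun p _ _ => by positivity).trans ?_
      refine (sum_union_le' _ _).trans ?_
      gcongr
      exact sum_union_le' _ _
    have a3 := (abs_le.mp (hC3 3 (by simp) y hy)).2
    have a5 := (abs_le.mp (hC3 5 (by simp) y hy)).2
    rw [Finset.sum_singleton] at hle
    norm_num at hle a3 a5 ⊢
    linarith
  set S := ∑ n ∈ (Finset.Icc 1 y).filter F0, (1 : ℝ) / n with hS
  have hS0 : 0 ≤ S := Finset.sum_nonneg fun n _ => by positivity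
  have hsl : 0 < Real.sqrt (Real.log y) := Real.sqrt_pos.mpr hl
  have h5 : Real.log y ≤ S * ((Real.exp (2 * C3 + 1 / 2) * Real.sqrt (Real.log y)) * 2) := by
    refine h1.trans (h2.trans ?_)
    refine mul_le_mul_of_nonneg_left ?_ hS0
    refine mul_le_mul h4 (sum_sq_le y) (Finset.sum_nonneg fun s _ => by positivity) (by positivity)
  have hsq : Real.sqrt (Real.log y) * Real.sqrt (Real.log y) = Real.log y :=
    Real.mul_self_sqrt hl.le
  have h6 : Real.sqrt (Real.log y) ≤ S * (2 * Real.exp (2 * C3 + 1 / 2)) := by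
    have : Real.sqrt (Real.log y) * Real.sqrt (Real.log y) ≤
        (S * (2 * Real.exp (2 * C3 + 1 / 2))) * Real.sqrt (Real.log y) := by
      rw [hsq]; linarith
    exact le_of_mul_le_mul_right this hsl
  rw [one_div, inv_mul_le_iff₀ (by positivity)]
  linarith

/-! ### The lower bound -/

lemma mod8_of {n : ℕ} (hn : n ≠ 0) (h : ∀ p, p.Prime → p ∣ n → (p % 8 = 1 ∨ p % 8 = 7)) :
    n % 8 = 1 ∨ n % 8 = 7 := by
  induction n using Nat.recOnMul with
  | zero => exact absurd rfl hn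
  | one => left; rfl
  | prime p hp => exact h p hp dvd_rfl
  | mul a b iha ihb =>
    have ha : a ≠ 0 := fun h0 => hn (by rw [h0, zero_mul])
    have hb : b ≠ 0 := fun h0 => hn (by rw [h0, mul_zero])
    have h1 := iha ha fun p hp hd => h p hp (hd.mul_right b)
    have h2 := ihb hb fun p hp hd => h p hp (hd.mul_left a)
    rw [Nat.mul_mod]
    rcases h1 with h1 | h1 <;> rcases h2 with h2 | h2 <;> rw [h1, h2] <;> norm_num

/-- the class of the large prime -/
def cc (n : ℕ) : ℕ := if n % 8 = 1 then 1 else 7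

lemma cc_mem (n : ℕ) : cc n ∈ cls := by
  unfold cc cls
  split_ifs <;> simp

lemma cc_mod (n : ℕ) (hn : n % 8 = 1 ∨ n % 8 = 7) : (n % 8) * (cc n) % 8 = 1 := by
  unfold cc
  rcases hn with h | h
  · rw [if_pos h, h]
  · rw [if_neg (by omega), h]

lemma cc_lt (n : ℕ) : cc n % 8 = cc n := by
  unfold cc
  split_ifs <;> rfl

lemma size_aux {X Y a b p : ℝ} (hX : 4 ≤ X) (hY : Y ^ 4 = X) (ha : 0 < a) (haY : a ≤ Y)
    (hbY : b ≤ Y) (hp : X / (2 * a) < p) : b < p := by
  by_contra hcon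
  push Not at hcon
  rw [div_lt_iff₀ (by positivity)] at hp
  have hY0 : 0 < Y := lt_of_lt_of_le ha haY
  have h1 : p * (2 * a) ≤ 2 * Y ^ 2 := by
    have : p * (2 * a) ≤ Y * (2 * Y) := by
      refine mul_le_mul (hcon.trans hbY) (by linarith) (by positivity) hY0.le
    nlinarith
  have h2 : Y ^ 2 < 2 := by
    by_contra h
    push Not at h
    nlinarith [sq_nonneg (Y ^ 2)]
  nlinarith [sq_nonneg (Y ^ 2), sq_nonneg Y]

open Classical in
/-- the injection `(n, p) ↦ n p` -/
theorem count_ge (X Y : ℝ) (hX : 4 ≤ X) (hY0 : 0 ≤ Y) (hY : Y ^ 4 = X) :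
    ∑ n ∈ (Finset.Icc 1 ⌊Y⌋₊).filter F0, ((pr (X / (2 * n)) 1 (cc n)).card : ℝ) ≤ NF X := by
  have hcard : (((Finset.Icc 1 ⌊Y⌋₊).filter F0).sigma
      (fun n => pr (X / (2 * n)) 1 (cc n))).card ≤ ((Finset.Icc 1 ⌊X⌋₊).filter FF).card := by
    have key : ∀ x ∈ ((Finset.Icc 1 ⌊Y⌋₊).filter F0).sigma (fun n => pr (X / (2 * n)) 1 (cc n)),
        (0 : ℝ) < x.1 ∧ (x.1 : ℝ) ≤ Y ∧ F0 x.1 ∧ x.2.Prime ∧ x.2 % 16 = cc x.1 ∧
          X / (2 * x.1) < x.2 ∧ (x.1 : ℝ) * x.2 ≤ X := by
      intro x hx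
      rw [mem_sigma, mem_filter, mem_Icc, pr, mem_filter, mem_Ioc] at hx
      obtain ⟨⟨⟨h1, h2⟩, h3⟩, ⟨h4, h5⟩, h6, h7⟩ := hx
      have hx1 : (0 : ℝ) < x.1 := by exact_mod_cast h1
      refine ⟨hx1, (Nat.le_floor_iff hY0).mp h2, h3, h6, h7, (Nat.floor_lt (by positivity)).mp h4, ?_⟩
      have h8 : (x.2 : ℝ) ≤ (1 + 1) * (X / (2 * x.1)) := (Nat.le_floor_iff (by positivity)).mp h5
      rw [show (1 + 1) * (X / (2 * (x.1 : ℝ))) = X / x.1 by field_simp; ring, le_div_iff₀ hx1] at h8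
      linarith
    refine Finset.card_le_card_of_injOn (fun x => x.1 * x.2) ?_ ?_
    · intro x hx
      obtain ⟨h1, h2, h3, h4, h5, h6, h7⟩ := key x hx
      have hlt : x.1 < x.2 := by
        have := size_aux hX hY h1 h2 h2 h6
        exact_mod_cast this
      have hcop : Nat.Coprime x.1 x.2 := by
        refine ((Nat.Prime.coprime_iff_not_dvd h4).mpr fun hd => ?_).symm
        have hx1 : 0 < x.1 := by exact_mod_cast h1
        have := Nat.le_of_dvd hx1 hd
        omega
      have hx10 : x.1 ≠ 0 := by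
        have : 0 < x.1 := by exact_mod_cast h1
        omega
      have hm8 := mod8_of hx10 h3.2
      have hp8 : x.2 % 8 = cc x.1 := by
        have : x.2 % 8 = cc x.1 % 8 := by rw [← h5]; omega
        rw [this, cc_lt]
      have hcc : cc x.1 = 1 ∨ cc x.1 = 7 := by
        unfold cc; split_ifs <;> simp
      simp only [coe_filter, Set.mem_ofPred_eq, mem_Icc]
      refine ⟨⟨Nat.one_le_iff_ne_zero.mpr (Nat.mul_ne_zero hx10 h4.ne_zero), ?_⟩, ?_, ?_, ?_, ?_⟩
      · refine Nat.le_floor ?_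
        push_cast
        exact h7
      · have := h4.one_lt
        have hx1 : 1 ≤ x.1 := Nat.one_le_iff_ne_zero.mpr hx10
        nlinarith
      · rw [Nat.mul_mod, hp8]
        exact cc_mod _ hm8
      · exact (Nat.squarefree_mul hcop).mpr ⟨h3.1, h4.squarefree⟩
      · intro q hq hd
        rcases (Nat.Prime.dvd_mul hq).mp hd with h | h
        · exact h3.2 q hq h
        · rw [(Nat.prime_dvd_prime_iff_eq hq h4).mp h, hp8]
          exact hcc
    · intro x hx x' hx' hxx
      obtain ⟨h1, h2, h3, h4, h5, h6, h7⟩ := key x hx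
      obtain ⟨h1', h2', h3', h4', h5', h6', h7'⟩ := key x' hx'
      have hx1' : 0 < x'.1 := by exact_mod_cast h1'
      have hlt : x'.1 < x.2 := by
        have := size_aux hX hY h1 h2 h2' h6
        exact_mod_cast this
      have hxx' : x.1 * x.2 = x'.1 * x'.2 := hxx
      have hd : x.2 ∣ x'.1 * x'.2 := ⟨x.1, by rw [← hxx']; ring⟩
      have hp : x.2 = x'.2 := by
        rcases (Nat.Prime.dvd_mul h4).mp hd with h | h
        · exact absurd (Nat.le_of_dvd hx1' h) (by omega)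
        · exact (Nat.prime_dvd_prime_iff_eq h4 h4').mp h
      have hn : x.1 = x'.1 := by
        rw [hp] at hxx'
        exact Nat.eq_of_mul_eq_mul_right h4'.pos hxx'
      obtain ⟨a, b⟩ := x
      obtain ⟨a', b'⟩ := x'
      simp only at hp hn
      subst hp hn
      rfl
  rw [Finset.card_sigma] at hcard
  unfold NF
  exact_mod_cast hcard

theorem lower (ha : A1Stmt) (h3 : A3Stmt) :
    ∃ c X0 : ℝ, 0 < c ∧ ∀ X : ℝ, X0 ≤ X → c * SX X ≤ NF X := by
  classical
  obtain ⟨c1, hc1, hrec⟩ := recip h3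
  obtain ⟨N1, hN1, hA⟩ := ha 1 one_pos (1 / 16) (by norm_num)
  refine ⟨c1 / 96, max ((2 * N1) ^ 4) 256, by positivity, fun X hX => ?_⟩
  have hX1 : (2 * N1) ^ 4 ≤ X := (le_max_left _ _).trans hX
  have hX2 : (256 : ℝ) ≤ X := (le_max_right _ _).trans hX
  have hX0 : 0 < X := by linarith
  set Y : ℝ := X ^ ((1 : ℝ) / 4) with hYdef
  have hY0 : 0 < Y := Real.rpow_pos_of_pos hX0 _
  have hY4 : Y ^ 4 = X := by
    rw [hYdef, ← Real.rpow_natCast, ← Real.rpow_mul hX0.le]
    norm_num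
  have hYN : 2 * N1 ≤ Y := by
    by_contra h
    push Not at h
    have : Y ^ 4 < (2 * N1) ^ 4 := pow_lt_pow_left₀ h hY0.le (by norm_num)
    rw [hY4] at this
    linarith
  have hY4' : 4 ≤ Y := by
    by_contra h
    push Not at h
    have : Y ^ 4 < 4 ^ 4 := pow_lt_pow_left₀ h hY0.le (by norm_num)
    rw [hY4] at this
    norm_num at this
    linarith
  have hlogX : 0 < Real.log X := Real.log_pos (by linarith)
  have hlogY : Real.log Y = Real.log X / 4 := by
    rw [hYdef, Real.log_rpow hX0]; ring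
  -- the count of primes
  have hpr : ∀ n ∈ (Finset.Icc 1 ⌊Y⌋₊).filter F0,
      X / (32 * Real.log X) * (1 / n) ≤ ((pr (X / (2 * n)) 1 (cc n)).card : ℝ) := by
    intro n hn
    rw [mem_filter, mem_Icc] at hn
    have hn1 : (1 : ℝ) ≤ n := by exact_mod_cast hn.1.1
    have hnY : (n : ℝ) ≤ Y := (Nat.le_floor_iff hY0.le).mp hn.1.2
    have hN : N1 ≤ X / (2 * n) := by
      rw [le_div_iff₀ (by positivity)]
      have h1 : N1 * (2 * n) ≤ Y * Y := by
        have : N1 * (2 * (n : ℝ)) = (2 * N1) * n := by ring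
        rw [this]
        exact mul_le_mul hYN hnY (by positivity) hY0.le
      have h2 : Y * Y ≤ Y ^ 4 := by
        have : Y ^ 4 = (Y * Y) * (Y * Y) := by ring
        rw [this]
        have h16 : 1 ≤ Y * Y := by nlinarith
        nlinarith
      rw [← hY4]; linarith
    have h := hA _ hN (cc n) (cc_mem n)
    have h' := (abs_le.mp h).1
    have hNpos : 0 < X / (2 * n) := by positivity
    have hN2 : (2 : ℝ) ≤ X / (2 * n) := hN1.trans hN
    have hlN : 0 < Real.log (X / (2 * n)) := Real.log_pos (by linarith)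
    have hlNX : Real.log (X / (2 * n)) ≤ Real.log X := by
      refine Real.log_le_log hNpos ?_
      rw [div_le_iff₀ (by positivity)]
      nlinarith
    have e1 : 1 * (X / (2 * n)) / (8 * Real.log (X / (2 * n))) =
        2 * ((1 / 16) * (X / (2 * n)) / Real.log (X / (2 * n))) := by
      field_simp; norm_num
    rw [e1] at h'
    have e2 : (1 / 16) * (X / (2 * n)) / Real.log (X / (2 * n)) ≤
        ((pr (X / (2 * n)) 1 (cc n)).card : ℝ) := by linarith
    refine le_trans ?_ e2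
    have e3 : X / (32 * Real.log X) * (1 / n) = (1 / 16) * (X / (2 * n)) / Real.log X := by
      field_simp; norm_num
    rw [e3]
    exact div_le_div_of_nonneg_left (by positivity) hlN hlNX
  have hS := hrec ⌊Y⌋₊ (Nat.le_floor (by push_cast; linarith))
  have hfl : Y / 2 ≤ (⌊Y⌋₊ : ℝ) := by
    have := Nat.lt_floor_add_one Y
    linarith
  have hlogfl : Real.log X / 9 ≤ Real.log (⌊Y⌋₊ : ℝ) := by
    have h1 : Real.log (Y / 2) ≤ Real.log (⌊Y⌋₊ : ℝ) := Real.log_le_log (by linarith) hfl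
    have h2 : Real.log (Y / 2) = Real.log Y - Real.log 2 := Real.log_div hY0.ne' (by norm_num)
    have h3 : 2 * Real.log 2 ≤ Real.log Y := by
      have : Real.log ((2 : ℝ) ^ 2) ≤ Real.log Y := Real.log_le_log (by norm_num) (by linarith)
      rw [Real.log_pow] at this
      push_cast at this
      exact this
    rw [h2] at h1
    linarith
  have hsq : Real.sqrt (Real.log X) / 3 ≤ Real.sqrt (Real.log (⌊Y⌋₊ : ℝ)) := by
    have : Real.sqrt (Real.log X) / 3 = Real.sqrt (Real.log X / 9) := by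
      rw [Real.sqrt_div' _ (by norm_num), show (9 : ℝ) = 3 ^ 2 by norm_num,
        Real.sqrt_sq (by norm_num)]
    rw [this]
    exact Real.sqrt_le_sqrt hlogfl
  have hfin : X / (32 * Real.log X) * (c1 * (Real.sqrt (Real.log X) / 3)) ≤ NF X := by
    refine le_trans ?_ (count_ge X Y (by linarith) hY0.le hY4)
    refine le_trans ?_ (Finset.sum_le_sum hpr)
    rw [← Finset.mul_sum]
    refine mul_le_mul_of_nonneg_left ?_ (by positivity)
    refine le_trans ?_ hS
    exact mul_le_mul_of_nonneg_left hsq hc1.le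
  refine le_trans (le_of_eq ?_) hfin
  unfold SX
  have hsl : 0 < Real.sqrt (Real.log X) := Real.sqrt_pos.mpr hlogX
  have hs2 : Real.sqrt (Real.log X) ^ 2 = Real.log X := Real.sq_sqrt hlogX.le
  have : X / (32 * Real.log X) = X / (32 * Real.sqrt (Real.log X) ^ 2) := by rw [hs2]
  rw [this]
  field_simp
  norm_num

end E2

/-- [E2] from E1, A3, A1 -/
theorem E2_of (h1 : E1Stmt) (h3 : A3Stmt) (ha : A1Stmt) : E2Stmt :=
  ⟨E2.upper h1 h3, E2.lower ha h3⟩

end Pool.Agent.C1D
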