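import Pool.Agent.C1D.M67

set_option autoImplicit false

/-!
# C1D, module E3: few large primes is rare
-/

namespace Pool.Agent.C1D

open Finset

namespace E3

/-- weight `1` for the small, `1/2` for the large primes of `P8` -/
noncomputable def gg (z : ℕ) (p : ℕ) : ℝ :=
  if p % 8 = 1 ∨ p % 8 = 7 then (if p ≤ z then 1 else 1 / 2) else 0

lemma gg_bd (z p : ℕ) : 0 ≤ gg z p ∧ gg z p ≤ 1 := by
  unfold gg
  split_ifs <;> norm_num

lemma prod_gg {z m : ℕ} (hm : F0 m) :
    ∏ p ∈ m.primeFactors, gg z p = (1 / 2 : ℝ) ^ wz z m := by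
  unfold wz
  rw [← Finset.prod_filter_mul_prod_filter_not m.primeFactors (fun p => z < p)]
  have h1 : ∏ p ∈ m.primeFactors.filter (fun p => z < p), gg z p =
      (1 / 2 : ℝ) ^ (m.primeFactors.filter (fun p => z < p)).card := by
    apply Finset.prod_eq_pow_card
    intro p hp
    rw [Finset.mem_filter] at hp
    unfold gg
    rw [if_pos (hm.2 p (Nat.prime_of_mem_primeFactors hp.1) (Nat.dvd_of_mem_primeFactors hp.1)),
      if_neg (by omega)]
  have h2 : ∏ p ∈ m.primeFactors.filter (fun p => ¬ z < p), gg z p = 1 := by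
    apply Finset.prod_eq_one
    intro p hp
    rw [Finset.mem_filter] at hp
    unfold gg
    rw [if_pos (hm.2 p (Nat.prime_of_mem_primeFactors hp.1) (Nat.dvd_of_mem_primeFactors hp.1)),
      if_pos (by omega)]
  rw [h1, h2, mul_one]

lemma sum_gg {z N : ℕ} (hN : z ≤ N) : ∑ p ∈ (Finset.Icc 1 N).filter Nat.Prime, gg z p / p =
    (∑ p ∈ P8le N, (1 : ℝ) / p + ∑ p ∈ P8le z, (1 : ℝ) / p) / 2 := by
  have hsub : P8le N ⊆ (Finset.Icc 1 N).filter Nat.Prime := by
    intro p hp
    rw [M67.mem_P8le] at hp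
    rw [Finset.mem_filter, Finset.mem_Icc]
    exact ⟨⟨hp.2.1.pos, hp.1⟩, hp.2.1⟩
  have h1 : ∑ p ∈ (Finset.Icc 1 N).filter Nat.Prime, gg z p / p = ∑ p ∈ P8le N, gg z p / p := by
    symm
    apply Finset.sum_subset hsub
    intro p hp hp'
    rw [Finset.mem_filter, Finset.mem_Icc] at hp
    rw [M67.mem_P8le] at hp'
    unfold gg
    rw [if_neg, zero_div]
    intro h
    exact hp' ⟨hp.1.2, hp.2, h⟩
  have h2 : ∑ p ∈ P8le z, (1 : ℝ) / p = ∑ p ∈ P8le N, (if p ≤ z then (1 : ℝ) / p else 0) := by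
    rw [← Finset.sum_filter]
    apply Finset.sum_congr _ (fun _ _ => rfl)
    ext p
    rw [Finset.mem_filter, M67.mem_P8le, M67.mem_P8le]
    constructor
    · rintro ⟨h, h'⟩
      exact ⟨⟨by omega, h'⟩, h⟩
    · rintro ⟨⟨_, h'⟩, h⟩
      exact ⟨h, h'⟩
  rw [h1, h2, ← Finset.sum_add_distrib, Finset.sum_div]
  apply Finset.sum_congr rfl
  intro p hp
  rw [M67.mem_P8le] at hp
  unfold gg
  rw [if_pos hp.2.2]
  split_ifs <;> ring

end E3

open Classical in
theorem E3_of (h1 : E1Stmt) (h3 : A3Stmt) : E3Stmt := by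
  obtain ⟨C1, hC1, hE⟩ := h1 1 (by norm_num)
  obtain ⟨C3, hC3, hT⟩ := M67.mertens h3
  intro J ε hε
  set t : ℝ := ε / (2 ^ J * (C1 + 1) * Real.exp C3) with ht
  have hexpC := Real.exp_pos C3
  have ht0 : 0 < t := by positivity
  refine ⟨min (1 / 2) (t ^ 4), by positivity, ?_⟩
  intro η hη0 hη
  have hη1 : η ≤ 1 / 2 := hη.trans (min_le_left _ _)
  have hηt : η ≤ t ^ 4 := hη.trans (min_le_right _ _)
  refine ⟨max 4 ((2:ℝ) ^ (1 / η)), ?_⟩
  intro X hX
  have hX4 : (4:ℝ) ≤ X := (le_max_left _ _).trans hX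
  have hX0 : (0:ℝ) < X := by linarith
  have hX2 : (2:ℝ) ^ (1 / η) ≤ X := (le_max_right _ _).trans hX
  have hXη : (2:ℝ) ≤ X ^ η := by
    calc (2:ℝ) = ((2:ℝ) ^ (1 / η)) ^ η := by
          rw [← Real.rpow_mul (by norm_num), one_div, inv_mul_cancel₀ hη0.ne', Real.rpow_one]
      _ ≤ X ^ η := Real.rpow_le_rpow (by positivity) hX2 hη0.le
  set z : ℕ := zz η X with hz
  have hz2 : 2 ≤ z := by
    rw [hz]
    unfold zz
    exact Nat.le_floor (by exact_mod_cast hXη)
  have hzX : (z:ℝ) ≤ X ^ η := by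
    rw [hz]
    unfold zz
    exact Nat.floor_le (by positivity)
  have hXX : X ^ η ≤ X := by
    calc X ^ η ≤ X ^ (1:ℝ) := Real.rpow_le_rpow_of_exponent_le (by linarith) (by linarith)
      _ = X := Real.rpow_one X
  have hzN : z ≤ ⌊X⌋₊ := Nat.le_floor (hzX.trans hXX)
  have hz2R : (2:ℝ) ≤ z := by exact_mod_cast hz2
  have hlz : 0 < Real.log z := Real.log_pos (by linarith)
  have hlX : 0 < Real.log X := Real.log_pos (by linarith)
  have hlzX : Real.log z ≤ η * Real.log X := by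
    rw [← Real.log_rpow hX0]
    exact Real.log_le_log (by linarith) hzX
  have hN2 : 2 ≤ ⌊X⌋₊ := hz2.trans hzN
  have hN2R : (2:ℝ) ≤ ⌊X⌋₊ := by exact_mod_cast hN2
  have hlN : 0 < Real.log (⌊X⌋₊ : ℝ) := Real.log_pos (by linarith)
  -- the count
  have hcount : (((Finset.Icc 1 ⌊X⌋₊).filter fun m => F0 m ∧ wz z m < J).card : ℝ) ≤
      2 ^ J * ∑ n ∈ (Finset.Icc 1 ⌊X⌋₊).filter Squarefree, ∏ p ∈ n.primeFactors, E3.gg z p := by
    rw [Finset.cast_card, Finset.mul_sum]
    apply E1.sum_le_of_inj _ _ (fun m => m)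
    · intro m hm
      rw [Finset.mem_filter] at hm ⊢
      exact ⟨hm.1, hm.2.1.1⟩
    · intro m _ n _ h
      exact h
    · intro m hm
      rw [Finset.mem_filter] at hm
      rw [E3.prod_gg hm.2.1, one_div, inv_pow, ← div_eq_mul_inv, le_div_iff₀ (by positivity),
        one_mul]
      exact pow_le_pow_right₀ (by norm_num) hm.2.2.le
    · intro n _
      exact mul_nonneg (by positivity) (Finset.prod_nonneg fun p _ => (E3.gg_bd z p).1)
  have hbd := hE (E3.gg z) (fun p _ => E3.gg_bd z p) X (by linarith)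
  have hexp : ∑ p ∈ (Finset.Icc 1 ⌊X⌋₊).filter Nat.Prime, E3.gg z p / p ≤
      Real.log (Real.log X) / 2 + Real.log t + C3 := by
    rw [E3.sum_gg hzN]
    have h4 := (abs_le.1 (hT z hz2)).2
    have h5 := (abs_le.1 (hT ⌊X⌋₊ hN2)).2
    have h6 : Real.log (Real.log (⌊X⌋₊ : ℝ)) ≤ Real.log (Real.log X) := by
      apply Real.log_le_log hlN
      exact Real.log_le_log (by linarith) (Nat.floor_le hX0.le)
    have h7 : Real.log (Real.log z) ≤ 4 * Real.log t + Real.log (Real.log X) := by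
      calc Real.log (Real.log z) ≤ Real.log (t ^ 4 * Real.log X) := by
            apply Real.log_le_log hlz
            exact hlzX.trans (by gcongr)
        _ = 4 * Real.log t + Real.log (Real.log X) := by
            rw [Real.log_mul (by positivity) hlX.ne', Real.log_pow]
            push_cast
            ring
    linarith
  have hexp2 : Real.exp (Real.log (Real.log X) / 2 + Real.log t + C3) =
      Real.sqrt (Real.log X) * t * Real.exp C3 := by
    rw [Real.exp_add, Real.exp_add, ← Real.log_sqrt hlX.le,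
      Real.exp_log (Real.sqrt_pos.2 hlX), Real.exp_log ht0]
  have hs : Real.sqrt (Real.log X) * Real.sqrt (Real.log X) = Real.log X :=
    Real.mul_self_sqrt hlX.le
  have hs0 : 0 < Real.sqrt (Real.log X) := Real.sqrt_pos.2 hlX
  have hq : X / Real.log X * Real.sqrt (Real.log X) = SX X := by
    unfold SX
    rw [div_mul_eq_mul_div, div_eq_div_iff hlX.ne' hs0.ne', mul_assoc, hs]
  have hSX : 0 ≤ SX X := by unfold SX; positivity
  calc (((Finset.Icc 1 ⌊X⌋₊).filter fun m => F0 m ∧ wz z m < J).card : ℝ)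
      ≤ 2 ^ J * (C1 * (X / Real.log X) *
        Real.exp (∑ p ∈ (Finset.Icc 1 ⌊X⌋₊).filter Nat.Prime, E3.gg z p / p)) :=
        hcount.trans (by gcongr)
    _ ≤ 2 ^ J * (C1 * (X / Real.log X) * (Real.sqrt (Real.log X) * t * Real.exp C3)) := by
        rw [← hexp2]
        gcongr
    _ = 2 ^ J * C1 * Real.exp C3 * t * (X / Real.log X * Real.sqrt (Real.log X)) := by ring
    _ = 2 ^ J * C1 * Real.exp C3 * t * SX X := by rw [hq]
    _ ≤ ε * SX X := by
        apply mul_le_mul_of_nonneg_right _ hSX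
        calc 2 ^ J * C1 * Real.exp C3 * t ≤ 2 ^ J * (C1 + 1) * Real.exp C3 * t := by
              gcongr
              linarith
          _ = ε := by
              rw [ht]
              field_simp

end Pool.Agent.C1D
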