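import Pool.Agent.C1D.M67

set_option autoImplicit false

/-!
# C1D, module E7: number of elements with given smooth part
-/

namespace Pool.Agent.C1D

open Finset

namespace E7

/-- the indicator of the `P8` primes above `z` -/
noncomputable def gg (z : ℕ) (p : ℕ) : ℝ := if (p % 8 = 1 ∨ p % 8 = 7) ∧ z < p then 1 else 0

lemma gg_bd (z p : ℕ) : 0 ≤ gg z p ∧ gg z p ≤ 1 := by
  unfold gg
  split_ifs <;> norm_num

/-- the rough part -/
def rgh (z m : ℕ) : ℕ := ∏ p ∈ m.primeFactors.filter (fun p => z < p), p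

lemma smp_mul_rgh {z m : ℕ} (hm : Squarefree m) : smp z m * rgh z m = m := by
  unfold smp rgh
  conv_rhs => rw [← Nat.prod_primeFactors_of_squarefree hm]
  rw [← Finset.prod_filter_mul_prod_filter_not m.primeFactors (fun p => p ≤ z)]
  congr 1
  apply Finset.prod_congr _ (fun _ _ => rfl)
  ext p
  simp only [Finset.mem_filter, not_le]

lemma primeFactors_rgh {z m : ℕ} :
    (rgh z m).primeFactors = m.primeFactors.filter (fun p => z < p) := by
  unfold rgh
  apply Nat.primeFactors_prod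
  intro p hp
  rw [Finset.mem_filter] at hp
  exact Nat.prime_of_mem_primeFactors hp.1

lemma rgh_sqf {z m : ℕ} (hm : Squarefree m) : Squarefree (rgh z m) :=
  hm.squarefree_of_dvd ⟨smp z m, by rw [mul_comm, smp_mul_rgh hm]⟩

lemma rgh_pos {z m : ℕ} (hm : Squarefree m) : 0 < rgh z m :=
  Nat.pos_of_ne_zero (rgh_sqf hm).ne_zero

end E7

open Classical in
theorem E7_of (h1 : E1Stmt) (h3 : A3Stmt) : E7Stmt := by
  obtain ⟨C1, hC1, hE⟩ := h1 1 (by norm_num)
  obtain ⟨C3, hC3, hT⟩ := M67.tail h3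
  refine ⟨(C1 + 1) * Real.exp C3 * Real.sqrt 2, by positivity, ?_⟩
  intro z X hz hzX m' hm' hmX
  have hm'0 : 0 < m' := Nat.pos_of_ne_zero (by
    intro h
    rw [h] at hm'
    unfold Sm at hm'
    rw [Nat.mem_divisors] at hm'
    exact hm'.2 (Nat.eq_zero_of_zero_dvd hm'.1))
  have hm'R : (0:ℝ) < m' := by exact_mod_cast hm'0
  have hz2 : (2:ℝ) ≤ z := by exact_mod_cast hz
  have hX4 : (4:ℝ) ≤ X := by nlinarith
  have hX0 : (0:ℝ) < X := by linarith
  set Y : ℝ := X / m' with hY
  have hsq : Real.sqrt X * Real.sqrt X = X := Real.mul_self_sqrt hX0.le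
  have hsq0 : 0 < Real.sqrt X := Real.sqrt_pos.2 hX0
  have hYs : Real.sqrt X ≤ Y := by
    rw [hY, le_div_iff₀ hm'R]
    calc Real.sqrt X * m' ≤ Real.sqrt X * Real.sqrt X := by gcongr
      _ = X := hsq
  have hzs : (z:ℝ) ≤ Real.sqrt X := by
    apply Real.le_sqrt_of_sq_le
    exact hzX
  have hzY : (z:ℝ) ≤ Y := hzs.trans hYs
  have hY2 : (2:ℝ) ≤ Y := hz2.trans hzY
  have hY0 : 0 < Y := by linarith
  -- the count
  have hcount : (((Finset.Icc 1 ⌊X⌋₊).filter fun m => F0 m ∧ smp z m = m').card : ℝ) ≤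
      ∑ n ∈ (Finset.Icc 1 ⌊Y⌋₊).filter Squarefree, ∏ p ∈ n.primeFactors, E7.gg z p := by
    rw [Finset.cast_card]
    apply E1.sum_le_of_inj _ _ (fun m => E7.rgh z m)
    · intro m hm
      rw [Finset.mem_filter, Finset.mem_Icc] at hm
      obtain ⟨⟨hm1, hmX'⟩, hF, hs⟩ := hm
      rw [Finset.mem_filter, Finset.mem_Icc]
      refine ⟨⟨E7.rgh_pos hF.1, ?_⟩, E7.rgh_sqf hF.1⟩
      apply Nat.le_floor
      rw [hY, le_div_iff₀ hm'R]
      have h4 := E7.smp_mul_rgh (z := z) hF.1
      rw [hs] at h4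
      have h5 := (Nat.le_floor_iff hX0.le).1 hmX'
      rw [← h4] at h5
      push_cast at h5
      linarith
    · intro m hm n hn h
      rw [Finset.mem_filter] at hm hn
      rw [← E7.smp_mul_rgh (z := z) hm.2.1.1, ← E7.smp_mul_rgh (z := z) hn.2.1.1, hm.2.2, hn.2.2, h]
    · intro m hm
      rw [Finset.mem_filter] at hm
      have : ∏ p ∈ (E7.rgh z m).primeFactors, E7.gg z p = 1 := by
        apply Finset.prod_eq_one
        intro p hp
        rw [E7.primeFactors_rgh, Finset.mem_filter] at hp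
        unfold E7.gg
        rw [if_pos]
        exact ⟨hm.2.1.2 p (Nat.prime_of_mem_primeFactors hp.1) (Nat.dvd_of_mem_primeFactors hp.1),
          hp.2⟩
      rw [this]
    · intro n _
      exact Finset.prod_nonneg fun p _ => (E7.gg_bd z p).1
  have hbd := hE (E7.gg z) (fun p _ => E7.gg_bd z p) Y hY2
  -- the exponent
  have hexp : ∑ p ∈ (Finset.Icc 1 ⌊Y⌋₊).filter Nat.Prime, E7.gg z p / p ≤
      (Real.log (Real.log Y) - Real.log (Real.log z)) / 2 + C3 := by
    have hzN : z ≤ ⌊Y⌋₊ := Nat.le_floor hzY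
    have h5 := hT z ⌊Y⌋₊ hz hzN
    have h6 : ∑ p ∈ (Finset.Icc 1 ⌊Y⌋₊).filter Nat.Prime, E7.gg z p / p =
        ∑ p ∈ (P8le ⌊Y⌋₊).filter (fun p => z < p), (1 : ℝ) / p := by
      symm
      have hsub : (P8le ⌊Y⌋₊).filter (fun p => z < p) ⊆ (Finset.Icc 1 ⌊Y⌋₊).filter Nat.Prime := by
        intro p hp
        rw [Finset.mem_filter, M67.mem_P8le] at hp
        rw [Finset.mem_filter, Finset.mem_Icc]
        exact ⟨⟨hp.1.2.1.pos, hp.1.1⟩, hp.1.2.1⟩
      rw [← Finset.sum_subset hsub]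
      · apply Finset.sum_congr rfl
        intro p hp
        rw [Finset.mem_filter, M67.mem_P8le] at hp
        unfold E7.gg
        rw [if_pos ⟨hp.1.2.2, hp.2⟩]
      · intro p hp hp'
        rw [Finset.mem_filter, Finset.mem_Icc] at hp
        rw [Finset.mem_filter, M67.mem_P8le] at hp'
        unfold E7.gg
        rw [if_neg, zero_div]
        intro h
        exact hp' ⟨⟨hp.1.2, hp.2, h.1⟩, h.2⟩
    rw [h6]
    have h7 : Real.log (Real.log ⌊Y⌋₊) ≤ Real.log (Real.log Y) := by
      have hN2 : (2:ℝ) ≤ ⌊Y⌋₊ := hz2.trans (by exact_mod_cast hzN)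
      apply Real.log_le_log (Real.log_pos (by linarith))
      apply Real.log_le_log (by linarith)
      exact Nat.floor_le hY0.le
    linarith
  have hlz : 0 < Real.log z := Real.log_pos (by linarith)
  have hlY : 0 < Real.log Y := Real.log_pos (by linarith)
  have hlX : 0 < Real.log X := Real.log_pos (by linarith)
  have hlYX : Real.log X / 2 ≤ Real.log Y := by
    have : Real.log (Real.sqrt X) = Real.log X / 2 := Real.log_sqrt hX0.le
    rw [← this]
    exact Real.log_le_log hsq0 hYs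
  have hexp2 : Real.exp ((Real.log (Real.log Y) - Real.log (Real.log z)) / 2 + C3) =
      Real.sqrt (Real.log Y) / Real.sqrt (Real.log z) * Real.exp C3 := by
    rw [Real.exp_add, sub_div, Real.exp_sub, ← Real.log_sqrt hlY.le, ← Real.log_sqrt hlz.le,
      Real.exp_log (Real.sqrt_pos.2 hlY), Real.exp_log (Real.sqrt_pos.2 hlz)]
  have hsY : Real.sqrt (Real.log Y) * Real.sqrt (Real.log Y) = Real.log Y :=
    Real.mul_self_sqrt hlY.le
  have hsY0 : 0 < Real.sqrt (Real.log Y) := Real.sqrt_pos.2 hlY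
  have hsX0 : 0 < Real.sqrt (Real.log X) := Real.sqrt_pos.2 hlX
  have hsz0 : 0 < Real.sqrt (Real.log z) := Real.sqrt_pos.2 hlz
  have hcmp : Real.sqrt (Real.log X) ≤ Real.sqrt 2 * Real.sqrt (Real.log Y) := by
    rw [← Real.sqrt_mul (by norm_num)]
    apply Real.sqrt_le_sqrt
    linarith
  calc (((Finset.Icc 1 ⌊X⌋₊).filter fun m => F0 m ∧ smp z m = m').card : ℝ)
      ≤ C1 * (Y / Real.log Y) *
        Real.exp (∑ p ∈ (Finset.Icc 1 ⌊Y⌋₊).filter Nat.Prime, E7.gg z p / p) := hcount.trans hbd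
    _ ≤ C1 * (Y / Real.log Y) *
        (Real.sqrt (Real.log Y) / Real.sqrt (Real.log z) * Real.exp C3) := by
        rw [← hexp2]
        gcongr
    _ = C1 * Real.exp C3 * (Y / (Real.sqrt (Real.log Y) * Real.sqrt (Real.log z))) := by
        have hq : Y / Real.log Y * Real.sqrt (Real.log Y) = Y / Real.sqrt (Real.log Y) := by
          rw [div_mul_eq_mul_div, div_eq_div_iff hlY.ne' hsY0.ne', mul_assoc, hsY]
        calc C1 * (Y / Real.log Y) *
            (Real.sqrt (Real.log Y) / Real.sqrt (Real.log z) * Real.exp C3)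
            = C1 * Real.exp C3 * ((Y / Real.log Y * Real.sqrt (Real.log Y)) /
              Real.sqrt (Real.log z)) := by ring
          _ = _ := by rw [hq, div_div]
    _ ≤ (C1 + 1) * Real.exp C3 * (Y * Real.sqrt 2 /
        (Real.sqrt (Real.log X) * Real.sqrt (Real.log z))) := by
        have h8 : Y / (Real.sqrt (Real.log Y) * Real.sqrt (Real.log z)) ≤
            Y * Real.sqrt 2 / (Real.sqrt (Real.log X) * Real.sqrt (Real.log z)) := by
          rw [div_le_div_iff₀ (by positivity) (by positivity)]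
          calc Y * (Real.sqrt (Real.log X) * Real.sqrt (Real.log z))
              ≤ Y * ((Real.sqrt 2 * Real.sqrt (Real.log Y)) * Real.sqrt (Real.log z)) := by gcongr
            _ = Y * Real.sqrt 2 * (Real.sqrt (Real.log Y) * Real.sqrt (Real.log z)) := by ring
        have h9 : C1 * Real.exp C3 ≤ (C1 + 1) * Real.exp C3 := by
          have := Real.exp_pos C3
          nlinarith
        exact mul_le_mul h9 h8 (by positivity) (by positivity)
    _ = (C1 + 1) * Real.exp C3 * Real.sqrt 2 * X /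
        (m' * Real.sqrt (Real.log X) * Real.sqrt (Real.log z)) := by
        rw [hY]
        field_simp

end Pool.Agent.C1D
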