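import Pool.Agent.C1D.Stmts

set_option autoImplicit false

/-!
# C1D, module G1: the combinatorics of the blocks
-/

namespace Pool.Agent.C1D

open Finset

namespace G1

/-- `p` lies in block `b` -/
def InB (z : ℕ) (θ : ℝ) (b p : ℕ) : Prop := Nb z θ b < p ∧ (p : ℝ) ≤ Nb z θ (b + 1)

lemma Nb_succ (z : ℕ) (θ : ℝ) (b : ℕ) : Nb z θ (b + 1) = (1 + θ) * Nb z θ b := by
  unfold Nb; ring

lemma Nb_nonneg {z : ℕ} {θ : ℝ} (hθ : 0 < θ) (b : ℕ) : 0 ≤ Nb z θ b := by
  unfold Nb; positivity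

lemma Nb_mono {z : ℕ} {θ : ℝ} (hθ : 0 < θ) {b b' : ℕ} (h : b ≤ b') : Nb z θ b ≤ Nb z θ b' := by
  unfold Nb
  exact mul_le_mul_of_nonneg_left (pow_le_pow_right₀ (by linarith) h) (Nat.cast_nonneg z)

lemma le_Nb {z : ℕ} {θ : ℝ} (hθ : 0 < θ) (b : ℕ) : (z : ℝ) ≤ Nb z θ b := by
  have := Nb_mono (z := z) hθ (Nat.zero_le b)
  simpa [Nb] using this

lemma mem_blk {z : ℕ} {θ : ℝ} (hθ : 0 < θ) {b c p : ℕ} :
    p ∈ blk z θ b c ↔ InB z θ b p ∧ p.Prime ∧ p % 16 = c := by
  unfold blk pr InB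
  rw [Finset.mem_filter, Finset.mem_Ioc, ← Nb_succ, Nat.floor_lt (Nb_nonneg hθ _),
    Nat.le_floor_iff (Nb_nonneg hθ _)]

lemma mem_un {z : ℕ} {θ : ℝ} (hθ : 0 < θ) {b p : ℕ} :
    p ∈ cls.biUnion (blk z θ b) ↔ InB z θ b p ∧ p.Prime ∧ (p % 8 = 1 ∨ p % 8 = 7) := by
  rw [Finset.mem_biUnion]
  constructor
  · rintro ⟨c, hc, hp⟩
    rw [mem_blk hθ] at hp
    refine ⟨hp.1, hp.2.1, ?_⟩
    have := hp.2.2
    simp only [cls, Finset.mem_insert, Finset.mem_singleton] at hc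
    omega
  · rintro ⟨h1, h2, h3⟩
    refine ⟨p % 16, ?_, (mem_blk hθ).2 ⟨h1, h2, rfl⟩⟩
    simp only [cls, Finset.mem_insert, Finset.mem_singleton]
    omega

lemma InB_unique {z : ℕ} {θ : ℝ} (hθ : 0 < θ) {b b' p : ℕ} (h : InB z θ b p)
    (h' : InB z θ b' p) : b = b' := by
  by_contra hne
  rcases Nat.lt_or_gt_of_ne hne with h1 | h1
  · have h4 := Nb_mono (z := z) hθ (Nat.succ_le_of_lt h1)
    have h2 := h.2
    have h3 := h'.1
    simp only [Nat.succ_eq_add_one] at h4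
    linarith
  · have h4 := Nb_mono (z := z) hθ (Nat.succ_le_of_lt h1)
    have h2 := h'.2
    have h3 := h.1
    simp only [Nat.succ_eq_add_one] at h4
    linarith

lemma InB_exists {z : ℕ} {θ : ℝ} (hz : 2 ≤ z) (hθ : 0 < θ) {p : ℕ} (hp : z < p) :
    ∃ b, InB z θ b p := by
  classical
  have hex : ∃ b, (p : ℝ) ≤ Nb z θ (b + 1) := by
    obtain ⟨n, hn⟩ := pow_unbounded_of_one_lt (p : ℝ) (by linarith : (1 : ℝ) < 1 + θ)
    refine ⟨n, ?_⟩
    unfold Nb
    have h1 : (1 + θ) ^ n ≤ (1 + θ) ^ (n + 1) := pow_le_pow_right₀ (by linarith) (Nat.le_succ n)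
    have hz' : (1 : ℝ) ≤ z := by exact_mod_cast (by omega : 1 ≤ z)
    have h2 : (0 : ℝ) ≤ (1 + θ) ^ (n + 1) := by positivity
    nlinarith [mul_le_mul_of_nonneg_right hz' h2]
  refine ⟨Nat.find hex, ?_, Nat.find_spec hex⟩
  rcases Nat.eq_zero_or_pos (Nat.find hex) with h0 | h0
  · rw [h0]
    simp only [Nb, pow_zero, mul_one]
    exact_mod_cast hp
  · have h1 := Nat.find_min hex (Nat.sub_lt h0 one_pos)
    have e : Nat.find hex - 1 + 1 = Nat.find hex := Nat.sub_add_cancel h0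
    rw [e] at h1
    exact not_le.1 h1

lemma sqf_prod {S : Finset ℕ} (h : ∀ q ∈ S, q.Prime) : Squarefree (∏ q ∈ S, q) := by
  refine Finset.squarefree_prod_of_pairwise_isCoprime (fun a ha b hb hab => ?_)
    fun a ha => (h a ha).squarefree
  have := (Nat.coprime_primes (h a ha) (h b hb)).mpr hab
  rwa [Nat.coprime_iff_isRelPrime] at this

lemma Sm_prop {z m' : ℕ} (h : m' ∈ Sm z) : F0 m' ∧ ∀ q, q.Prime → q ∣ m' → q ≤ z := by
  unfold Sm at h
  have hd := Nat.dvd_of_mem_divisors h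
  have hmem : ∀ q, q ∈ P8le z ↔ q ≤ z ∧ q.Prime ∧ (q % 8 = 1 ∨ q % 8 = 7) := by
    intro q
    unfold P8le
    rw [Finset.mem_filter, Finset.mem_range, Nat.lt_succ_iff]
  have hpr : ∀ q ∈ P8le z, q.Prime := fun q hq => ((hmem q).1 hq).2.1
  have hsq : Squarefree (∏ p ∈ P8le z, p) := sqf_prod hpr
  have key : ∀ q, q.Prime → q ∣ m' → q ∈ P8le z := by
    intro q hq hqd
    have h1 : q ∈ (∏ p ∈ P8le z, p).primeFactors :=
      Nat.mem_primeFactors.2 ⟨hq, hqd.trans hd, hsq.ne_zero⟩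
    rwa [Nat.primeFactors_prod hpr] at h1
  refine ⟨⟨hsq.squarefree_of_dvd hd, fun q hq hqd => ((hmem q).1 (key q hq hqd)).2.2⟩,
    fun q hq hqd => ((hmem q).1 (key q hq hqd)).1⟩

/-- the data of an element of a fibre -/
structure Dat (z : ℕ) (θ : ℝ) (m' : ℕ) (B : Finset ℕ) (p : B → ℕ) : Prop where
  hm : m' ∈ Sm z
  hθ : 0 < θ
  inb : ∀ b : B, InB z θ b (p b)
  pr : ∀ b : B, (p b).Prime
  cl : ∀ b : B, p b % 8 = 1 ∨ p b % 8 = 7

namespace Dat

variable {z : ℕ} {θ : ℝ} {m' : ℕ} {B : Finset ℕ} {p : B → ℕ}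

lemma inj (D : Dat z θ m' B p) : Function.Injective p := by
  intro b b' h
  have h1 := D.inb b
  rw [h] at h1
  exact Subtype.ext (InB_unique D.hθ h1 (D.inb b'))

lemma gtz (D : Dat z θ m' B p) (b : B) : z < p b := by
  have h1 := (D.inb b).1
  have h2 := le_Nb (z := z) D.hθ (b : ℕ)
  exact_mod_cast lt_of_le_of_lt h2 h1

lemma prod_eq (D : Dat z θ m' B p) : ∏ b, p b = ∏ q ∈ Finset.univ.image p, q := by
  rw [Finset.prod_image (fun x _ y _ h => D.inj h)]

lemma img_prime (D : Dat z θ m' B p) : ∀ q ∈ Finset.univ.image p, q.Prime := by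
  intro q hq
  obtain ⟨b, _, rfl⟩ := Finset.mem_image.1 hq
  exact D.pr b

lemma sq (D : Dat z θ m' B p) : Squarefree (∏ b, p b) := by
  rw [D.prod_eq]
  exact sqf_prod D.img_prime

lemma pf (D : Dat z θ m' B p) : (∏ b, p b).primeFactors = Finset.univ.image p := by
  rw [D.prod_eq]
  exact Nat.primeFactors_prod D.img_prime

lemma cop (D : Dat z θ m' B p) : m'.Coprime (∏ b, p b) := by
  refine Nat.Coprime.prod_right fun b _ => ?_
  rw [Nat.coprime_comm, (D.pr b).coprime_iff_not_dvd]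
  intro h
  have := (Sm_prop D.hm).2 _ (D.pr b) h
  have := D.gtz b
  omega

lemma pfm (D : Dat z θ m' B p) :
    (m' * ∏ b, p b).primeFactors = m'.primeFactors ∪ Finset.univ.image p := by
  rw [Nat.primeFactors_mul (Sm_prop D.hm).1.1.ne_zero D.sq.ne_zero, D.pf]

lemma f0 (D : Dat z θ m' B p) : F0 (m' * ∏ b, p b) := by
  refine ⟨(Nat.squarefree_mul D.cop).2 ⟨(Sm_prop D.hm).1.1, D.sq⟩, fun q hq hqd => ?_⟩
  rcases (hq.dvd_mul).1 hqd with h | h
  · exact (Sm_prop D.hm).1.2 q hq h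
  · have : q ∈ Finset.univ.image p := by
      rw [← D.pf]
      exact Nat.mem_primeFactors.2 ⟨hq, h, D.sq.ne_zero⟩
    obtain ⟨b, _, rfl⟩ := Finset.mem_image.1 this
    exact D.cl b

lemma small (D : Dat z θ m' B p) :
    (m' * ∏ b, p b).primeFactors.filter (· ≤ z) = m'.primeFactors := by
  rw [D.pfm]
  ext q
  simp only [Finset.mem_filter, Finset.mem_union]
  constructor
  · rintro ⟨h | h, hz⟩
    · exact h
    · obtain ⟨b, _, rfl⟩ := Finset.mem_image.1 h
      exact absurd (D.gtz b) (not_lt.2 hz)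
  · intro h
    exact ⟨Or.inl h, (Sm_prop D.hm).2 q (Nat.prime_of_mem_primeFactors h)
      (Nat.dvd_of_mem_primeFactors h)⟩

lemma large (D : Dat z θ m' B p) :
    (m' * ∏ b, p b).primeFactors.filter (z < ·) = Finset.univ.image p := by
  rw [D.pfm]
  ext q
  simp only [Finset.mem_filter, Finset.mem_union]
  constructor
  · rintro ⟨h | h, hz⟩
    · have := (Sm_prop D.hm).2 q (Nat.prime_of_mem_primeFactors h) (Nat.dvd_of_mem_primeFactors h)
      omega
    · exact h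
  · intro h
    refine ⟨Or.inr h, ?_⟩
    obtain ⟨b, _, rfl⟩ := Finset.mem_image.1 h
    exact D.gtz b

lemma smp_eq (D : Dat z θ m' B p) : smp z (m' * ∏ b, p b) = m' := by
  unfold smp
  rw [D.small, Nat.prod_primeFactors_of_squarefree (Sm_prop D.hm).1.1]

lemma memB (D : Dat z θ m' B p) (b : ℕ) :
    b ∈ B ↔ ∃ r ∈ (m' * ∏ b, p b).primeFactors.filter (z < ·), InB z θ b r := by
  rw [D.large]
  constructor
  · intro h
    exact ⟨p ⟨b, h⟩, Finset.mem_image_of_mem _ (Finset.mem_univ _), D.inb ⟨b, h⟩⟩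
  · rintro ⟨r, hr, hb⟩
    obtain ⟨b', _, rfl⟩ := Finset.mem_image.1 hr
    rw [InB_unique D.hθ hb (D.inb b')]
    exact b'.2

end Dat

lemma mem_fib {z : ℕ} {θ : ℝ} (hθ : 0 < θ) {m' : ℕ} (hm : m' ∈ Sm z) {B : Finset ℕ} {m : ℕ} :
    m ∈ fib z θ m' B ↔ ∃ p : B → ℕ, Dat z θ m' B p ∧ m' * ∏ b, p b = m ∧ m % 8 = 1 := by
  classical
  unfold fib
  rw [Finset.mem_filter, Finset.mem_image]
  constructor
  · rintro ⟨⟨p, hp, rfl⟩, h8⟩
    rw [Fintype.mem_piFinset] at hp
    exact ⟨p, ⟨hm, hθ, fun b => ((mem_un hθ).1 (hp b)).1, fun b => ((mem_un hθ).1 (hp b)).2.1,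
      fun b => ((mem_un hθ).1 (hp b)).2.2⟩, rfl, h8⟩
  · rintro ⟨p, D, rfl, h8⟩
    refine ⟨⟨p, ?_, rfl⟩, h8⟩
    rw [Fintype.mem_piFinset]
    exact fun b => (mem_un hθ).2 ⟨D.inb b, D.pr b, D.cl b⟩

lemma mem_pats {z : ℕ} {θ X : ℝ} {J : ℕ} {q : ℕ × Finset ℕ} :
    q ∈ pats z θ X J ↔ (q.1 ∈ Sm z ∧ q.2 ⊆ Finset.range (nblk z θ X)) ∧ J ≤ q.2.card ∧
      (q.1 : ℝ) ≤ Real.sqrt X ∧ (q.1 : ℝ) * ∏ b ∈ q.2, Nb z θ (b + 1) ≤ X := by
  unfold pats
  rw [Finset.mem_filter, Finset.mem_product, Finset.mem_powerset]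

lemma card_le_of {z K n : ℕ} {X Y : ℝ} (hz : 2 ≤ z) (hX : X < (z : ℝ) ^ (K + 1))
    (h1 : (z : ℝ) ^ n ≤ Y) (h2 : Y ≤ X) : n ≤ K := by
  have h3 : (z : ℝ) ^ n < (z : ℝ) ^ (K + 1) := lt_of_le_of_lt (h1.trans h2) hX
  have hz1 : (1 : ℝ) < z := by exact_mod_cast (by omega : 1 < z)
  have := (pow_lt_pow_iff_right₀ hz1).1 h3
  omega

lemma lt_nblk {z b : ℕ} {θ X : ℝ} (hz : 2 ≤ z) (hθ : 0 < θ) (hX : Nb z θ b < X) :
    b < nblk z θ X := by
  unfold nblk
  rw [Nat.lt_succ_iff]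
  apply Nat.le_floor
  have hz0 : (0 : ℝ) < z := by exact_mod_cast (by omega : 0 < z)
  have hl : 0 < Real.log (1 + θ) := Real.log_pos (by linarith)
  rw [le_div_iff₀ hl]
  have h1 : (1 + θ) ^ b ≤ X / z := by
    rw [le_div_iff₀ hz0]
    unfold Nb at hX
    linarith
  have h2 := Real.log_le_log (by positivity) h1
  rwa [Real.log_pow] at h2

end G1

open G1

open Classical in
theorem G1_proof : G1Stmt := by
  intro z θ X κ J K hz hθ hθ1 hJ hzX hXK hκ
  have hz1 : (1 : ℝ) ≤ z := by exact_mod_cast (by omega : 1 ≤ z)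
  have hX0 : 0 ≤ X := by linarith
  constructor
  · intro q hq
    have hq' := mem_pats.1 hq
    obtain ⟨⟨hm', hBr⟩, hJB, hsm, htop⟩ := hq'
    have hm1 : (1 : ℝ) ≤ q.1 := by
      have := (Sm_prop hm').1.1.ne_zero
      exact_mod_cast Nat.one_le_iff_ne_zero.2 this
    have hpow : (z : ℝ) ^ q.2.card ≤ (q.1 : ℝ) * ∏ b ∈ q.2, Nb z θ (b + 1) := by
      have h1 : (z : ℝ) ^ q.2.card ≤ ∏ b ∈ q.2, Nb z θ (b + 1) := by
        rw [← Finset.prod_const]
        exact Finset.prod_le_prod (fun _ _ => by positivity) fun b _ => le_Nb hθ _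
      have h2 : 0 ≤ ∏ b ∈ q.2, Nb z θ (b + 1) := Finset.prod_nonneg fun b _ => Nb_nonneg hθ _
      nlinarith
    refine ⟨card_le_of hz hXK hpow htop, ?_⟩
    intro m hm
    obtain ⟨p, D, hpm, h8⟩ := (mem_fib hθ hm').1 hm
    have hF0 : F0 m := by rw [← hpm]; exact D.f0
    have hsmp : smp z m = q.1 := by rw [← hpm]; exact D.smp_eq
    refine ⟨⟨?_, h8, hF0⟩, ?_, hsmp, ?_⟩
    · -- m > 1
      have hne : q.2.Nonempty := Finset.card_pos.1 (by omega)
      obtain ⟨b, hb⟩ := hne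
      have hpb := D.pr ⟨b, hb⟩
      have hdvd : p ⟨b, hb⟩ ∣ m := by
        rw [← hpm]
        exact (Finset.dvd_prod_of_mem p (Finset.mem_univ _)).mul_left _
      have hm0 : 0 < m := Nat.pos_of_ne_zero hF0.1.ne_zero
      exact lt_of_lt_of_le hpb.one_lt (Nat.le_of_dvd hm0 hdvd)
    · -- m ≤ X
      refine le_trans ?_ htop
      rw [← hpm]
      push_cast
      refine mul_le_mul_of_nonneg_left ?_ (by positivity)
      rw [← Finset.prod_coe_sort q.2 (fun b => Nb z θ (b + 1))]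
      exact Finset.prod_le_prod (fun _ _ => by positivity) fun b _ => (D.inb b).2
    · -- uniqueness
      intro q' hq' hm2
      have hq2 := mem_pats.1 hq'
      obtain ⟨p', D', hpm', _⟩ := (mem_fib hθ hq2.1.1).1 hm2
      have h1 : q'.1 = q.1 := by
        rw [← hsmp, ← hpm']
        exact D'.smp_eq.symm
      have h2 : q'.2 = q.2 := by
        ext b
        rw [D'.memB b, D.memB b, hpm, hpm']
      exact Prod.ext h1 h2
  · intro m hm hmX
    by_contra hcon
    push Not at hcon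
    obtain ⟨hno, hwz, hk, hsm, hblk⟩ := hcon
    have hm0 : 0 < m := by have := hm.1; omega
    have hm0' : m ≠ 0 := hm0.ne'
    have hm1 : (1 : ℝ) ≤ m := by exact_mod_cast hm0
    set S := m.primeFactors.filter (z < ·) with hS
    have hSmem : ∀ r, r ∈ S ↔ (r.Prime ∧ r ∣ m) ∧ z < r := by
      intro r
      rw [hS, Finset.mem_filter, Nat.mem_primeFactors]
      exact ⟨fun h => ⟨⟨h.1.1, h.1.2.1⟩, h.2⟩, fun h => ⟨⟨h.1.1, h.1.2, hm0'⟩, h.2⟩⟩
    have hex : ∀ r, ∃ b, z < r → InB z θ b r := by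
      intro r
      by_cases h : z < r
      · obtain ⟨b, hb⟩ := InB_exists hz hθ h
        exact ⟨b, fun _ => hb⟩
      · exact ⟨0, fun h' => absurd h' h⟩
    choose β hβ using hex
    have hinj : ∀ r ∈ S, ∀ r' ∈ S, β r = β r' → r = r' := by
      have key : ∀ r ∈ S, ∀ r' ∈ S, β r = β r' → ¬ r < r' := by
        intro r hr r' hr' hb hlt
        have h1 := (hSmem r).1 hr
        have h2 := (hSmem r').1 hr'
        have h3 := hβ r h1.2
        have h4 := hβ r' h2.2
        have hdvd : r * r' ∣ m :=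
          Nat.Coprime.mul_dvd_of_dvd_of_dvd
            ((Nat.coprime_primes h1.1.1 h2.1.1).2 hlt.ne) h1.1.2 h2.1.2
        have h5 := hblk r r' (β r) h1.1.1 h2.1.1 hlt hdvd h3.1
        rw [← hb] at h4
        exact absurd h4.2 (not_le.2 h5)
      intro r hr r' hr' hb
      rcases lt_trichotomy r r' with h | h | h
      · exact absurd h (key r hr r' hr' hb)
      · exact h
      · exact absurd h (key r' hr' r hr hb.symm)
    let B : Finset ℕ := S.image β
    have hp : ∀ b : B, ∃ r ∈ S, β r = b := fun b => Finset.mem_image.1 b.2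
    choose p hpS hpβ using hp
    have hsmem : smp z m ∈ Sm z := by
      unfold smp Sm
      rw [Nat.mem_divisors]
      constructor
      · apply Finset.prod_dvd_prod_of_subset
        intro r hr
        rw [Finset.mem_filter] at hr
        unfold P8le
        rw [Finset.mem_filter, Finset.mem_range, Nat.lt_succ_iff]
        exact ⟨hr.2, Nat.prime_of_mem_primeFactors hr.1,
          hm.2.2.2 r (Nat.prime_of_mem_primeFactors hr.1) (Nat.dvd_of_mem_primeFactors hr.1)⟩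
      · rw [Finset.prod_ne_zero_iff]
        intro r hr
        unfold P8le at hr
        exact ((Finset.mem_filter.1 hr).2.1).ne_zero
    have D : Dat z θ (smp z m) B p := by
      refine ⟨hsmem, hθ, fun b => ?_, fun b => ?_, fun b => ?_⟩
      · rw [← hpβ b]
        exact hβ (p b) ((hSmem _).1 (hpS b)).2
      · exact ((hSmem _).1 (hpS b)).1.1
      · exact hm.2.2.2 _ ((hSmem _).1 (hpS b)).1.1 ((hSmem _).1 (hpS b)).1.2
    have himg : Finset.univ.image p = S := by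
      ext r
      rw [Finset.mem_image]
      constructor
      · rintro ⟨b, _, rfl⟩
        exact hpS b
      · intro hr
        refine ⟨⟨β r, Finset.mem_image_of_mem β hr⟩, Finset.mem_univ _, ?_⟩
        exact hinj _ (hpS _) r hr (hpβ _)
    have hprod : smp z m * ∏ b, p b = m := by
      rw [D.prod_eq, himg]
      unfold smp
      conv_rhs => rw [← Nat.prod_primeFactors_of_squarefree hm.2.2.1]
      rw [← Finset.prod_filter_mul_prod_filter_not m.primeFactors (fun p => p ≤ z)]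
      congr 1
      apply Finset.prod_congr _ (fun _ _ => rfl)
      ext r
      simp only [hS, Finset.mem_filter, not_le]
    have hcardB : B.card = S.card := Finset.card_image_of_injOn fun r hr r' hr' h =>
      hinj r hr r' hr' h
    have hle : ∀ b : B, (p b : ℝ) ≤ m := by
      intro b
      exact_mod_cast Nat.le_of_dvd hm0 ((hSmem _).1 (hpS b)).1.2
    have hprodR : (smp z m : ℝ) * ∏ b, (p b : ℝ) = m := by
      rw [← hprod]
      push_cast
      rw [hprod]
    have hs1 : (1 : ℝ) ≤ smp z m := by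
      have := (Sm_prop hsmem).1.1.ne_zero
      exact_mod_cast Nat.one_le_iff_ne_zero.2 this
    have hPn : 0 ≤ ∏ b, (p b : ℝ) := Finset.prod_nonneg fun _ _ => by positivity
    have hcard : B.card ≤ K := by
      refine card_le_of hz hXK (Y := (m : ℝ)) ?_ hmX
      have h1 : (z : ℝ) ^ B.card ≤ ∏ b : B, (p b : ℝ) := by
        have : (z : ℝ) ^ B.card = ∏ _b : B, (z : ℝ) := by
          rw [Finset.prod_const, Finset.card_univ, Fintype.card_coe]
        rw [this]
        exact Finset.prod_le_prod (fun _ _ => by positivity)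
          fun b _ => by exact_mod_cast (D.gtz b).le
      rw [← hprodR]
      nlinarith
    apply hno (smp z m, B)
    · rw [mem_pats]
      refine ⟨⟨hsmem, ?_⟩, ?_, hsm, ?_⟩
      · intro b hb
        rw [Finset.mem_range]
        refine lt_nblk hz hθ ?_
        have h1 := (D.inb ⟨b, hb⟩).1
        have h2 := hle ⟨b, hb⟩
        linarith
      · show J ≤ B.card
        rw [hcardB]
        exact hwz
      · show (smp z m : ℝ) * ∏ b ∈ B, Nb z θ (b + 1) ≤ X
        have h1 : ∏ b ∈ B, Nb z θ (b + 1) ≤ (1 + θ) ^ B.card * ∏ b, (p b : ℝ) := by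
          rw [← Finset.prod_coe_sort B (fun b => Nb z θ (b + 1))]
          have : (1 + θ) ^ B.card * ∏ b, (p b : ℝ) = ∏ b : B, ((1 + θ) * (p b : ℝ)) := by
            rw [Finset.prod_mul_distrib, Finset.prod_const, Finset.card_univ, Fintype.card_coe]
          rw [this]
          refine Finset.prod_le_prod (fun b _ => Nb_nonneg hθ _) fun b _ => ?_
          rw [Nb_succ]
          exact mul_le_mul_of_nonneg_left (D.inb b).1.le (by linarith)
        have h2 : (1 + θ) ^ B.card ≤ (1 + θ) ^ (K + 1) :=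
          pow_le_pow_right₀ (by linarith) (by omega)
        have h3 : (smp z m : ℝ) * ∏ b ∈ B, Nb z θ (b + 1) ≤ (1 + θ) ^ (K + 1) * m := by
          calc (smp z m : ℝ) * ∏ b ∈ B, Nb z θ (b + 1)
              ≤ (smp z m : ℝ) * ((1 + θ) ^ B.card * ∏ b, (p b : ℝ)) :=
                mul_le_mul_of_nonneg_left h1 (by linarith)
            _ = (1 + θ) ^ B.card * m := by rw [← hprodR]; ring
            _ ≤ (1 + θ) ^ (K + 1) * m := mul_le_mul_of_nonneg_right h2 (by linarith)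
        refine h3.trans ?_
        have hpos : 0 < (1 + θ) ^ (K + 1) := by positivity
        have h4 : (m : ℝ) ≤ X * (1 + θ)⁻¹ ^ (K + 1) :=
          hk.trans (mul_le_mul_of_nonneg_left hκ hX0)
        calc (1 + θ) ^ (K + 1) * (m : ℝ) ≤ (1 + θ) ^ (K + 1) * (X * (1 + θ)⁻¹ ^ (K + 1)) :=
              mul_le_mul_of_nonneg_left h4 hpos.le
          _ = X := by
            rw [inv_pow]
            field_simp
    · show m ∈ fib z θ (smp z m) B
      rw [mem_fib hθ hsmem]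
      exact ⟨p, D, hprod, hm.2.1⟩

end Pool.Agent.C1D
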