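import Pool.Agent.C1D.Stmts

set_option autoImplicit false

/-!
# C1D G4: the density theorem for `GoodN` from the other modules
-/

namespace Pool.Agent.C1D

open Finset

namespace G4

lemma A1N_nonneg (m : ℕ) : 0 ≤ A1N m := by
  unfold A1N A1; positivity

lemma A2N_nonneg (m : ℕ) : 0 ≤ A2N m := by
  unfold A2N A2; positivity

lemma SX_nonneg {X : ℝ} (hX : 0 ≤ X) : 0 ≤ SX X := by
  unfold SX; positivity

lemma goodCard_nonneg (S : Finset ℕ) : 0 ≤ goodCard S := by unfold goodCard; positivity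

lemma goodCard_le (S : Finset ℕ) : goodCard S ≤ S.card := by
  classical
  unfold goodCard
  exact Nat.cast_le.mpr (card_filter_le _ _)

lemma abs_goodCard_sub_le (h0 : 0 ≤ gam) (h1 : gam ≤ 1) (S : Finset ℕ) :
    |goodCard S - gam * S.card| ≤ S.card := by
  have a1 := goodCard_nonneg S
  have a2 := goodCard_le S
  have a3 : (0 : ℝ) ≤ S.card := Nat.cast_nonneg _
  have a4 : gam * (S.card : ℝ) ≤ S.card := by nlinarith
  have a5 : 0 ≤ gam * (S.card : ℝ) := mul_nonneg h0 a3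
  rw [abs_le]; constructor <;> linarith

lemma goodCard_union {S T : Finset ℕ} (h : Disjoint S T) :
    goodCard (S ∪ T) = goodCard S + goodCard T := by
  classical
  unfold goodCard
  rw [filter_union, card_union_of_disjoint (disjoint_filter_filter h)]
  push_cast; rfl

lemma goodCard_biUnion {α : Type*} [DecidableEq α] (P : Finset α) (f : α → Finset ℕ)
    (h : ∀ a ∈ P, ∀ b ∈ P, a ≠ b → Disjoint (f a) (f b)) :
    goodCard (P.biUnion f) = ∑ a ∈ P, goodCard (f a) := by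
  classical
  unfold goodCard
  rw [filter_biUnion, card_biUnion]
  · push_cast; rfl
  · intro a ha b hb hab
    exact disjoint_filter_filter (h a ha b hb hab)

/-- the powers of `z = ⌊X^η⌋` beat `X` -/
lemma lt_zz_pow {η : ℝ} (hη : 0 < η) (K : ℕ) (hK : 1 / η ≤ K) :
    ∃ X0 : ℝ, ∀ X : ℝ, X0 ≤ X → X < ((zz η X : ℕ) : ℝ) ^ (K + 1) := by
  have h1 : Filter.Tendsto (fun X : ℝ => X ^ η) Filter.atTop Filter.atTop :=
    tendsto_rpow_atTop hη
  obtain ⟨X1, hX1⟩ := Filter.eventually_atTop.mp (h1.eventually_ge_atTop (2 ^ (K + 2)))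
  refine ⟨max X1 1, fun X hX => ?_⟩
  have hX1' : X1 ≤ X := (le_max_left _ _).trans hX
  have hX0 : (1 : ℝ) ≤ X := (le_max_right _ _).trans hX
  have h2 := hX1 X hX1'
  have h2' : (2 : ℝ) ≤ X ^ η := by
    refine le_trans ?_ h2
    have : (2 : ℝ) ^ 1 ≤ 2 ^ (K + 2) := pow_le_pow_right₀ (by norm_num) (by omega)
    simpa using this
  have h3 : X ^ η / 2 ≤ (zz η X : ℝ) := by
    have := Nat.sub_one_lt_floor (X ^ η)
    unfold zz
    linarith
  have h4 : (X ^ η / 2) ^ (K + 1) ≤ (zz η X : ℝ) ^ (K + 1) :=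
    pow_le_pow_left₀ (by positivity) h3 _
  refine lt_of_lt_of_le ?_ h4
  rw [div_pow, pow_succ, pow_succ]
  have h5 : X ≤ (X ^ η) ^ K := by
    rw [← Real.rpow_natCast (X ^ η) K, ← Real.rpow_mul (by linarith)]
    have : (1 : ℝ) ≤ η * K := by
      rw [div_le_iff₀ hη] at hK; linarith
    calc X = X ^ (1 : ℝ) := (Real.rpow_one X).symm
      _ ≤ X ^ (η * K) := Real.rpow_le_rpow_of_exponent_le hX0 this
  rw [lt_div_iff₀ (by positivity)]
  have h6 : (2 : ℝ) ^ K * 2 < X ^ η := by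
    refine lt_of_lt_of_le ?_ h2
    rw [← pow_succ]
    exact pow_lt_pow_right₀ (by norm_num) (by omega)
  calc X * (2 ^ K * 2) < X * X ^ η := by
        apply mul_lt_mul_of_pos_left h6; linarith
    _ ≤ (X ^ η) ^ K * X ^ η := by
        apply mul_le_mul_of_nonneg_right h5; positivity

lemma zz_tendsto {η : ℝ} (hη : 0 < η) (z0 : ℕ) : ∃ X0 : ℝ, ∀ X : ℝ, X0 ≤ X → z0 ≤ zz η X := by
  have h1 : Filter.Tendsto (fun X : ℝ => X ^ η) Filter.atTop Filter.atTop :=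
    tendsto_rpow_atTop hη
  obtain ⟨X1, hX1⟩ := Filter.eventually_atTop.mp (h1.eventually_ge_atTop (z0 : ℝ))
  exact ⟨X1, fun X hX => Nat.le_floor (hX1 X hX)⟩

lemma zz_sq_le {η X : ℝ} (hη : η ≤ 1 / 2) (hX : 1 ≤ X) : ((zz η X : ℕ) : ℝ) ^ 2 ≤ X := by
  have h1 : (zz η X : ℝ) ≤ X ^ η := Nat.floor_le (by positivity)
  calc ((zz η X : ℕ) : ℝ) ^ 2 ≤ (X ^ η) ^ 2 := pow_le_pow_left₀ (by positivity) h1 2
    _ = X ^ (η * 2) := by
        rw [← Real.rpow_natCast (X ^ η) 2, ← Real.rpow_mul (by linarith)]; norm_num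
    _ ≤ X ^ (1 : ℝ) := Real.rpow_le_rpow_of_exponent_le hX (by linarith)
    _ = X := Real.rpow_one X

lemma exists_theta {κ : ℝ} (h0 : 0 < κ) (K : ℕ) : ∃ θ : ℝ, 0 < θ ∧ θ < 1 ∧
    1 - κ ≤ (1 + θ)⁻¹ ^ (K + 1) := by
  refine ⟨min (κ / (K + 1)) (1 / 2), by positivity, ?_, ?_⟩
  · exact lt_of_le_of_lt (min_le_right _ _) (by norm_num)
  · set θ := min (κ / (K + 1)) (1 / 2) with hθ
    have hθ0 : 0 < θ := by positivity
    have hθ1 : θ ≤ 1 / 2 := min_le_right _ _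
    have hθ2 : θ * (K + 1) ≤ κ := by
      have : θ ≤ κ / (K + 1) := min_le_left _ _
      rwa [le_div_iff₀ (by positivity)] at this
    have h1 : 1 - θ ≤ (1 + θ)⁻¹ := by
      rw [← one_div, le_div_iff₀ (by linarith)]
      nlinarith
    have h2 : (1 - θ) ^ (K + 1) ≤ (1 + θ)⁻¹ ^ (K + 1) := pow_le_pow_left₀ (by linarith) h1 _
    refine le_trans ?_ h2
    have h3 := one_add_mul_le_pow (a := -θ) (by linarith) (K + 1)
    push_cast at h3
    have : (1 : ℝ) + (K + 1) * -θ = 1 - θ * (K + 1) := by ring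
    rw [this] at h3
    have h4 : (1 : ℝ) + -θ = 1 - θ := by ring
    rw [h4] at h3
    linarith

/-- sums over the patterns of a function of the smooth part -/
lemma sum_pats_le (h7 : E7Stmt) : ∃ C : ℝ, 0 < C ∧ ∀ (z : ℕ) (X θ : ℝ) (J : ℕ), 2 ≤ z →
    (z : ℝ) ^ 2 ≤ X →
    (∀ q ∈ pats z θ X J, ∀ m ∈ fib z θ q.1 q.2, FF m ∧ (m : ℝ) ≤ X ∧ smp z m = q.1 ∧
      ∀ q' ∈ pats z θ X J, m ∈ fib z θ q'.1 q'.2 → q' = q) →
    ∀ h : ℕ → ℝ, (∀ n, 0 ≤ h n) →
      ∑ q ∈ pats z θ X J, h q.1 * (fib z θ q.1 q.2).card ≤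
        C * SX X / Real.sqrt (Real.log z) * ∑ m ∈ Sm z, h m / m := by
  classical
  obtain ⟨C, hC, h7⟩ := h7
  refine ⟨C, hC, fun z X θ J hz hzX hP h hh => ?_⟩
  have hX1 : (1 : ℝ) ≤ X := by
    have : (2 : ℝ) ≤ z := by exact_mod_cast hz
    nlinarith
  -- group by the first coordinate
  have hmap : ∀ q ∈ pats z θ X J, q.1 ∈ (Sm z).filter fun m : ℕ => (m : ℝ) ≤ Real.sqrt X := by
    intro q hq
    simp only [pats, mem_filter, mem_product, mem_powerset] at hq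
    rw [mem_filter]
    exact ⟨hq.1.1, hq.2.2.1⟩
  rw [← sum_fiberwise_of_maps_to hmap]
  have hstep : ∀ m' ∈ (Sm z).filter (fun m : ℕ => (m : ℝ) ≤ Real.sqrt X),
      ∑ q ∈ (pats z θ X J).filter (fun q => q.1 = m'), h q.1 * (fib z θ q.1 q.2).card ≤
        h m' * (C * X / (m' * Real.sqrt (Real.log X) * Real.sqrt (Real.log z))) := by
    intro m' hm'
    rw [mem_filter] at hm'
    have e1 : ∑ q ∈ (pats z θ X J).filter (fun q => q.1 = m'),
        h q.1 * ((fib z θ q.1 q.2).card : ℝ) =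
        h m' * ∑ q ∈ (pats z θ X J).filter (fun q => q.1 = m'), ((fib z θ q.1 q.2).card : ℝ) := by
      rw [mul_sum]
      refine sum_congr rfl fun q hq => ?_
      rw [mem_filter] at hq
      rw [hq.2]
    rw [e1]
    refine mul_le_mul_of_nonneg_left ?_ (hh m')
    refine le_trans ?_ (h7 z X hz hzX m' hm'.1 hm'.2)
    rw [← Nat.cast_sum, ← card_biUnion]
    · refine Nat.cast_le.mpr (card_le_card ?_)
      intro m hm
      rw [mem_biUnion] at hm
      obtain ⟨q, hq, hm⟩ := hm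
      rw [mem_filter] at hq
      obtain ⟨a1, a2, a3, -⟩ := hP q hq.1 m hm
      rw [mem_filter, mem_Icc]
      refine ⟨⟨a1.1.le, Nat.le_floor a2⟩, a1.2.2, by rw [a3, hq.2]⟩
    · intro q hq q' hq' hne
      rw [mem_coe, mem_filter] at hq hq'
      rw [Function.onFun, disjoint_left]
      intro m hm hm'
      exact hne ((hP q hq.1 m hm).2.2.2 q' hq'.1 hm').symm
  refine (sum_le_sum hstep).trans ?_
  have hstep2 : ∑ m' ∈ (Sm z).filter (fun m : ℕ => (m : ℝ) ≤ Real.sqrt X),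
      h m' * (C * X / (m' * Real.sqrt (Real.log X) * Real.sqrt (Real.log z))) ≤
      ∑ m' ∈ Sm z, h m' * (C * X / (m' * Real.sqrt (Real.log X) * Real.sqrt (Real.log z))) := by
    refine sum_le_sum_of_subset_of_nonneg (filter_subset _ _) fun m' _ _ => ?_
    have := hh m'
    have hX0 : 0 ≤ X := by linarith
    positivity
  refine hstep2.trans (le_of_eq ?_)
  rw [mul_sum]
  refine sum_congr rfl fun m' _ => ?_
  unfold SX
  rw [div_eq_mul_inv, div_eq_mul_inv, div_eq_mul_inv, div_eq_mul_inv, mul_inv, mul_inv]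
  ring

end G4

open G4 in
open Classical in
/-- [G4] from the other modules. -/
theorem G4_of (hB3 : B3Stmt) (hB4 : B4Stmt) (hB5 : B5Stmt) (hD4 : D4Stmt) (hE2 : E2Stmt)
    (hE3 : E3Stmt) (hE4 : E4Stmt) (hE5 : E5Stmt) (hE6 : E6Stmt) (hE7 : E7Stmt) (hL0 : L0Stmt)
    (hG1 : G1Stmt) (hG2 : G2Stmt) (hG3 : G3Stmt) : G4Stmt := by
  intro δ hδ
  obtain ⟨-, ⟨c0, X1, hc0, hNF⟩⟩ := hE2
  obtain ⟨C7, hC7, h7⟩ := sum_pats_le hE7
  obtain ⟨C3, h3⟩ := hB3
  have hgam0 : 0 ≤ gam := by linarith [hL0.2.2.2]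
  have hgam1 : gam ≤ 1 := (hL0.2.1 0).trans (hL0.2.2.1 0)
  set ε : ℝ := c0 * δ / 16 with hε
  have hε0 : 0 < ε := by positivity
  -- r0
  obtain ⟨r0, hr0⟩ : ∃ r0 : ℕ, C7 * (2 * |C3|) / 2 ^ r0 ≤ ε := by
    obtain ⟨r0, hr0⟩ := pow_unbounded_of_one_lt (C7 * (2 * |C3|) / ε) (by norm_num : (1 : ℝ) < 2)
    refine ⟨r0, ?_⟩
    rw [div_le_iff₀ (by positivity)]
    rw [div_lt_iff₀ hε0] at hr0
    linarith
  obtain ⟨J, hJ2, hG2⟩ := hG2 (δ / 4) (by positivity) r0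
  obtain ⟨η3, hη3, hE3⟩ := hE3 J ε hε0
  obtain ⟨η6, hη6, hE6⟩ := hE6 ε hε0
  set η : ℝ := min (min η3 η6) (1 / 2) with hη
  have hη0 : 0 < η := by positivity
  have hηh : η ≤ 1 / 2 := min_le_right _ _
  have hη1 : η < 1 := by linarith
  obtain ⟨X3, hX3⟩ := hE3 η hη0 ((min_le_left _ _).trans (min_le_left _ _))
  obtain ⟨X6, hX6⟩ := hE6 η hη0 ((min_le_left _ _).trans (min_le_right _ _))
  set K : ℕ := ⌈1 / η⌉₊ with hK
  have hKη : 1 / η ≤ K := Nat.le_ceil _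
  obtain ⟨κ, hκ0, hκ1, X5, hX5⟩ := hE5 ε hε0
  obtain ⟨θ, hθ0, hθ1, hθκ⟩ := exists_theta hκ0 K
  obtain ⟨E0, z0, hG2⟩ := hG2 K θ hθ0 hθ1
  obtain ⟨z4, hz4⟩ := hB4 (ε / (2 * C7)) (by positivity)
  obtain ⟨z5, hz5⟩ := hB5 E0 (ε / C7) (by positivity)
  obtain ⟨XD, hXD⟩ := hD4 η hη0 hη1 θ hθ0 hθ1 ε hε0
  obtain ⟨X4, hX4⟩ := hE4 η hη0 hη1 θ hθ0 hθ1 ε hε0
  obtain ⟨Xa, hXa⟩ := lt_zz_pow hη0 K hKη
  obtain ⟨Xb, hXb⟩ := zz_tendsto hη0 (max (max z0 z4) (max z5 2))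
  refine ⟨max (max (max X1 X3) (max X6 X5)) (max (max XD X4) (max (max Xa Xb) 1)),
    fun X hX => ?_⟩
  simp only [max_le_iff] at hX
  obtain ⟨⟨⟨hXX1, hXX3⟩, hXX6, hXX5⟩, ⟨hXXD, hXX4⟩, ⟨hXXa, hXXb⟩, hXX0⟩ := hX
  specialize hNF X hXX1
  specialize hX3 X hXX3
  specialize hX6 X hXX6
  specialize hX5 X hXX5
  specialize hXD X hXXD
  specialize hX4 X hXX4
  specialize hXa X hXXa
  specialize hXb X hXXb
  set z : ℕ := zz η X with hz
  simp only [max_le_iff] at hXb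
  obtain ⟨⟨hzz0, hzz4⟩, hzz5, hzz2⟩ := hXb
  specialize h3 z hzz2
  specialize hz4 z hzz4
  specialize hz5 z hzz5
  specialize hG2 z hzz0
  have hzsq : (z : ℝ) ^ 2 ≤ X := zz_sq_le hηh hXX0
  have hz2R : (2 : ℝ) ≤ z := by exact_mod_cast hzz2
  have hzX : (z : ℝ) ≤ X := by nlinarith
  obtain ⟨hP1, hP2⟩ := hG1 z θ X κ J K hzz2 hθ0 hθ1 (by omega) hzX hXa hθκ
  have hP1' : ∀ q ∈ pats z θ X J, ∀ m ∈ fib z θ q.1 q.2, FF m ∧ (m : ℝ) ≤ X ∧ smp z m = q.1 ∧
      ∀ q' ∈ pats z θ X J, m ∈ fib z θ q'.1 q'.2 → q' = q := fun q hq => (hP1 q hq).2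
  have hErr := hG3 z θ X J hzz2 hθ0 hθ1 hzX
  set Pt := pats z θ X J with hPt
  set S : Finset ℕ := (Icc 1 ⌊X⌋₊).filter FF with hS
  set U : Finset ℕ := Pt.biUnion fun q => fib z θ q.1 q.2 with hU
  have hdisj : ∀ a ∈ Pt, ∀ b ∈ Pt, a ≠ b → Disjoint (fib z θ a.1 a.2) (fib z θ b.1 b.2) := by
    intro a ha b hb hab
    rw [disjoint_left]
    intro m hm hm'
    exact hab ((hP1' a ha m hm).2.2.2 b hb hm').symm
  have hUS : U ⊆ S := by
    intro m hm
    rw [hU, mem_biUnion] at hm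
    obtain ⟨q, hq, hm⟩ := hm
    obtain ⟨a1, a2, -, -⟩ := hP1' q hq m hm
    rw [hS, mem_filter, mem_Icc]
    exact ⟨⟨a1.1.le, Nat.le_floor a2⟩, a1⟩
  have hSX0 : 0 ≤ SX X := SX_nonneg (by linarith)
  -- the exceptional set
  have hexc : ((S \ U).card : ℝ) ≤ 4 * ε * SX X := by
    have hsub : S \ U ⊆ ((Icc 1 ⌊X⌋₊).filter fun m => F0 m ∧ wz z m < J) ∪
        (((Icc 1 ⌊X⌋₊).filter fun m => F0 m ∧ X * (1 - κ) < m) ∪
        (((Icc 1 ⌊X⌋₊).filter fun m => F0 m ∧ Real.sqrt X < (smp z m : ℝ)) ∪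
        ((Icc 1 ⌊X⌋₊).filter fun m => ∃ p q b : ℕ, p.Prime ∧ q.Prime ∧ p < q ∧ p * q ∣ m ∧
          Nb z θ b < p ∧ (q : ℝ) ≤ Nb z θ (b + 1)))) := by
      intro m hm
      rw [mem_sdiff, hS, mem_filter] at hm
      obtain ⟨⟨hm1, hm2⟩, hm3⟩ := hm
      have hmX : (m : ℝ) ≤ X := by
        rw [mem_Icc] at hm1
        exact (Nat.cast_le.mpr hm1.2).trans (Nat.floor_le (by linarith))
      simp only [mem_union, mem_filter]
      rcases hP2 m hm2 hmX with h | h | h | h | h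
      · exfalso
        obtain ⟨q, hq, hmq⟩ := h
        exact hm3 (mem_biUnion.mpr ⟨q, hq, hmq⟩)
      · exact Or.inl ⟨hm1, hm2.2.2, h⟩
      · exact Or.inr (Or.inl ⟨hm1, hm2.2.2, h⟩)
      · exact Or.inr (Or.inr (Or.inl ⟨hm1, hm2.2.2, h⟩))
      · exact Or.inr (Or.inr (Or.inr ⟨hm1, h⟩))
    have h1 := (card_le_card hsub).trans ((card_union_le _ _).trans
      (Nat.add_le_add_left ((card_union_le _ _).trans
        (Nat.add_le_add_left (card_union_le _ _) _)) _))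
    have h2 : ((S \ U).card : ℝ) ≤ _ := Nat.cast_le.mpr h1
    push_cast at h2
    linarith
  -- split
  have hsplit : S = U ∪ (S \ U) := by rw [union_sdiff_of_subset hUS]
  have hgoodS : (((Icc 1 ⌊X⌋₊).filter fun m => FF m ∧ GoodN m).card : ℝ) = goodCard S := by
    unfold goodCard
    rw [hS, filter_filter]
  have hNFS : NF X = (S.card : ℝ) := rfl
  have hcardS : (S.card : ℝ) = U.card + (S \ U).card := by
    rw [← Nat.cast_add, ← card_union_of_disjoint disjoint_sdiff, ← hsplit]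
  have hgS : goodCard S = goodCard U + goodCard (S \ U) := by
    conv_lhs => rw [hsplit]
    exact goodCard_union disjoint_sdiff
  have hUcard : (U.card : ℝ) = ∑ q ∈ Pt, ((fib z θ q.1 q.2).card : ℝ) := by
    rw [hU, card_biUnion fun a ha b hb hab => hdisj a ha b hb hab]
    push_cast; rfl
  have hUgood : goodCard U = ∑ q ∈ Pt, goodCard (fib z θ q.1 q.2) :=
    goodCard_biUnion Pt _ hdisj
  -- the weight
  obtain ⟨h, hh⟩ : ∃ h : ℕ → ℝ, ∀ m', h m' =
      2 * A1N m' / 2 ^ r0 + 2 * A2N m' + (if w7 m' < E0 then 1 else 0) := ⟨_, fun _ => rfl⟩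
  have hh0 : ∀ n, 0 ≤ h n := by
    intro n
    have := A1N_nonneg n
    have := A2N_nonneg n
    rw [hh]
    have h1 : (0 : ℝ) ≤ if w7 n < E0 then 1 else 0 := by split_ifs <;> norm_num
    positivity
  have hfib : ∀ q ∈ Pt, |goodCard (fib z θ q.1 q.2) - gam * (fib z θ q.1 q.2).card| ≤
      δ / 4 * (fib z θ q.1 q.2).card + h q.1 * (fib z θ q.1 q.2).card + errF z θ q.1 q.2 := by
    intro q hq
    obtain ⟨hqS, hqJ⟩ : q.1 ∈ Sm z ∧ J ≤ q.2.card := by
      have hq' := hq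
      rw [hPt] at hq'
      simp only [pats, mem_filter, mem_product, mem_powerset] at hq'
      exact ⟨hq'.1.1, hq'.2.1⟩
    have herr0 : 0 ≤ errF z θ q.1 q.2 := by
      unfold errF
      refine sum_nonneg fun c _ => sum_nonneg fun j _ => sum_nonneg fun p _ => Real.sqrt_nonneg _
    have hcard0 : (0 : ℝ) ≤ (fib z θ q.1 q.2).card := Nat.cast_nonneg _
    by_cases hw : w7 q.1 < E0
    · have h1 := abs_goodCard_sub_le hgam0 hgam1 (fib z θ q.1 q.2)
      have h2 : (1 : ℝ) ≤ h q.1 := by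
        have := A1N_nonneg q.1
        have := A2N_nonneg q.1
        rw [hh, if_pos hw]
        have : (0 : ℝ) ≤ 2 * A1N q.1 / 2 ^ r0 + 2 * A2N q.1 := by positivity
        linarith
      have h3 : (0 : ℝ) ≤ δ / 4 * (fib z θ q.1 q.2).card := mul_nonneg (by linarith) hcard0
      have h4 : ((fib z θ q.1 q.2).card : ℝ) ≤ h q.1 * (fib z θ q.1 q.2).card := by
        have := mul_le_mul_of_nonneg_right h2 hcard0
        rwa [one_mul] at this
      linarith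
    · have h1 := hG2 q.1 hqS (not_lt.mp hw) q.2 hqJ ((hP1 q hq).1)
      refine h1.trans (le_of_eq ?_)
      rw [hh, if_neg hw]
      ring
  have hmain : |goodCard U - gam * U.card| ≤
      δ / 4 * NF X + ∑ q ∈ Pt, h q.1 * (fib z θ q.1 q.2).card + Err z θ X := by
    rw [hUgood, hUcard, mul_sum, ← sum_sub_distrib]
    refine (abs_sum_le_sum_abs _ _).trans ((sum_le_sum hfib).trans ?_)
    rw [sum_add_distrib, sum_add_distrib, ← mul_sum, ← hUcard]
    have : (U.card : ℝ) ≤ NF X := by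
      rw [hNFS]; exact Nat.cast_le.mpr (card_le_card hUS)
    have : δ / 4 * (U.card : ℝ) ≤ δ / 4 * NF X := mul_le_mul_of_nonneg_left this (by positivity)
    linarith
  have hlogz : 0 < Real.log z := Real.log_pos (by linarith)
  have hsq : 0 < Real.sqrt (Real.log z) := Real.sqrt_pos.mpr hlogz
  have hweights : ∑ m ∈ Sm z, h m / m ≤ (2 * |C3| / 2 ^ r0 + 2 * (ε / (2 * C7)) + ε / C7) *
      Real.sqrt (Real.log z) := by
    have e1 : ∑ m ∈ Sm z, h m / m = 2 / 2 ^ r0 * ∑ m ∈ Sm z, A1N m / m +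
        2 * ∑ m ∈ Sm z, A2N m / m + ∑ m ∈ (Sm z).filter (fun m => w7 m < E0), (1 : ℝ) / m := by
      rw [sum_filter, mul_sum, mul_sum, ← sum_add_distrib, ← sum_add_distrib]
      refine sum_congr rfl fun m _ => ?_
      rw [hh]
      split_ifs <;> ring
    rw [e1]
    have a1 : 2 / 2 ^ r0 * ∑ m ∈ Sm z, A1N m / m ≤
        2 / 2 ^ r0 * (|C3| * Real.sqrt (Real.log z)) := by
      refine mul_le_mul_of_nonneg_left (h3.trans ?_) (by positivity)
      exact mul_le_mul_of_nonneg_right (le_abs_self _) hsq.le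
    have e2 : (2 * |C3| / 2 ^ r0 + 2 * (ε / (2 * C7)) + ε / C7) * Real.sqrt (Real.log z) =
      2 / 2 ^ r0 * (|C3| * Real.sqrt (Real.log z)) +
        2 * (ε / (2 * C7) * Real.sqrt (Real.log z)) + ε / C7 * Real.sqrt (Real.log z) := by ring
    rw [e2]
    linarith
  have hsum := h7 z X θ J hzz2 hzsq hP1' h hh0
  have hsum2 : ∑ q ∈ Pt, h q.1 * (fib z θ q.1 q.2).card ≤ 3 * ε * SX X := by
    refine hsum.trans ?_
    have hc : 0 ≤ C7 * SX X / Real.sqrt (Real.log z) := by positivity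
    refine (mul_le_mul_of_nonneg_left hweights hc).trans ?_
    have e3 : C7 * SX X / Real.sqrt (Real.log z) *
        ((2 * |C3| / 2 ^ r0 + 2 * (ε / (2 * C7)) + ε / C7) * Real.sqrt (Real.log z)) =
        SX X * (C7 * (2 * |C3|) / 2 ^ r0 + 2 * ε) := by
      field_simp
      ring
    rw [e3]
    have e7 := mul_le_mul_of_nonneg_left hr0 hSX0
    have e8 : SX X * (C7 * (2 * |C3|) / 2 ^ r0 + 2 * ε) =
      SX X * (C7 * (2 * |C3|) / 2 ^ r0) + 2 * (SX X * ε) := by ring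
    rw [e8]
    linarith
  have hSXNF : SX X ≤ NF X / c0 := by rw [le_div_iff₀ hc0]; linarith
  rw [hgoodS]
  have hfin : |goodCard S - gam * NF X| ≤ |goodCard U - gam * U.card| + (S \ U).card := by
    rw [hNFS, hcardS, hgS]
    have a3 := abs_goodCard_sub_le hgam0 hgam1 (S \ U)
    have e4 : goodCard U + goodCard (S \ U) - gam * (↑U.card + ↑(S \ U).card) =
      (goodCard U - gam * U.card) + (goodCard (S \ U) - gam * (S \ U).card) := by ring
    rw [e4]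
    exact (abs_add_le _ _).trans (by linarith)
  have hNF0 : 0 ≤ NF X := by rw [hNFS]; exact Nat.cast_nonneg _
  have htot : |goodCard S - gam * NF X| ≤ δ / 4 * NF X + 8 * ε * SX X := by
    have : Err z θ X ≤ ε * SX X := hXD
    linarith
  refine htot.trans ?_
  have e5 : 8 * ε * SX X ≤ 8 * ε * (NF X / c0) := mul_le_mul_of_nonneg_left hSXNF (by positivity)
  have e6 : 8 * ε * (NF X / c0) = δ / 2 * NF X := by
    rw [hε]; field_simp; ring
  have e9 : 0 ≤ δ / 4 * NF X := mul_nonneg (by linarith) hNF0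
  have e10 : δ * NF X = δ / 4 * NF X + δ / 2 * NF X + δ / 4 * NF X := by ring
  rw [e10]
  linarith

end Pool.Agent.C1D
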