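import Pool.Agent.C1D.Stmts

set_option autoImplicit false

/-!
# C1D, module G5: the digit and `GoodN`

`TQG.fin` expresses the digit as the determinant over `F_2` of the Laplacian of the symbols with the
first column replaced by the bits `lam`; this determinant is nonzero exactly when `GoodS` holds.
-/

namespace Pool.Agent.C1D

open Finset

namespace G5

/-- `GoodS` is invariant under reindexing. -/
theorem goodS_equiv {κ κ' : Type*} [Fintype κ] [Fintype κ'] (e : κ ≃ κ')
    (sym : κ' → κ' → ZMod 2) (l : κ' → ZMod 2) :
    GoodS (fun a b => sym (e a) (e b)) (fun a => l (e a)) ↔ GoodS sym l := by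
  unfold GoodS
  constructor
  · intro h x c hx
    have h1 := h (fun a => x (e a)) c (fun a => by
      have h2 := hx (e a)
      rw [← Equiv.sum_comp e] at h2
      exact h2)
    refine ⟨h1.1, fun a b => ?_⟩
    have := h1.2 (e.symm a) (e.symm b)
    simpa using this
  · intro h x c hx
    have h1 := h (fun a => x (e.symm a)) c (fun a => by
      have h2 := hx (e.symm a)
      rw [← Equiv.sum_comp e.symm] at h2
      simpa using h2)
    refine ⟨h1.1, fun a b => ?_⟩
    have := h1.2 (e a) (e b)
    simpa using this

theorem add_self2 (x : ZMod 2) : x + x = 0 := CharTwo.add_self_eq_zero x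

theorem lap_mulVec {ι : Type} [Fintype ι] [DecidableEq ι] (a : ι → ι → ZMod 2) (x : ι → ZMod 2)
    (j : ι) : (TQG.lap a).mulVec x j = ∑ i, a j i * (x i + x j) := by
  have h1 : (TQG.lap a).mulVec x j = ∑ i, TQG.lap a j i * x i := rfl
  rw [h1, ← Finset.add_sum_erase _ _ (Finset.mem_univ j),
    ← Finset.add_sum_erase Finset.univ (fun i => a j i * (x i + x j)) (Finset.mem_univ j)]
  have h2 : TQG.lap a j j = ∑ l ∈ Finset.univ.erase j, a j l := by simp [TQG.lap]
  have h3 : ∑ i ∈ Finset.univ.erase j, TQG.lap a j i * x i =
      ∑ i ∈ Finset.univ.erase j, a j i * x i := by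
    refine Finset.sum_congr rfl fun i hi => ?_
    have : j ≠ i := (Finset.ne_of_mem_erase hi).symm
    simp [TQG.lap, this]
  rw [h2, h3, add_self2, mul_zero, zero_add, Finset.sum_mul, ← Finset.sum_add_distrib]
  exact Finset.sum_congr rfl fun i _ => by ring

theorem det_iff {k : ℕ} (a : Fin (k + 1) → Fin (k + 1) → ZMod 2) (l : Fin (k + 1) → ZMod 2) :
    ((TQG.lap a).updateCol 0 l).det ≠ 0 ↔ GoodS a l := by
  have key : ∀ y : Fin (k + 1) → ZMod 2, ∀ j, ((TQG.lap a).updateCol 0 l).mulVec y j =
      (∑ i, a j i * (Function.update y 0 0 i + Function.update y 0 0 j)) + y 0 * l j := by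
    intro y j
    rw [← lap_mulVec]
    have h1 : ((TQG.lap a).updateCol 0 l).mulVec y j =
      ∑ i, ((TQG.lap a).updateCol 0 l) j i * y i := rfl
    have h2 : (TQG.lap a).mulVec (Function.update y 0 0) j =
      ∑ i, TQG.lap a j i * Function.update y 0 0 i := rfl
    rw [h1, h2, Fin.sum_univ_succ, Fin.sum_univ_succ]
    have h3 : ∀ i : Fin k, ((TQG.lap a).updateCol 0 l) j i.succ = TQG.lap a j i.succ := by
      intro i
      rw [Matrix.updateCol_ne (Fin.succ_ne_zero i)]
    have h4 : ∀ i : Fin k, Function.update y 0 0 i.succ = y i.succ := by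
      intro i
      rw [Function.update_of_ne (Fin.succ_ne_zero i)]
    simp only [h3, h4, Matrix.updateCol_self, Function.update_self]
    ring
  rw [Ne, ← Matrix.exists_mulVec_eq_zero_iff]
  constructor
  · intro h x c hx
    by_contra hcon
    apply h
    refine ⟨fun i => if i = 0 then c else x i + x 0, ?_, ?_⟩
    · intro h0
      apply hcon
      have hc : c = 0 := by
        have := congrFun h0 0
        simpa using this
      have hxi : ∀ i, x i = x 0 := by
        intro i
        by_cases hi : i = 0
        · rw [hi]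
        · have := congrFun h0 i
          simp only [hi, if_false, Pi.zero_apply] at this
          have h5 := add_self2 (x 0)
          calc x i = x i + (x 0 + x 0) := by rw [h5, add_zero]
            _ = (x i + x 0) + x 0 := by ring
            _ = x 0 := by rw [this, zero_add]
      exact ⟨hc, fun a b => by rw [hxi a, hxi b]⟩
    · funext j
      rw [key]
      have h6 : ∀ i, Function.update (fun i => if i = 0 then c else x i + x 0) 0 0 i = x i + x 0 := by
        intro i
        by_cases hi : i = 0
        · rw [hi, Function.update_self, add_self2]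
        · rw [Function.update_of_ne hi, if_neg hi]
      simp only [h6, if_true, Pi.zero_apply]
      rw [← hx j]
      congr 1
      refine Finset.sum_congr rfl fun i _ => ?_
      have h5 := add_self2 (x 0)
      have : x i + x 0 + (x j + x 0) = x i + x j + (x 0 + x 0) := by ring
      rw [this, h5, add_zero]
  · intro h hex
    obtain ⟨y, hy0, hy⟩ := hex
    apply hy0
    have h1 := h (Function.update y 0 0) (y 0) (fun j => by
      rw [← key y j, hy]; rfl)
    funext i
    by_cases hi : i = 0
    · rw [hi]; exact h1.1
    · have := h1.2 i 0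
      rw [Function.update_of_ne hi, Function.update_self] at this
      exact this

end G5

theorem G5_proof : G5Stmt := by
  intro m hm
  obtain ⟨h1, h8, hsq, hpr⟩ := hm
  obtain ⟨k, hk⟩ : ∃ k, m.primeFactors.card = k + 1 := by
    have : 0 < m.primeFactors.card := by
      rw [Finset.card_pos]
      exact Nat.nonempty_primeFactors.2 h1
    exact ⟨m.primeFactors.card - 1, by omega⟩
  let e : Fin (k + 1) ≃ m.primeFactors := (m.primeFactors.equivFinOfCardEq hk).symm
  let p : Fin (k + 1) → ℕ := fun i => (e i : ℕ)
  have hp : ∀ i, (p i).Prime := fun i => Nat.prime_of_mem_primeFactors (e i).2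
  have hinj : Function.Injective p := fun i j h => e.injective (Subtype.ext h)
  have hp8 : ∀ i, p i % 8 = 1 ∨ p i % 8 = 7 := fun i =>
    hpr _ (hp i) (Nat.dvd_of_mem_primeFactors (e i).2)
  have hprod : ∏ i, p i = m := by
    have : ∏ i, p i = ∏ q : m.primeFactors, (q : ℕ) := Equiv.prod_comp e (fun q => (q : ℕ))
    rw [this, Finset.prod_coe_sort m.primeFactors (fun q => q), Nat.prod_primeFactors_of_squarefree hsq]
  have hfin := TQG.fin k p hp hinj hp8 (by rw [hprod]; exact h8)
  rw [hprod] at hfin
  have hgood : GoodN m ↔ GoodS (fun j i => TQG.ee (p j) (p i)) (fun i => TQG.lam (p i)) := by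
    unfold GoodN
    rw [← G5.goodS_equiv e]
    exact Iff.rfl
  rw [hgood, ← G5.det_iff, hk]
  have h3 : k + 1 + 2 = k + 3 := rfl
  have h4 : k + 1 + 3 = k + 4 := rfl
  rw [h3, h4]
  unfold tun
  set D := ((TQG.lap fun j i => TQG.ee (p j) (p i)).updateCol 0 fun i => TQG.lam (p i)).det with hD
  have hDv : D = 0 ∨ D = 1 := by
    have : ∀ x : ZMod 2, x = 0 ∨ x = 1 := by decide
    exact this D
  rcases hDv with h0 | h1'
  · rw [h0] at hfin ⊢
    constructor
    · intro h
      exfalso
      have h5 := hfin.symm.trans h
      simp only [ZMod.val_zero, Nat.cast_zero, mul_zero] at h5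
      rw [Int.modEq_iff_dvd, sub_zero] at h5
      have h6 : (2 : ℤ) ^ (k + 4) = 2 * 2 ^ (k + 3) := by ring
      rw [h6] at h5
      obtain ⟨c, hc⟩ := h5
      have h7 : (2 : ℤ) ^ (k + 3) ≠ 0 := by positivity
      have h8 : (1 : ℤ) = 2 * c := by
        apply mul_left_cancel₀ h7
        linear_combination hc
      omega
    · intro h
      exact absurd rfl h
  · rw [h1'] at hfin ⊢
    constructor
    · intro _
      exact one_ne_zero
    · intro _
      have h5 : ((1 : ZMod 2).val : ℤ) = 1 := by decide
      rw [h5, mul_one] at hfin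
      exact hfin

end Pool.Agent.C1D
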