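import Pool.Agent.C1D.Stmts

set_option autoImplicit false

namespace Pool.Agent.C1D

namespace L0

theorem multipliable_gam : Multipliable (fun i : ℕ => (1 - (1 / 2 : ℝ) ^ (i + 1))) := by
  have hs : Summable (fun i : ℕ => -(1 / 2 : ℝ) ^ (i + 1)) := by
    have h := summable_geometric_two
    have h2 := (h.mul_left (1 / 2 : ℝ)).neg
    refine h2.congr fun i => ?_
    rw [pow_succ]
    ring
  have h := Real.multipliable_one_add_of_summable hs
  refine h.congr fun i => ?_
  ring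

theorem factor_bounds (i : ℕ) : 0 ≤ 1 - (1 / 2 : ℝ) ^ (i + 1) ∧ 1 - (1 / 2 : ℝ) ^ (i + 1) ≤ 1 := by
  have h1 : (1 / 2 : ℝ) ^ (i + 1) ≤ 1 := pow_le_one₀ (by norm_num) (by norm_num)
  have h2 : (0 : ℝ) ≤ (1 / 2 : ℝ) ^ (i + 1) := by positivity
  constructor <;> linarith

theorem gamF_nonneg (j : ℕ) : 0 ≤ gamF j :=
  Finset.prod_nonneg fun i _ => (factor_bounds i).1

theorem gamF_le_one (j : ℕ) : gamF j ≤ 1 :=
  Finset.prod_le_one (fun i _ => (factor_bounds i).1) fun i _ => (factor_bounds i).2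

theorem gamF_succ (j : ℕ) : gamF (j + 1) = gamF j * (1 - (1 / 2 : ℝ) ^ (j + 1)) := by
  unfold gamF
  rw [Finset.prod_range_succ]

theorem gamF_anti : Antitone gamF := by
  refine antitone_nat_of_succ_le fun j => ?_
  rw [gamF_succ]
  have := (factor_bounds j).2
  have h0 := gamF_nonneg j
  nlinarith

theorem tendsto_gamF : Filter.Tendsto gamF Filter.atTop (nhds gam) := by
  have h := multipliable_gam.tendsto_prod_tprod_nat
  exact h

theorem gamF_lower (j : ℕ) : (9 / 32 : ℝ) + (3 / 32) * (1 / 2) ^ j ≤ gamF (j + 2) := by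
  induction j with
  | zero =>
    unfold gamF
    rw [Finset.prod_range_succ, Finset.prod_range_one]
    norm_num
  | succ j ih =>
    rw [show j + 1 + 2 = (j + 2) + 1 by ring, gamF_succ]
    have hx : (1 / 2 : ℝ) ^ (j + 2 + 1) = (1 / 8) * (1 / 2) ^ j := by
      rw [pow_add, pow_add]
      norm_num
      ring
    have hy : (1 / 2 : ℝ) ^ (j + 1) = (1 / 2) * (1 / 2) ^ j := by
      rw [pow_succ]
      ring
    rw [hx, hy]
    have h1 : (1 / 2 : ℝ) ^ j ≤ 1 := pow_le_one₀ (by norm_num) (by norm_num)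
    have h2 : (0 : ℝ) ≤ (1 / 2 : ℝ) ^ j := by positivity
    set t : ℝ := (1 / 2 : ℝ) ^ j with ht
    nlinarith [mul_nonneg h2 (sub_nonneg.mpr h1), mul_le_mul_of_nonneg_right ih
      (show (0 : ℝ) ≤ 1 - 1 / 8 * t by linarith)]

theorem gam_le (j : ℕ) : gam ≤ gamF j := gamF_anti.le_of_tendsto tendsto_gamF j

theorem gam_gt : 1 / 4 < gam := by
  have h : (9 / 32 : ℝ) ≤ gam := by
    refine ge_of_tendsto tendsto_gamF ?_
    filter_upwards [Filter.eventually_ge_atTop 2] with n hn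
    obtain ⟨j, rfl⟩ := Nat.exists_eq_add_of_le' hn
    have h := gamF_lower j
    have h2 : (0 : ℝ) ≤ (1 / 2 : ℝ) ^ j := by positivity
    linarith
  linarith

end L0

/-- [L0] the product `gam` -/
theorem L0_proof : L0Stmt :=
  ⟨L0.tendsto_gamF, L0.gam_le, L0.gamF_le_one, L0.gam_gt⟩

end Pool.Agent.C1D
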