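import Pool.Agent.C1D.Stmts

set_option autoImplicit false

/-!
# C1D.L1: bases of the kernels and a generalised inverse
-/

namespace Pool.Agent.C1D

open Finset Matrix

namespace L1

variable {ι : Type} [Fintype ι] [DecidableEq ι]

/-- a matrix whose columns are a basis of a submodule -/
theorem exists_basis_matrix (K : Submodule (ZMod 2) (ι → ZMod 2)) (r : ℕ)
    (hr : Module.finrank (ZMod 2) K = r) :
    ∃ X : Matrix ι (Fin r) (ZMod 2), (∀ x, x ∈ K ↔ ∃ k, x = X *ᵥ k) ∧
      ∀ k, X *ᵥ k = 0 → k = 0 := by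
  obtain ⟨b⟩ : Nonempty (Module.Basis (Fin r) (ZMod 2) K) :=
    ⟨Module.finBasisOfFinrankEq (ZMod 2) K hr⟩
  have key : ∀ k : Fin r → ZMod 2,
      (fun a m => (b m : ι → ZMod 2) a : Matrix ι (Fin r) (ZMod 2)) *ᵥ k
        = ((∑ m, k m • b m : K) : ι → ZMod 2) := by
    intro k
    funext a
    rw [Submodule.coe_sum, Finset.sum_apply]
    simp only [Matrix.mulVec, dotProduct, Submodule.coe_smul, Pi.smul_apply, smul_eq_mul]
    exact Finset.sum_congr rfl fun m _ => mul_comm _ _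
  refine ⟨fun a m => (b m : ι → ZMod 2) a, fun x => ⟨fun hx => ?_, ?_⟩, fun k hk => ?_⟩
  · refine ⟨fun m => b.repr ⟨x, hx⟩ m, ?_⟩
    rw [key, b.sum_repr]
  · rintro ⟨k, rfl⟩
    rw [key]
    exact Submodule.coe_mem _
  · rw [key] at hk
    have h0 : (∑ m, k m • b m : K) = 0 := Subtype.ext hk
    have hli := Fintype.linearIndependent_iff.1 b.linearIndependent k h0
    funext m
    exact hli m

/-- a linear map that is a right inverse on the range -/
theorem exists_section (f : (ι → ZMod 2) →ₗ[ZMod 2] (ι → ZMod 2)) :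
    ∃ g : (ι → ZMod 2) →ₗ[ZMod 2] (ι → ZMod 2), ∀ v, f (g (f v)) = f v := by
  obtain ⟨s, hs⟩ := f.rangeRestrict.exists_rightInverse_of_surjective
    (LinearMap.range_eq_top.2 f.surjective_rangeRestrict)
  obtain ⟨p, hp⟩ := (LinearMap.range f).subtype.exists_leftInverse_of_injective
    (LinearMap.ker_eq_bot.2 (Submodule.injective_subtype _))
  refine ⟨s ∘ₗ p, fun v => ?_⟩
  have h1 : p (f v) = f.rangeRestrict v := by
    have := LinearMap.congr_fun hp (f.rangeRestrict v)
    simpa using this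
  have h2 := LinearMap.congr_fun hs (f.rangeRestrict v)
  simp only [LinearMap.comp_apply, LinearMap.id_apply] at h2 ⊢
  rw [h1]
  have h3 := congrArg Subtype.val h2
  simpa using h3

end L1

open L1 in
theorem L1_proof : L1Stmt := by
  intro ι _ _ M e hKL
  set K : Submodule (ZMod 2) (ι → ZMod 2) := LinearMap.ker M.mulVecLin with hK
  set L : Submodule (ZMod 2) (ι → ZMod 2) := LinearMap.ker Mᵀ.mulVecLin with hL
  have memK : ∀ x, x ∈ K ↔ M *ᵥ x = 0 := fun x => by
    rw [hK, LinearMap.mem_ker, Matrix.mulVecLin_apply]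
  have memL : ∀ x, x ∈ L ↔ Mᵀ *ᵥ x = 0 := fun x => by
    rw [hL, LinearMap.mem_ker, Matrix.mulVecLin_apply]
  have hrank : Module.finrank (ZMod 2) L = Module.finrank (ZMod 2) K := by
    have h1 := M.mulVecLin.finrank_range_add_finrank_ker
    have h2 := Mᵀ.mulVecLin.finrank_range_add_finrank_ker
    have h3 : Mᵀ.rank = M.rank := Matrix.rank_transpose M
    simp only [Matrix.rank] at h3
    rw [← hK] at h1
    rw [← hL] at h2
    omega
  obtain ⟨r, hr⟩ : ∃ r, Module.finrank (ZMod 2) K = r := ⟨_, rfl⟩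
  obtain ⟨X, hX, hXi⟩ := exists_basis_matrix K r hr
  obtain ⟨Y, hY, hYi⟩ := exists_basis_matrix L r (hrank.trans hr)
  -- the image of `M` is the orthogonal complement of the kernel of the transpose
  have him : ∀ x, Yᵀ *ᵥ x = 0 → ∃ v, M *ᵥ v = x := by
    have hle : LinearMap.range M.mulVecLin ≤ LinearMap.ker Yᵀ.mulVecLin := by
      rintro _ ⟨v, rfl⟩
      rw [LinearMap.mem_ker, Matrix.mulVecLin_apply, Matrix.mulVecLin_apply, Matrix.mulVec_mulVec]
      have h0 : Yᵀ * M = 0 := by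
        have h1 : Mᵀ * Y = 0 := by
          ext a m
          have h2 : Y *ᵥ (Pi.single m 1) ∈ L := (hY _).2 ⟨_, rfl⟩
          rw [memL, Matrix.mulVec_mulVec, Matrix.mulVec_single_one] at h2
          exact congrFun h2 a
        have h3 := congrArg Matrix.transpose h1
        rw [Matrix.transpose_mul, Matrix.transpose_transpose, Matrix.transpose_zero] at h3
        exact h3
      rw [h0, Matrix.zero_mulVec]
    have hYrank : Module.finrank (ZMod 2) (LinearMap.range Yᵀ.mulVecLin) = r := by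
      have h1 : Yᵀ.rank = Y.rank := Matrix.rank_transpose Y
      simp only [Matrix.rank] at h1
      rw [h1, LinearMap.finrank_range_of_inj]
      · rw [Module.finrank_fin_fun]
      · rw [← LinearMap.ker_eq_bot, LinearMap.ker_eq_bot']
        intro k hk
        exact hYi k hk
    have h1 := M.mulVecLin.finrank_range_add_finrank_ker
    have h2 := Yᵀ.mulVecLin.finrank_range_add_finrank_ker
    rw [← hK] at h1
    have heq : LinearMap.range M.mulVecLin = LinearMap.ker Yᵀ.mulVecLin :=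
      Submodule.eq_of_le_of_finrank_eq hle (by omega)
    intro x hx
    have hx' : x ∈ LinearMap.range M.mulVecLin := by
      rw [heq, LinearMap.mem_ker, Matrix.mulVecLin_apply, hx]
    obtain ⟨v, hv⟩ := hx'
    exact ⟨v, hv⟩
  obtain ⟨g, hg⟩ := exists_section M.mulVecLin
  simp only [Matrix.mulVecLin_apply] at hg
  have hXY : ∀ k k', X *ᵥ k + Y *ᵥ k' = 0 → k = 0 ∧ k' = 0 := by
    intro k k' h
    have h1 : X *ᵥ k = Y *ᵥ k' := by
      have h2 : X *ᵥ k = -(Y *ᵥ k') := eq_neg_of_add_eq_zero_left h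
      rw [h2]
      funext a
      rw [Pi.neg_apply]
      exact (show ∀ t : ZMod 2, -t = t by decide) _
    have h3 : X *ᵥ k = 0 := by
      apply hKL
      · exact (memK _).1 ((hX _).2 ⟨_, rfl⟩)
      · rw [h1]
        exact (memL _).1 ((hY _).2 ⟨_, rfl⟩)
    exact ⟨hXi k h3, hYi k' (h1 ▸ h3)⟩
  -- finish with a linear map
  have fin : ∀ g' : (ι → ZMod 2) →ₗ[ZMod 2] (ι → ZMod 2), (∀ v, M *ᵥ (g' (M *ᵥ v)) = M *ᵥ v) →
      ((∀ x, e ⬝ᵥ g' x = 0) ∨ Xᵀ *ᵥ e = 0) →
      ∃ (r : ℕ) (X Y : Matrix ι (Fin r) (ZMod 2)) (G : Matrix ι ι (ZMod 2)),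
        (∀ x, M *ᵥ x = 0 ↔ ∃ k, x = X *ᵥ k) ∧ (∀ x, Mᵀ *ᵥ x = 0 ↔ ∃ k, x = Y *ᵥ k) ∧
        (∀ k k', X *ᵥ k + Y *ᵥ k' = 0 → k = 0 ∧ k' = 0) ∧
        (∀ x, Yᵀ *ᵥ x = 0 → M *ᵥ (G *ᵥ x) = x) ∧ M * G * M = M ∧
        (Gᵀ *ᵥ e = 0 ∨ Xᵀ *ᵥ e = 0) := by
    intro g' hg' hor
    have hGx : ∀ x, (LinearMap.toMatrix' g') *ᵥ x = g' x := fun x => by
      rw [← Matrix.toLin'_apply, Matrix.toLin'_toMatrix']
    refine ⟨r, X, Y, LinearMap.toMatrix' g', fun x => (memK x).symm.trans (hX x),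
      fun x => (memL x).symm.trans (hY x), hXY, ?_, ?_, ?_⟩
    · intro x hx
      obtain ⟨v, rfl⟩ := him x hx
      rw [hGx]
      exact hg' v
    · apply Matrix.toLin'.injective
      apply LinearMap.ext
      intro v
      rw [Matrix.toLin'_apply, Matrix.toLin'_apply, ← Matrix.mulVec_mulVec, ← Matrix.mulVec_mulVec,
        hGx]
      exact hg' v
    · rcases hor with h | h
      · left
        funext a
        have h1 := h (Pi.single a 1)
        rw [← hGx, Matrix.mulVec_single_one] at h1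
        rw [Pi.zero_apply, ← h1]
        simp only [Matrix.mulVec, dotProduct, Matrix.transpose_apply, Matrix.col_apply]
        exact Finset.sum_congr rfl fun b _ => mul_comm _ _
      · exact Or.inr h
  by_cases hcase : ∃ k0, M *ᵥ k0 = 0 ∧ e ⬝ᵥ k0 ≠ 0
  · obtain ⟨k0, hk0, hek0⟩ := hcase
    have hek1 : e ⬝ᵥ k0 = 1 := by
      revert hek0
      generalize e ⬝ᵥ k0 = t
      revert t
      decide
    -- the corrected section
    let ed : (ι → ZMod 2) →ₗ[ZMod 2] ZMod 2 := dotProductBilin (ZMod 2) (ZMod 2) e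
    have hed : ∀ x, ed x = e ⬝ᵥ x := fun x => rfl
    refine fin (g - (LinearMap.toSpanSingleton (ZMod 2) (ι → ZMod 2) k0) ∘ₗ (ed ∘ₗ g)) ?_
      (Or.inl ?_)
    · intro v
      simp only [LinearMap.sub_apply, LinearMap.comp_apply, LinearMap.toSpanSingleton_apply]
      rw [Matrix.mulVec_sub, Matrix.mulVec_smul, hk0, smul_zero, sub_zero, hg]
    · intro x
      simp only [LinearMap.sub_apply, LinearMap.comp_apply, LinearMap.toSpanSingleton_apply]
      rw [dotProduct_sub, dotProduct_smul, hek1, hed, smul_eq_mul, mul_one, sub_self]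
  · refine fin g hg (Or.inr ?_)
    push Not at hcase
    funext m
    have h1 : M *ᵥ (X *ᵥ (Pi.single m 1)) = 0 := (memK _).1 ((hX _).2 ⟨_, rfl⟩)
    have h2 := hcase _ h1
    rw [Matrix.mulVec_single_one] at h2
    rw [Pi.zero_apply, ← h2]
    simp only [Matrix.mulVec, dotProduct, Matrix.transpose_apply, Matrix.col_apply]
    exact Finset.sum_congr rfl fun b _ => mul_comm _ _

end Pool.Agent.C1D
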