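import Pool.Agent.C1D.Stmts

set_option autoImplicit false

namespace Pool.Agent.C1D

namespace L3c

open Finset Matrix

/-- A surjective homomorphism of finite groups has fibres of constant size. -/
theorem card_fiber {G H : Type*} [AddCommGroup G] [Fintype G] [AddCommGroup H] [Fintype H]
    [DecidableEq H] (f : G →+ H) (hf : Function.Surjective f) (S : Finset H) :
    (univ.filter fun g => f g ∈ S).card * Fintype.card H = S.card * Fintype.card G := by
  have hc : ∀ x : H, (univ.filter fun g => f g = x).card = (univ.filter fun g => f g = 0).card :=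
    fun x => AddMonoidHom.card_fiber_eq_of_mem_range f (hf x) (hf 0)
  have h1 : (univ.filter fun g => f g ∈ S).card =
      ∑ x ∈ S, (univ.filter fun g => f g = x).card := by
    rw [Finset.card_eq_sum_card_fiberwise (f := f) (t := S)]
    · refine Finset.sum_congr rfl fun x hx => ?_
      congr 1
      ext g
      simp only [mem_filter, mem_univ, true_and]
      constructor
      · rintro ⟨_, h⟩
        exact h
      · intro h
        exact ⟨h ▸ hx, h⟩
    · intro g hg
      simpa using hg
  have h2 : Fintype.card G = ∑ x : H, (univ.filter fun g => f g = x).card := by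
    rw [← Finset.card_univ, Finset.card_eq_sum_card_fiberwise (f := f) (t := univ)]
    intro g _
    simp
  rw [h1, h2]
  simp only [hc, Finset.sum_const, smul_eq_mul, Finset.card_univ]
  ring

/-- full column rank -/
def Full {n r : ℕ} (U : Option (Fin n) → Fin r → ZMod 2) : Prop :=
  ∀ k : Fin r → ZMod 2, (∀ i, ∑ m, U i m * k m = 0) → k = 0

theorem full_left {n r : ℕ} {B : Option (Fin n) → Option (Fin n) → ZMod 2}
    {U V : Option (Fin n) → Fin r → ZMod 2} (h : NGood B U V) : Full U := by
  intro k hk
  refine (h 0 k (fun i => ?_) (fun m => ?_)).2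
  · simpa using hk i
  · simp

theorem full_right {n r : ℕ} {B : Option (Fin n) → Option (Fin n) → ZMod 2}
    {U V : Option (Fin n) → Fin r → ZMod 2} (h : NGood B U V) : Full V := by
  let Φ : ((Option (Fin n) → ZMod 2) × (Fin r → ZMod 2)) →ₗ[ZMod 2]
      ((Option (Fin n) → ZMod 2) × (Fin r → ZMod 2)) :=
    LinearMap.prod
      ((Matrix.mulVecLin (Matrix.of B)).comp (LinearMap.fst _ _ _) +
        (Matrix.mulVecLin (Matrix.of U)).comp (LinearMap.snd _ _ _))
      ((Matrix.mulVecLin (Matrix.of V)ᵀ).comp (LinearMap.fst _ _ _))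
  have hΦ1 : ∀ t k i, (Φ (t, k)).1 i = ∑ j, B i j * t j + ∑ m, U i m * k m := by
    intro t k i
    simp [Φ, Matrix.mulVec, dotProduct]
  have hΦ2 : ∀ t k m, (Φ (t, k)).2 m = ∑ j, V j m * t j := by
    intro t k m
    rfl
  have hinj : Function.Injective Φ := by
    rw [← LinearMap.ker_eq_bot, LinearMap.ker_eq_bot']
    rintro ⟨t, k⟩ h0
    obtain ⟨h1, h2⟩ := h t k (fun i => by rw [← hΦ1 t k i, h0]; rfl)
      (fun m => by rw [← hΦ2 t k m, h0]; rfl)
    rw [h1, h2]
    rfl
  have hsurj : Function.Surjective Φ := LinearMap.injective_iff_surjective.mp hinj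
  intro c hc
  ext m
  obtain ⟨⟨t, k⟩, htk⟩ := hsurj (0, Pi.single m 1)
  have h3 : ∑ m', c m' * (Φ (t, k)).2 m' = 0 := by
    simp only [hΦ2, Finset.mul_sum]
    rw [Finset.sum_comm]
    refine Finset.sum_eq_zero fun j _ => ?_
    have := hc j
    calc ∑ m', c m' * (V j m' * t j) = (∑ m', V j m' * c m') * t j := by
          rw [Finset.sum_mul]
          exact Finset.sum_congr rfl fun m' _ => by ring
      _ = 0 := by rw [this, zero_mul]
  rw [htk] at h3
  simpa [Pi.single_apply] using h3

theorem gl_card (k : ℕ) :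
    ((univ.filter fun N : Matrix (Fin k) (Fin k) (ZMod 2) => IsUnit N).card : ℝ) =
      2 ^ (k * k) * gamF k := by
  classical
  have h1 : (univ.filter fun N : Matrix (Fin k) (Fin k) (ZMod 2) => IsUnit N).card =
      Nat.card (GL (Fin k) (ZMod 2)) := by
    rw [← Fintype.card_subtype, ← Nat.card_eq_fintype_card]
    refine Nat.card_congr ?_
    exact
      { toFun := fun N => N.2.unit
        invFun := fun u => ⟨(u : Matrix (Fin k) (Fin k) (ZMod 2)), u.isUnit⟩
        left_inv := fun N => by
          ext1
          exact N.2.unit_spec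
        right_inv := fun u => by
          ext1
          simp }
  rw [h1, Matrix.card_GL_field]
  rw [ZMod.card]
  rw [Nat.cast_prod]
  have h2 : ∀ i : Fin k, ((2 ^ k - 2 ^ (i : ℕ) : ℕ) : ℝ) =
      2 ^ k * (1 - (1 / 2 : ℝ) ^ (k - (i : ℕ))) := by
    intro i
    have hik : (i : ℕ) ≤ k := i.2.le
    rw [Nat.cast_sub (Nat.pow_le_pow_right (by norm_num) hik)]
    push_cast
    have h3 : (2 : ℝ) ^ k = 2 ^ (i : ℕ) * 2 ^ (k - (i : ℕ)) := by
      rw [← pow_add, Nat.add_sub_cancel' hik]
    rw [mul_sub, mul_one]
    congr 1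
    rw [h3, mul_assoc, ← mul_pow]
    norm_num
  rw [Finset.prod_congr rfl fun i _ => h2 i, Finset.prod_mul_distrib, Finset.prod_const,
    Finset.card_univ, Fintype.card_fin, ← pow_mul]
  congr 1
  rw [Finset.prod_fin_eq_prod_range]
  unfold gamF
  rw [← Finset.prod_range_reflect]
  refine Finset.prod_congr rfl fun i hi => ?_
  have hik : i < k := Finset.mem_range.mp hi
  rw [dif_pos (show k - 1 - i < k by omega)]
  congr 2
  show k - (k - 1 - i) = i + 1
  omega

/-- number of good matrices for fixed full rank borders -/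
theorem count_B {n r : ℕ} (hr : r ≤ n + 1) (U V : Option (Fin n) → Fin r → ZMod 2)
    (hU : Full U) (hV : Full V) [DecidablePred fun B : Option (Fin n) → Option (Fin n) → ZMod 2 =>
      NGood B U V] :
    ((univ.filter fun B : Option (Fin n) → Option (Fin n) → ZMod 2 => NGood B U V).card : ℝ) =
      gamF (n + 1 - r) * Fintype.card (Option (Fin n) → Option (Fin n) → ZMod 2) := by
  classical
  set k : ℕ := n + 1 - r with hk
  let Um : (Fin r → ZMod 2) →ₗ[ZMod 2] (Option (Fin n) → ZMod 2) := Matrix.mulVecLin (Matrix.of U)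
  let Vm : (Option (Fin n) → ZMod 2) →ₗ[ZMod 2] (Fin r → ZMod 2) :=
    Matrix.mulVecLin (Matrix.of V)ᵀ
  have hUm : ∀ c i, Um c i = ∑ m, U i m * c m := fun c i => rfl
  have hVm : ∀ t m, Vm t m = ∑ j, V j m * t j := fun t m => rfl
  have hUinj : Function.Injective Um := by
    rw [← LinearMap.ker_eq_bot, LinearMap.ker_eq_bot']
    intro c hc
    exact hU c fun i => by rw [← hUm c i, hc]; rfl
  have hVinj : Function.Injective (Matrix.mulVecLin (Matrix.of V)) := by
    rw [← LinearMap.ker_eq_bot, LinearMap.ker_eq_bot']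
    intro c hc
    exact hV c fun i => congrFun hc i
  have hrV : Module.finrank (ZMod 2) (LinearMap.range Vm) = r := by
    have h1 : (Matrix.of V)ᵀ.rank = (Matrix.of V).rank := Matrix.rank_transpose _
    have h2 : (Matrix.of V).rank = r := by
      have := LinearMap.finrank_range_of_inj hVinj
      rw [Module.finrank_fintype_fun_eq_card, Fintype.card_fin] at this
      exact this
    exact h1.trans h2
  have hW : Module.finrank (ZMod 2) (LinearMap.ker Vm) = k := by
    have h1 := LinearMap.finrank_range_add_finrank_ker Vm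
    rw [hrV, Module.finrank_fintype_fun_eq_card, Fintype.card_option, Fintype.card_fin] at h1
    omega
  have hQ : Module.finrank (ZMod 2) ((Option (Fin n) → ZMod 2) ⧸ LinearMap.range Um) = k := by
    have h1 := Submodule.finrank_quotient_add_finrank (LinearMap.range Um)
    rw [LinearMap.finrank_range_of_inj hUinj, Module.finrank_fintype_fun_eq_card,
      Module.finrank_fintype_fun_eq_card, Fintype.card_option, Fintype.card_fin,
      Fintype.card_fin] at h1
    omega
  have hk0 : Module.finrank (ZMod 2) (Fin k → ZMod 2) = k := by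
    rw [Module.finrank_fintype_fun_eq_card, Fintype.card_fin]
  let eW : (Fin k → ZMod 2) ≃ₗ[ZMod 2] LinearMap.ker Vm :=
    LinearEquiv.ofFinrankEq _ _ (hk0.trans hW.symm)
  let eQ : ((Option (Fin n) → ZMod 2) ⧸ LinearMap.range Um) ≃ₗ[ZMod 2] (Fin k → ZMod 2) :=
    LinearEquiv.ofFinrankEq _ _ (hQ.trans hk0.symm)
  -- the induced map
  let L : (Option (Fin n) → Option (Fin n) → ZMod 2) →
      ((Fin k → ZMod 2) →ₗ[ZMod 2] (Fin k → ZMod 2)) := fun B =>
    eQ.toLinearMap ∘ₗ (LinearMap.range Um).mkQ ∘ₗ Matrix.mulVecLin (Matrix.of B) ∘ₗ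
      (LinearMap.ker Vm).subtype ∘ₗ eW.toLinearMap
  have hLadd : ∀ B B', L (B + B') = L B + L B' := by
    intro B B'
    apply LinearMap.ext
    intro x
    simp only [L, LinearMap.comp_apply, LinearMap.add_apply]
    have : Matrix.of (B + B') = Matrix.of B + Matrix.of B' := rfl
    rw [this, Matrix.mulVecLin_add, LinearMap.add_apply, map_add, map_add]
  let Ψ : (Option (Fin n) → Option (Fin n) → ZMod 2) →+ Matrix (Fin k) (Fin k) (ZMod 2) :=
    AddMonoidHom.mk' (fun B => LinearMap.toMatrix' (L B)) (fun B B' => by rw [hLadd, map_add])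
  have hΨ : ∀ B, Ψ B = LinearMap.toMatrix' (L B) := fun B => rfl
  have hΨsurj : Function.Surjective Ψ := by
    intro N
    obtain ⟨π, hπ⟩ := (LinearMap.ker Vm).subtype.exists_leftInverse_of_injective
      (LinearMap.ker_eq_bot.mpr (LinearMap.ker Vm).injective_subtype)
    obtain ⟨σ, hσ⟩ := (LinearMap.range Um).mkQ.exists_rightInverse_of_surjective
      (LinearMap.range_eq_top.mpr (LinearMap.range Um).mkQ_surjective)
    let Bl : (Option (Fin n) → ZMod 2) →ₗ[ZMod 2] (Option (Fin n) → ZMod 2) :=
      σ ∘ₗ eQ.symm.toLinearMap ∘ₗ Matrix.toLin' N ∘ₗ eW.symm.toLinearMap ∘ₗ π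
    refine ⟨fun i j => LinearMap.toMatrix' Bl i j, ?_⟩
    rw [hΨ]
    apply Matrix.toLin'.injective
    rw [Matrix.toLin'_toMatrix']
    apply LinearMap.ext
    intro x
    have h1 : Matrix.mulVecLin (Matrix.of (fun i j => LinearMap.toMatrix' Bl i j)) = Bl := by
      have : Matrix.mulVecLin (Matrix.of (fun i j => LinearMap.toMatrix' Bl i j)) =
        Matrix.toLin' (LinearMap.toMatrix' Bl) := rfl
      rw [this, Matrix.toLin'_toMatrix']
    have h2 : π ((eW x : LinearMap.ker Vm) : Option (Fin n) → ZMod 2) = eW x := by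
      have := LinearMap.congr_fun hπ (eW x)
      simpa using this
    have h3 : ∀ y, (LinearMap.range Um).mkQ (σ y) = y := fun y => by
      have := LinearMap.congr_fun hσ y
      simpa using this
    simp only [L, LinearMap.comp_apply, h1]
    simp only [Bl, LinearMap.comp_apply, LinearEquiv.coe_coe, Submodule.subtype_apply, h2, h3,
      LinearEquiv.symm_apply_apply, LinearEquiv.apply_symm_apply]
  have hiff : ∀ B, NGood B U V ↔ Ψ B ∈ (univ.filter fun N : Matrix (Fin k) (Fin k) (ZMod 2) =>
      IsUnit N) := by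
    intro B
    simp only [mem_filter, mem_univ, true_and]
    rw [← Matrix.mulVec_injective_iff_isUnit]
    have hLB : Function.Injective (Ψ B).mulVec ↔ Function.Injective (L B) := by
      have : (Ψ B).mulVec = L B := by
        funext x
        rw [hΨ]
        exact LinearMap.congr_fun (Matrix.toLin'_toMatrix' (L B)) x
      rw [this]
    rw [hLB]
    have hLapp : ∀ x, L B x = eQ ((LinearMap.range Um).mkQ
      (Matrix.mulVecLin (Matrix.of B) (eW x : Option (Fin n) → ZMod 2))) := fun x => rfl
    constructor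
    · intro h
      rw [← LinearMap.ker_eq_bot, LinearMap.ker_eq_bot']
      intro x hx
      rw [hLapp, LinearEquiv.map_eq_zero_iff, Submodule.mkQ_apply, Submodule.Quotient.mk_eq_zero]
        at hx
      obtain ⟨c, hc⟩ := hx
      have h0 := h (eW x : Option (Fin n) → ZMod 2) (-c) (fun i => by
        have h1 := congrFun hc i
        have h2 : (∑ j, B i j * (eW x : Option (Fin n) → ZMod 2) j) =
          Matrix.mulVecLin (Matrix.of B) (eW x : Option (Fin n) → ZMod 2) i := rfl
        have h3 : ∑ m, U i m * (-c) m = - Um c i := by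
          rw [hUm, ← Finset.sum_neg_distrib]
          exact Finset.sum_congr rfl fun m _ => by simp
        rw [h2, h3, h1]
        ring) (fun m => by
        have h1 := (eW x).2
        rw [LinearMap.mem_ker] at h1
        exact congrFun h1 m)
      have h4 : eW x = 0 := Subtype.ext h0.1
      exact (LinearEquiv.map_eq_zero_iff eW).mp h4
    · intro h t c hB hVt
      have ht : t ∈ LinearMap.ker Vm := by
        rw [LinearMap.mem_ker]
        funext m
        exact hVt m
      have hx : L B (eW.symm ⟨t, ht⟩) = 0 := by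
        rw [hLapp, LinearEquiv.apply_symm_apply, LinearEquiv.map_eq_zero_iff,
          Submodule.mkQ_apply, Submodule.Quotient.mk_eq_zero]
        refine ⟨-c, ?_⟩
        funext i
        have h3 : Um (-c) i = - ∑ m, U i m * c m := by
          rw [hUm, ← Finset.sum_neg_distrib]
          exact Finset.sum_congr rfl fun m _ => by simp
        have h2 : Matrix.mulVecLin (Matrix.of B) t i = ∑ j, B i j * t j := rfl
        rw [h3, h2]
        have := hB i
        linear_combination -this
      have h5 : eW.symm ⟨t, ht⟩ = 0 := h (by rw [hx, map_zero])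
      have h6 : (⟨t, ht⟩ : LinearMap.ker Vm) = 0 := by
        rw [← LinearEquiv.map_eq_zero_iff eW.symm]
        exact h5
      have h7 : t = 0 := congrArg Subtype.val h6
      refine ⟨h7, hU c fun i => ?_⟩
      have := hB i
      rw [h7] at this
      simpa using this
  have hcard := card_fiber Ψ hΨsurj (univ.filter fun N : Matrix (Fin k) (Fin k) (ZMod 2) =>
      IsUnit N)
  have hcardR := congrArg (Nat.cast : ℕ → ℝ) hcard
  push_cast at hcardR
  rw [gl_card] at hcardR
  have hM : (Fintype.card (Matrix (Fin k) (Fin k) (ZMod 2)) : ℝ) = 2 ^ (k * k) := by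
    have h1 : Fintype.card (Matrix (Fin k) (Fin k) (ZMod 2)) =
        Fintype.card (Fin k → Fin k → ZMod 2) := Fintype.card_congr Matrix.of.symm
    rw [h1, Fintype.card_fun, Fintype.card_fun, ZMod.card, Fintype.card_fin]
    push_cast
    rw [← pow_mul]
  have hfil : (univ.filter fun B : Option (Fin n) → Option (Fin n) → ZMod 2 => NGood B U V) =
      univ.filter fun g => Ψ g ∈ (univ.filter fun N : Matrix (Fin k) (Fin k) (ZMod 2) =>
      IsUnit N) := by
    ext B
    simp only [mem_filter, mem_univ, true_and]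
    rw [hiff B]
    simp
  rw [hfil]
  rw [hM] at hcardR
  have hpos : (0 : ℝ) < 2 ^ (k * k) := by positivity
  have := hcardR
  field_simp at this ⊢
  nlinarith [this]

theorem card_orth {r : ℕ} (k : Fin r → ZMod 2) (hk : k ≠ 0) :
    (univ.filter fun x : Fin r → ZMod 2 => ∑ m, x m * k m = 0).card * 2 = 2 ^ r := by
  classical
  let f : (Fin r → ZMod 2) →+ ZMod 2 :=
    AddMonoidHom.mk' (fun x => ∑ m, x m * k m) (fun x y => by
      simp only [Pi.add_apply, add_mul, Finset.sum_add_distrib])
  have hf : ∀ x, f x = ∑ m, x m * k m := fun x => rfl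
  obtain ⟨m0, hm0⟩ : ∃ m, k m ≠ 0 := by
    by_contra hcon
    push Not at hcon
    exact hk (funext hcon)
  have hsurj : Function.Surjective f := by
    intro a
    refine ⟨Pi.single m0 (a * (k m0)⁻¹), ?_⟩
    rw [hf, Finset.sum_eq_single m0]
    · rw [Pi.single_eq_same, mul_assoc, inv_mul_cancel₀ hm0, mul_one]
    · intro m _ hm
      rw [Pi.single_eq_of_ne hm, zero_mul]
    · intro h
      exact absurd (mem_univ _) h
  have h := card_fiber f hsurj {0}
  rw [ZMod.card, Finset.card_singleton, one_mul] at h
  rw [Fintype.card_fun, ZMod.card, Fintype.card_fin] at h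
  rw [← h]
  congr 2
  ext x
  simp [hf]

open Classical in
theorem count_notFull (n r : ℕ) (u0 : Fin r → ZMod 2) :
    ((univ.filter fun U : Fin n → Fin r → ZMod 2 =>
      ¬ Full (fun i : Option (Fin n) => i.elim u0 U)).card : ℝ) ≤
      2 ^ r / 2 ^ n * Fintype.card (Fin n → Fin r → ZMod 2) := by
  have hsub : (univ.filter fun U : Fin n → Fin r → ZMod 2 =>
      ¬ Full (fun i : Option (Fin n) => i.elim u0 U)) ⊆
      (univ.filter fun k : Fin r → ZMod 2 => k ≠ 0).biUnion fun k =>
        Fintype.piFinset fun _ : Fin n => univ.filter fun x : Fin r → ZMod 2 =>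
          ∑ m, x m * k m = 0 := by
    intro U hU
    simp only [mem_filter, mem_univ, true_and, Full, not_forall] at hU
    obtain ⟨k, hk, hk0⟩ := hU
    simp only [mem_biUnion, mem_filter, mem_univ, true_and, Fintype.mem_piFinset]
    exact ⟨k, hk0, fun i => hk (some i)⟩
  have h1 : ∀ k ∈ (univ.filter fun k : Fin r → ZMod 2 => k ≠ 0),
      ((Fintype.piFinset fun _ : Fin n => univ.filter fun x : Fin r → ZMod 2 =>
          ∑ m, x m * k m = 0).card : ℝ) = (2 ^ r / 2) ^ n := by
    intro k hk
    have hk0 : k ≠ 0 := (mem_filter.mp hk).2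
    have h2 := card_orth k hk0
    have h3 : ((univ.filter fun x : Fin r → ZMod 2 => ∑ m, x m * k m = 0).card : ℝ) = 2 ^ r / 2 := by
      have := congrArg (Nat.cast : ℕ → ℝ) h2
      push_cast at this
      linarith
    rw [Fintype.card_piFinset, Finset.prod_const, Finset.card_univ, Fintype.card_fin]
    push_cast
    rw [h3]
  have hcb : (((univ.filter fun k : Fin r → ZMod 2 => k ≠ 0).biUnion fun k =>
        Fintype.piFinset fun _ : Fin n => univ.filter fun x : Fin r → ZMod 2 =>
          ∑ m, x m * k m = 0).card : ℝ) ≤ 2 ^ r * (2 ^ r / 2) ^ n := by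
    have h4 : (((univ.filter fun k : Fin r → ZMod 2 => k ≠ 0).biUnion fun k =>
        Fintype.piFinset fun _ : Fin n => univ.filter fun x : Fin r → ZMod 2 =>
          ∑ m, x m * k m = 0).card : ℝ) ≤ ∑ k ∈ (univ.filter fun k : Fin r → ZMod 2 => k ≠ 0),
        ((Fintype.piFinset fun _ : Fin n => univ.filter fun x : Fin r → ZMod 2 =>
          ∑ m, x m * k m = 0).card : ℝ) := by
      exact_mod_cast Finset.card_biUnion_le
    refine h4.trans ?_
    rw [Finset.sum_congr rfl h1, Finset.sum_const, nsmul_eq_mul]
    have h5 : ((univ.filter fun k : Fin r → ZMod 2 => k ≠ 0).card : ℝ) ≤ 2 ^ r := by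
      have h6 : (univ.filter fun k : Fin r → ZMod 2 => k ≠ 0).card ≤
          Fintype.card (Fin r → ZMod 2) := Finset.card_le_univ _
      rw [Fintype.card_fun, ZMod.card, Fintype.card_fin] at h6
      exact_mod_cast h6
    exact mul_le_mul_of_nonneg_right h5 (by positivity)
  have hc : ((univ.filter fun U : Fin n → Fin r → ZMod 2 =>
      ¬ Full (fun i : Option (Fin n) => i.elim u0 U)).card : ℝ) ≤ 2 ^ r * (2 ^ r / 2) ^ n := by
    refine le_trans ?_ hcb
    exact_mod_cast Finset.card_le_card hsub
  refine hc.trans (le_of_eq ?_)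
  rw [Fintype.card_fun, Fintype.card_fun, ZMod.card, Fintype.card_fin, Fintype.card_fin]
  push_cast
  rw [div_pow]
  ring

end L3c

open Classical in
/-- [L3c] uniform bordered matrices with one prescribed row of `U` and of `V` -/
theorem L3c_proof : L3cStmt := by
  intro n r hr u0 v0
  set BB := (Option (Fin n) → Option (Fin n) → ZMod 2) with hBB
  set UU := (Fin n → Fin r → ZMod 2) with hUU
  let Uf : UU → Option (Fin n) → Fin r → ZMod 2 := fun U i => i.elim u0 U
  let Vf : UU → Option (Fin n) → Fin r → ZMod 2 := fun V i => i.elim v0 V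
  let P : UU × UU → Prop := fun q => L3c.Full (Uf q.1) ∧ L3c.Full (Vf q.2)
  have hcount : ((Finset.univ.filter fun q : BB × UU × UU =>
      NGood q.1 (Uf q.2.1) (Vf q.2.2)).card : ℝ) =
      gamF (n + 1 - r) * Fintype.card BB * ((Finset.univ.filter P).card : ℝ) := by
    have h1 : ((Finset.univ.filter fun q : BB × UU × UU =>
        NGood q.1 (Uf q.2.1) (Vf q.2.2)).card : ℝ) =
        ∑ q : UU × UU, ((Finset.univ.filter fun B : BB => NGood B (Uf q.1) (Vf q.2)).card : ℝ) := by
      have h2 : (Finset.univ.filter fun q : BB × UU × UU =>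
        NGood q.1 (Uf q.2.1) (Vf q.2.2)).card =
        ∑ q : UU × UU, (Finset.univ.filter fun B : BB => NGood B (Uf q.1) (Vf q.2)).card := by
        simp only [Finset.card_filter]
        rw [Fintype.sum_prod_type, Finset.sum_comm]
      rw [h2]
      push_cast
      rfl
    rw [h1]
    have h3 : ∀ q : UU × UU, ((Finset.univ.filter fun B : BB =>
        NGood B (Uf q.1) (Vf q.2)).card : ℝ) =
        if P q then gamF (n + 1 - r) * Fintype.card BB else 0 := by
      intro q
      by_cases hq : P q
      · rw [if_pos hq, L3c.count_B (by omega) _ _ hq.1 hq.2]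
      · rw [if_neg hq]
        have : (Finset.univ.filter fun B : BB => NGood B (Uf q.1) (Vf q.2)) = ∅ := by
          refine Finset.filter_eq_empty_iff.mpr fun B _ hB => hq ⟨L3c.full_left hB, L3c.full_right hB⟩
        rw [this]
        simp
    rw [Finset.sum_congr rfl fun q _ => h3 q, ← Finset.sum_filter, Finset.sum_const, nsmul_eq_mul]
    ring
  have hnot : ((Finset.univ.filter fun q => ¬ P q).card : ℝ) ≤
      2 ^ (r + 1) / 2 ^ n * (Fintype.card UU * Fintype.card UU) := by
    have hsub : (Finset.univ.filter fun q => ¬ P q) ⊆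
        ((Finset.univ.filter fun U : UU => ¬ L3c.Full (Uf U)) ×ˢ (Finset.univ : Finset UU)) ∪
        ((Finset.univ : Finset UU) ×ˢ (Finset.univ.filter fun V : UU => ¬ L3c.Full (Vf V))) := by
      intro q hq
      simp only [Finset.mem_filter, Finset.mem_univ, true_and, P, not_and_or] at hq
      simp only [Finset.mem_union, Finset.mem_product, Finset.mem_filter, Finset.mem_univ,
        true_and, and_true]
      exact hq
    have h1 : (Finset.univ.filter fun q => ¬ P q).card ≤
        (Finset.univ.filter fun U : UU => ¬ L3c.Full (Uf U)).card * Fintype.card UU +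
        Fintype.card UU * (Finset.univ.filter fun V : UU => ¬ L3c.Full (Vf V)).card := by
      refine (Finset.card_le_card hsub).trans ((Finset.card_union_le _ _).trans ?_)
      rw [Finset.card_product, Finset.card_product, Finset.card_univ]
    have h2 := L3c.count_notFull n r u0
    have h3 := L3c.count_notFull n r v0
    have h4 : ((Finset.univ.filter fun q => ¬ P q).card : ℝ) ≤
        ((Finset.univ.filter fun U : UU => ¬ L3c.Full (Uf U)).card : ℝ) * Fintype.card UU +
        Fintype.card UU * ((Finset.univ.filter fun V : UU => ¬ L3c.Full (Vf V)).card : ℝ) := by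
      exact_mod_cast h1
    have h5 : (0 : ℝ) ≤ Fintype.card UU := by positivity
    refine h4.trans ?_
    have h6 := mul_le_mul_of_nonneg_right h2 h5
    have h7 := mul_le_mul_of_nonneg_left h3 h5
    refine (add_le_add h6 h7).trans (le_of_eq ?_)
    rw [pow_succ]
    ring
  have hsum : ((Finset.univ.filter P).card : ℝ) + ((Finset.univ.filter fun q => ¬ P q).card : ℝ) =
      Fintype.card UU * Fintype.card UU := by
    have h := Finset.card_filter_add_card_filter_not (s := (Finset.univ : Finset (UU × UU))) P
    rw [Finset.card_univ, Fintype.card_prod] at h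
    exact_mod_cast h
  have hBpos : (0 : ℝ) < Fintype.card BB := by
    have : 0 < Fintype.card BB := Fintype.card_pos
    exact_mod_cast this
  have hUpos : (0 : ℝ) < Fintype.card UU := by
    have : 0 < Fintype.card UU := Fintype.card_pos
    exact_mod_cast this
  have hgoal : ((Finset.univ.filter fun q : BB × UU × UU =>
      NGood q.1 (Uf q.2.1) (Vf q.2.2)).card : ℝ) / Fintype.card (BB × UU × UU) -
      gamF (n + 1 - r) = - (gamF (n + 1 - r) * (((Finset.univ.filter fun q => ¬ P q).card : ℝ) /
        (Fintype.card UU * Fintype.card UU))) := by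
    rw [hcount, Fintype.card_prod, Fintype.card_prod]
    push_cast
    have h8 : ((Finset.univ.filter P).card : ℝ) = Fintype.card UU * Fintype.card UU -
      ((Finset.univ.filter fun q => ¬ P q).card : ℝ) := by linarith
    rw [h8]
    field_simp
    ring
  have hg0 : 0 ≤ gamF (n + 1 - r) := Finset.prod_nonneg fun i _ => by
    have : (1 / 2 : ℝ) ^ (i + 1) ≤ 1 := pow_le_one₀ (by norm_num) (by norm_num)
    linarith
  have hg1 : gamF (n + 1 - r) ≤ 1 := by
    refine Finset.prod_le_one (fun i _ => ?_) fun i _ => ?_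
    · have : (1 / 2 : ℝ) ^ (i + 1) ≤ 1 := pow_le_one₀ (by norm_num) (by norm_num)
      linarith
    · have : (0 : ℝ) ≤ (1 / 2 : ℝ) ^ (i + 1) := by positivity
      linarith
  change |((Finset.univ.filter fun q : BB × UU × UU =>
      NGood q.1 (Uf q.2.1) (Vf q.2.2)).card : ℝ) / Fintype.card (BB × UU × UU) -
      gamF (n + 1 - r)| ≤ 2 ^ (r + 1) / 2 ^ n
  rw [hgoal, abs_neg, abs_of_nonneg (by positivity)]
  have h9 : ((Finset.univ.filter fun q => ¬ P q).card : ℝ) / (Fintype.card UU * Fintype.card UU) ≤
      2 ^ (r + 1) / 2 ^ n := by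
    rw [div_le_iff₀ (by positivity)]
    exact hnot
  calc gamF (n + 1 - r) * (((Finset.univ.filter fun q => ¬ P q).card : ℝ) /
        (Fintype.card UU * Fintype.card UU)) ≤ 1 * (2 ^ (r + 1) / 2 ^ n) :=
        mul_le_mul hg1 h9 (by positivity) (by norm_num)
    _ = 2 ^ (r + 1) / 2 ^ n := one_mul _

end Pool.Agent.C1D
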