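import Pool.Agent.C1D.E1

set_option autoImplicit false

/-!
# C1D: Mertens sums over `P8` from `A3Stmt` (helper67)
-/

namespace Pool.Agent.C1D

open Finset

namespace M67

lemma P8le_split (z : ℕ) : P8le z =
    ((Finset.range (z + 1)).filter (fun p => p.Prime ∧ p % 8 = 1)) ∪
    ((Finset.range (z + 1)).filter (fun p => p.Prime ∧ p % 8 = 7)) := by
  ext p
  simp only [P8le, Finset.mem_filter, Finset.mem_union]
  tauto

lemma disj (z : ℕ) : Disjoint
    ((Finset.range (z + 1)).filter (fun p => p.Prime ∧ p % 8 = 1))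
    ((Finset.range (z + 1)).filter (fun p => p.Prime ∧ p % 8 = 7)) := by
  rw [Finset.disjoint_left]
  intro p hp hq
  rw [Finset.mem_filter] at hp hq
  omega

lemma mem_P8le {z p : ℕ} : p ∈ P8le z ↔ p ≤ z ∧ p.Prime ∧ (p % 8 = 1 ∨ p % 8 = 7) := by
  simp only [P8le, Finset.mem_filter, Finset.mem_range, Nat.lt_succ_iff]

lemma mertens (h : A3Stmt) : ∃ C : ℝ, 0 ≤ C ∧ ∀ z : ℕ, 2 ≤ z →
    |∑ p ∈ P8le z, (1 : ℝ) / p - Real.log (Real.log z) / 2| ≤ C := by
  obtain ⟨C, hC⟩ := h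
  refine ⟨2 * |C|, by positivity, fun z hz => ?_⟩
  have h1 := hC 1 (by simp) z hz
  have h7 := hC 7 (by simp) z hz
  rw [P8le_split, Finset.sum_union (disj z)]
  have hle := le_abs_self C
  rw [abs_le] at h1 h7 ⊢
  constructor <;> linarith [h1.1, h1.2, h7.1, h7.2]

lemma mertens1 (h : A3Stmt) : ∃ C : ℝ, 0 ≤ C ∧ ∀ z : ℕ, 2 ≤ z →
    |∑ p ∈ (Finset.range (z + 1)).filter (fun p => p.Prime ∧ p % 8 = 1), (1 : ℝ) / p -
      Real.log (Real.log z) / 4| ≤ C := by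
  obtain ⟨C, hC⟩ := h
  refine ⟨|C|, by positivity, fun z hz => (hC 1 (by simp) z hz).trans (le_abs_self C)⟩

/-- sum of `1/p` over the `P8` primes in `(z, N]` -/
lemma tail (h : A3Stmt) : ∃ C : ℝ, 0 ≤ C ∧ ∀ z N : ℕ, 2 ≤ z → z ≤ N →
    ∑ p ∈ (P8le N).filter (fun p => z < p), (1 : ℝ) / p ≤
      (Real.log (Real.log N) - Real.log (Real.log z)) / 2 + C := by
  obtain ⟨C, hC0, hC⟩ := mertens h
  refine ⟨2 * C, by positivity, fun z N hz hN => ?_⟩
  have h1 := hC z hz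
  have h2 := hC N (hz.trans hN)
  have h3 : ∑ p ∈ P8le N, (1 : ℝ) / p =
      ∑ p ∈ (P8le N).filter (fun p => z < p), (1 : ℝ) / p + ∑ p ∈ P8le z, (1 : ℝ) / p := by
    rw [← Finset.sum_filter_add_sum_filter_not (P8le N) (fun p => z < p)]
    congr 1
    apply Finset.sum_congr _ (fun _ _ => rfl)
    ext p
    rw [Finset.mem_filter, mem_P8le, mem_P8le]
    constructor
    · rintro ⟨⟨_, h⟩, h'⟩
      exact ⟨by omega, h⟩
    · rintro ⟨h', h⟩
      exact ⟨⟨by omega, h⟩, by omega⟩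
  rw [abs_le] at h1 h2
  linarith [h1.1, h2.2]

end M67

end Pool.Agent.C1D
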