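import Pool.Agent.C1D.Defs
import Pool.Agent.TQG.Fin

set_option autoImplicit false

/-!
# C1D: statements of the modules

Every module proves `theorem XX : XXStmt`.  Assembly modules take the statements they need as
hypotheses, so that all modules can be written at the same time.
-/

namespace Pool.Agent.C1D

open Finset

/-! ## A. primes in progressions, Mertens sums -/

/-- [A1] prime number theorem in the blocks, classes modulo 16.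
Route: `PNTAP.tendsto_primeCounting_class` (or the theta form) for `q = 16`. -/
def A1Stmt : Prop := ∀ θ : ℝ, 0 < θ → ∀ ε : ℝ, 0 < ε → ∃ N1 : ℝ, 2 ≤ N1 ∧ ∀ N : ℝ, N1 ≤ N →
  ∀ c ∈ cls, |((pr N θ c).card : ℝ) - θ * N / (8 * Real.log N)| ≤ ε * N / Real.log N

/-- [A2] fixed `d`: the symbols are equidistributed in the blocks.
Route: `(d / p)` depends only on `p` modulo `8 d` (or `4 d`); sum `A1` for the modulus `16 d` over the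
classes; the number of classes with symbol `1` and `-1` in a class modulo 16 is the same. -/
def A2Stmt : Prop := ∀ θ : ℝ, 0 < θ → ∀ d : ℕ, F0 d → 1 < d → ∀ ε : ℝ, 0 < ε →
  ∃ N1 : ℝ, 2 ≤ N1 ∧ ∀ N : ℝ, N1 ≤ N → ∀ c ∈ cls,
    |∑ p ∈ pr N θ c, ((jacobiSym (d : ℤ) p : ℤ) : ℝ)| ≤ ε * N / Real.log N

/-- [A3] Mertens in the classes modulo 8. -/
def A3Stmt : Prop := ∃ C : ℝ, ∀ a ∈ ({1, 3, 5, 7} : Finset ℕ), ∀ z : ℕ, 2 ≤ z →
  |∑ p ∈ (Finset.range (z + 1)).filter (fun p => p.Prime ∧ p % 8 = a), (1 : ℝ) / p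
    - Real.log (Real.log z) / 4| ≤ C

/-- [A4] upper bound for `∑ (d/p)/p`, `∑ (p/d)/p` over `P8` primes, uniformly in `d`. -/
def A4Stmt : Prop := ∃ C : ℝ, ∀ d : ℕ, F0 d → 1 < d → ∀ z : ℕ, 2 ≤ z →
  ∑ p ∈ P8le z, ((jacobiSym (d : ℤ) p : ℤ) : ℝ) / p ≤ Real.log (Real.log (3 * d)) + C ∧
  ∑ p ∈ P8le z, ((jacobiSym (p : ℤ) d : ℤ) : ℝ) / p ≤ Real.log (Real.log (3 * d)) + C

/-! ## B. first moment over the smooth parts -/

open Classical in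
/-- [B1] bilinear sums of Jacobi symbols, with a power saving. -/
def B1Stmt : Prop := ∃ C : ℝ, ∀ (D F : ℕ), 1 ≤ D → 1 ≤ F → ∀ a b : ℕ → ℝ, (∀ n, |a n| ≤ 1) →
  (∀ n, |b n| ≤ 1) →
  |∑ d ∈ (Finset.Ioc D (2 * D)).filter (fun d => F0 d),
    ∑ f ∈ (Finset.Ioc F (2 * F)).filter (fun f => F0 f),
      a d * b f * ((jacobiSym (d : ℤ) f : ℤ) : ℝ)| ≤
    C * D * F * (min D F : ℝ) ^ (-(1 / 16) : ℝ)

/-- [B2] the kernel counts as character sums -/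
def B2Stmt : Prop := ∀ m : ℕ, F0 m →
  A1N m = (∑ d ∈ m.divisors, ∑ f ∈ (m / d).divisors, ((jacobiSym (d : ℤ) f : ℤ) : ℝ)) /
      2 ^ m.primeFactors.card ∧
  A2N m ≤ (∑ d ∈ m.divisors.filter (fun d => d ≠ 1 ∧ w7 d = 0),
        ∑ f ∈ (m / d).divisors, ((jacobiSym (d : ℤ) f : ℤ) : ℝ)) / 2 ^ m.primeFactors.card +
      (∑ d ∈ m.divisors.filter (fun d => w7 (m / d) = 0),
        ∑ f ∈ (m / d).divisors, ((jacobiSym (d : ℤ) f : ℤ) : ℝ)) / 2 ^ m.primeFactors.card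

/-- [B3] first moment of the kernel over the smooth numbers -/
def B3Stmt : Prop := ∃ C : ℝ, ∀ z : ℕ, 2 ≤ z →
  ∑ m ∈ Sm z, A1N m / m ≤ C * Real.sqrt (Real.log z)

/-- [B4] the vectors in both kernels are rare -/
def B4Stmt : Prop := ∀ ε : ℝ, 0 < ε → ∃ z0 : ℕ, ∀ z : ℕ, z0 ≤ z →
  ∑ m ∈ Sm z, A2N m / m ≤ ε * Real.sqrt (Real.log z)

/-- [B5] few primes `7` modulo `8` is rare -/
def B5Stmt : Prop := ∀ E0 : ℕ, ∀ ε : ℝ, 0 < ε → ∃ z0 : ℕ, ∀ z : ℕ, z0 ≤ z →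
  ∑ m ∈ (Sm z).filter (fun m => w7 m < E0), (1 : ℝ) / m ≤ ε * Real.sqrt (Real.log z)

/-! ## L. linear algebra over `F_2` -/

open Matrix in
/-- [L1] bases of the two kernels and a generalised inverse with the right property -/
def L1Stmt : Prop := ∀ (ι : Type) [Fintype ι] [DecidableEq ι] (M : Matrix ι ι (ZMod 2))
  (e : ι → ZMod 2),
  (∀ x : ι → ZMod 2, M *ᵥ x = 0 → Mᵀ *ᵥ x = 0 → x = 0) →
  ∃ (r : ℕ) (X Y : Matrix ι (Fin r) (ZMod 2)) (G : Matrix ι ι (ZMod 2)),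
    (∀ x, M *ᵥ x = 0 ↔ ∃ k, x = X *ᵥ k) ∧ (∀ x, Mᵀ *ᵥ x = 0 ↔ ∃ k, x = Y *ᵥ k) ∧
    (∀ k k', X *ᵥ k + Y *ᵥ k' = 0 → k = 0 ∧ k' = 0) ∧
    (∀ x, Yᵀ *ᵥ x = 0 → M *ᵥ (G *ᵥ x) = x) ∧ M * G * M = M ∧
    (Gᵀ *ᵥ e = 0 ∨ Xᵀ *ᵥ e = 0)

open Matrix in
/-- [L1b] bordered matrix: eliminating `M`. -/
def L1bStmt : Prop := ∀ (ι J : Type) [Fintype ι] [DecidableEq ι] [Fintype J] [DecidableEq J]
  (r : ℕ) (M G : Matrix ι ι (ZMod 2)) (X Y : Matrix ι (Fin r) (ZMod 2)),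
    (∀ x, M *ᵥ x = 0 ↔ ∃ k, x = X *ᵥ k) → (∀ x, Mᵀ *ᵥ x = 0 ↔ ∃ k, x = Y *ᵥ k) →
    (∀ k, X *ᵥ k = 0 → k = 0) → (∀ x, Yᵀ *ᵥ x = 0 → M *ᵥ (G *ᵥ x) = x) →
  ∀ (A : Matrix J J (ZMod 2)) (C : Matrix J ι (ZMod 2)) (D : Matrix ι J (ZMod 2)),
    (∀ (y : J → ZMod 2) (x : ι → ZMod 2), A *ᵥ y + C *ᵥ x = 0 → D *ᵥ y + M *ᵥ x = 0 →
      y = 0 ∧ x = 0) ↔
    (∀ (y : J → ZMod 2) (k : Fin r → ZMod 2),
      (A + C * G * D) *ᵥ y + (C * X) *ᵥ k = 0 → (Yᵀ * D) *ᵥ y = 0 → y = 0 ∧ k = 0)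

open Matrix in
/-- [L2] the kernel of `G + Gᵀ` is small: `rank (G + Gᵀ) ≥ |e| - 1 - 2 r`. -/
def L2Stmt : Prop := ∀ (ι : Type) [Fintype ι] [DecidableEq ι] (M G : Matrix ι ι (ZMod 2))
  (e : ι → ZMod 2) (r : ℕ), (∀ a b, M a b + M b a = e a * e b + if a = b then e a else 0) →
  M * G * M = M → (Finset.univ.filter fun x : ι → ZMod 2 => M *ᵥ x = 0).card = 2 ^ r →
  (Finset.univ.filter fun x : ι → ZMod 2 => (G + Gᵀ) *ᵥ x = 0).card *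
    2 ^ (Finset.univ.filter fun a => e a = 1).card ≤ 2 ^ (Fintype.card ι + 1 + 2 * r)

/-- index type of the bits of the bordered matrix that are not free -/
abbrev Bt (n r : ℕ) : Type := {q : Fin n × Fin n // q.1 < q.2} ⊕ Fin n ⊕ (Fin n × Fin r) ⊕
  (Fin n × Fin r)

open Matrix in
/-- the bits of the bordered matrix that are not free, as functions of `s` and `eps` -/
def Phi {ι : Type*} [Fintype ι] {n r : ℕ} (G : Matrix ι ι (ZMod 2)) (X Y : Matrix ι (Fin r) (ZMod 2))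
    (e : ι → ZMod 2) (s : Fin n → ι → ZMod 2) (eps : Fin n → ZMod 2) : Bt n r → ZMod 2
  | Sum.inl q => eps q.1.1 * eps q.1.2 + s q.1.1 ⬝ᵥ (G *ᵥ s q.1.2) + s q.1.2 ⬝ᵥ (G *ᵥ s q.1.1) +
      eps q.1.2 * (s q.1.1 ⬝ᵥ (G *ᵥ e)) + eps q.1.1 * (s q.1.2 ⬝ᵥ (G *ᵥ e))
  | Sum.inr (Sum.inl j) => eps j + e ⬝ᵥ (G *ᵥ (s j + eps j • e))
  | Sum.inr (Sum.inr (Sum.inl q)) => (Xᵀ *ᵥ s q.1) q.2
  | Sum.inr (Sum.inr (Sum.inr q)) => (Yᵀ *ᵥ (s q.1 + eps q.1 • e)) q.2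

open Matrix in
/-- [L3] all characters of the bits `Phi` have small bias -/
def L3Stmt : Prop := ∀ (ι : Type) [Fintype ι] [DecidableEq ι] (n r : ℕ) (G : Matrix ι ι (ZMod 2))
  (X Y : Matrix ι (Fin r) (ZMod 2)) (e : ι → ZMod 2),
  (∀ k k', X *ᵥ k + Y *ᵥ k' = 0 → k = 0 ∧ k' = 0) → (Gᵀ *ᵥ e = 0 ∨ Xᵀ *ᵥ e = 0) →
  (Finset.univ.filter fun x : ι → ZMod 2 => (G + Gᵀ) *ᵥ x = 0).card *
    2 ^ (Finset.univ.filter fun a => e a = 1).card ≤ 2 ^ (Fintype.card ι + 1 + 2 * r) →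
  ∀ S : Finset (Bt n r), S.Nonempty →
    |∑ q : (Fin n → ι → ZMod 2) × (Fin n → ZMod 2),
      ∏ b ∈ S, (if Phi G X Y e q.1 q.2 b = 0 then (1 : ℝ) else -1)| *
        2 ^ (Finset.univ.filter fun a => e a = 1).card ≤
      2 ^ (1 + 2 * r) * Fintype.card ((Fin n → ι → ZMod 2) × (Fin n → ZMod 2))

/-- the bordered matrix has trivial kernel -/
def NGood {n r : ℕ} (B : Option (Fin n) → Option (Fin n) → ZMod 2)
    (U V : Option (Fin n) → Fin r → ZMod 2) : Prop :=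
  ∀ (t : Option (Fin n) → ZMod 2) (k : Fin r → ZMod 2),
    (∀ i, ∑ j, B i j * t j + ∑ m, U i m * k m = 0) → (∀ m, ∑ j, V j m * t j = 0) → t = 0 ∧ k = 0

open Classical in
/-- [L3c] uniform bordered matrices with one prescribed row of `U` and of `V` -/
def L3cStmt : Prop := ∀ (n r : ℕ), r ≤ n → ∀ u0 v0 : Fin r → ZMod 2,
  |((Finset.univ.filter fun q : (Option (Fin n) → Option (Fin n) → ZMod 2) ×
      (Fin n → Fin r → ZMod 2) × (Fin n → Fin r → ZMod 2) =>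
        NGood q.1 (fun i => i.elim u0 q.2.1) (fun i => i.elim v0 q.2.2)).card : ℝ) /
      Fintype.card ((Option (Fin n) → Option (Fin n) → ZMod 2) ×
        (Fin n → Fin r → ZMod 2) × (Fin n → Fin r → ZMod 2)) - gamF (n + 1 - r)| ≤
    2 ^ (r + 1) / 2 ^ n

/-- [L0] the product `gam` -/
def L0Stmt : Prop := Filter.Tendsto gamF Filter.atTop (nhds gam) ∧ (∀ j, gam ≤ gamF j) ∧
  (∀ j, gamF j ≤ 1) ∧ 1 / 4 < gam

/-- [L4] fixed `u`: the matrix `Z` is invertible with probability close to `gam`. -/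
def L4Stmt : Prop := ∀ δ : ℝ, 0 < δ → ∀ r0 : ℕ, ∃ J : ℕ, ∀ n : ℕ, J ≤ n → ∃ E0 : ℕ,
  ∀ (ι : Type) [Fintype ι] [DecidableEq ι] (M : ι → ι → ZMod 2) (e l : ι → ZMod 2),
    (∀ a b, M a b + M b a = e a * e b + if a = b then e a else 0) →
    E0 ≤ (Finset.univ.filter fun a => e a = 1).card →
    ((Finset.univ.filter fun x : ι → ZMod 2 => ∀ a, ∑ b, M a b * x b = 0).card ≤ 2 ^ r0) →
    (∀ x : ι → ZMod 2, (∀ a, ∑ b, M a b * x b = 0) → (∀ b, ∑ a, M a b * x a = 0) → x = 0) →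
    |zAvg n M e l - gam| ≤ δ

/-- [L5] the random model: averaged over the classes, the fraction of good matrices is `gam`. -/
def L5Stmt : Prop := ∀ δ : ℝ, 0 < δ → ∀ r0 : ℕ, ∃ J : ℕ, ∀ T : ℕ, J ≤ T → ∃ E0 : ℕ,
  ∀ (ι : Type) [Fintype ι] [DecidableEq ι] (sym0 : ι → ι → ZMod 2) (e l : ι → ZMod 2),
    (∀ a, sym0 a a = 0) → (∀ a b, a ≠ b → sym0 a b + sym0 b a = e a * e b) →
    E0 ≤ (Finset.univ.filter fun a => e a = 1).card →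
    |parAvg sym0 e l T - gam| ≤ δ + A1 sym0 / 2 ^ r0 + A2 sym0

/-! ## D. equidistribution in product sets -/

/-- [D1] Parseval: replacing the symbol vector of one prime by a uniform vector. -/
def D1Stmt : Prop := ∀ (α V : Type) [Fintype V] [DecidableEq V] (A : Finset α)
  (x : α → V → ZMod 2) (H : (V → ZMod 2) → ℝ), (∀ y, 0 ≤ H y) → (∀ y, H y ≤ 1) → A.Nonempty →
  |(∑ p ∈ A, H (x p)) / A.card - (∑ y : V → ZMod 2, H y) / 2 ^ Fintype.card V| ≤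
    Real.sqrt (∑ U ∈ (Finset.univ : Finset V).powerset.erase ∅,
      ((∑ p ∈ A, ∏ a ∈ U, (if x p a = 0 then (1 : ℝ) else -1)) / A.card) ^ 2)

open Classical in
/-- [D2] the hybrid argument: all large primes are replaced one after the other. -/
def D2Stmt : Prop := ∀ (ι : Type) [Fintype ι] [DecidableEq ι] (v : ι → ℕ) (T : ℕ)
  (A : Fin T → Finset ℕ) (c : Fin T → ℕ),
  Function.Injective v → (∀ a, P8 (v a)) → (∀ j, ∀ p ∈ A j, p.Prime ∧ p % 16 = c j) →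
  (∀ j, c j ∈ cls) → (∀ j, (A j).Nonempty) → (∀ i j, i ≠ j → Disjoint (A i) (A j)) →
  (∀ a j, v a ∉ A j) →
  |(((Fintype.piFinset A).filter fun p =>
        GoodS (symN (Sum.elim v p)) (lamN (Sum.elim v p))).card : ℝ) -
      (∏ j, ((A j).card : ℝ)) * modelAvg (symN v) (epsN v) (lamN v) (epsN c) (lamN c)| ≤
    ∑ j, ∑ p ∈ Fintype.piFinset A,
      Real.sqrt (∑ d ∈ ((∏ a, v a) * ∏ i ∈ Finset.univ.erase j, p i).divisors.erase 1,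
        Shat (A j) d ^ 2)

open Classical in
/-- [D3] large sieve: mean square of `Shat` over `d > D0`. -/
def D3Stmt : Prop := ∀ θ : ℝ, 0 < θ → ∀ K : ℕ, ∃ C κ N1 : ℝ, 0 < C ∧ 0 < κ ∧ 2 ≤ N1 ∧
  ∀ N : ℝ, N1 ≤ N → ∀ c ∈ cls, ∀ D0 : ℕ, 1 ≤ D0 →
    ∑ d ∈ (Finset.Ioc D0 ⌊N ^ K⌋₊).filter F0, Shat (pr N θ c) d ^ 2 / d ≤ C / D0 + C * N ^ (-κ)

/-- [D4] the total equidistribution error is small -/
def D4Stmt : Prop := ∀ η : ℝ, 0 < η → η < 1 → ∀ θ : ℝ, 0 < θ → θ < 1 → ∀ ε : ℝ, 0 < ε →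
  ∃ X0 : ℝ, ∀ X : ℝ, X0 ≤ X → Err (zz η X) θ X ≤ ε * SX X

/-! ## E. counting -/

/-- [E1] upper bound of Hall-Tenenbaum type for sums of multiplicative functions supported on the
squarefree numbers. -/
def E1Stmt : Prop := ∀ A : ℝ, 0 ≤ A → ∃ C : ℝ, 0 ≤ C ∧ ∀ g : ℕ → ℝ,
  (∀ p : ℕ, p.Prime → 0 ≤ g p ∧ g p ≤ A) → ∀ X : ℝ, 2 ≤ X →
    ∑ m ∈ (Finset.Icc 1 ⌊X⌋₊).filter Squarefree, ∏ p ∈ m.primeFactors, g p ≤
      C * (X / Real.log X) *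
        Real.exp (∑ p ∈ (Finset.Icc 1 ⌊X⌋₊).filter Nat.Prime, g p / p)

/-- [E2] size of the families -/
def E2Stmt : Prop := (∃ C : ℝ, ∀ X : ℝ, 1 ≤ X → N0 X ≤ C * (X / Real.sqrt (1 + Real.log X))) ∧
  (∃ c X0 : ℝ, 0 < c ∧ ∀ X : ℝ, X0 ≤ X → c * SX X ≤ NF X)

open Classical in
/-- [E3] few large primes -/
def E3Stmt : Prop := ∀ J : ℕ, ∀ ε : ℝ, 0 < ε → ∃ η0 : ℝ, 0 < η0 ∧ ∀ η : ℝ, 0 < η → η ≤ η0 →
  ∃ X0 : ℝ, ∀ X : ℝ, X0 ≤ X →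
    (((Finset.Icc 1 ⌊X⌋₊).filter fun m => F0 m ∧ wz (zz η X) m < J).card : ℝ) ≤ ε * SX X

open Classical in
/-- [E4] two large primes in one block -/
def E4Stmt : Prop := ∀ η : ℝ, 0 < η → η < 1 → ∀ θ : ℝ, 0 < θ → θ < 1 → ∀ ε : ℝ, 0 < ε →
  ∃ X0 : ℝ, ∀ X : ℝ, X0 ≤ X →
    (((Finset.Icc 1 ⌊X⌋₊).filter fun m => ∃ p q b : ℕ, p.Prime ∧ q.Prime ∧ p < q ∧ p * q ∣ m ∧
      Nb (zz η X) θ b < p ∧ (q : ℝ) ≤ Nb (zz η X) θ (b + 1)).card : ℝ) ≤ ε * SX X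

open Classical in
/-- [E5] numbers close to `X` -/
def E5Stmt : Prop := ∀ ε : ℝ, 0 < ε → ∃ κ : ℝ, 0 < κ ∧ κ < 1 ∧ ∃ X0 : ℝ, ∀ X : ℝ, X0 ≤ X →
    (((Finset.Icc 1 ⌊X⌋₊).filter fun m => F0 m ∧ X * (1 - κ) < m).card : ℝ) ≤ ε * SX X

open Classical in
/-- [E6] large smooth part -/
def E6Stmt : Prop := ∀ ε : ℝ, 0 < ε → ∃ η0 : ℝ, 0 < η0 ∧ ∀ η : ℝ, 0 < η → η ≤ η0 →
  ∃ X0 : ℝ, ∀ X : ℝ, X0 ≤ X →
    (((Finset.Icc 1 ⌊X⌋₊).filter fun m =>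
      F0 m ∧ Real.sqrt X < (smp (zz η X) m : ℝ)).card : ℝ) ≤ ε * SX X

open Classical in
/-- [E7] number of elements with given smooth part -/
def E7Stmt : Prop := ∃ C : ℝ, 0 < C ∧ ∀ (z : ℕ) (X : ℝ), 2 ≤ z → (z : ℝ) ^ 2 ≤ X →
  ∀ m' ∈ Sm z, (m' : ℝ) ≤ Real.sqrt X →
    (((Finset.Icc 1 ⌊X⌋₊).filter fun m => F0 m ∧ smp z m = m').card : ℝ) ≤
      C * X / (m' * Real.sqrt (Real.log X) * Real.sqrt (Real.log z))

/-! ## G. assembly -/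

/-- fibre over the smooth part `m'` and the set `B` of blocks: the class data of the primes is
free apart from the condition modulo 8 -/
noncomputable def fib (z : ℕ) (θ : ℝ) (m' : ℕ) (B : Finset ℕ) : Finset ℕ :=
  ((Fintype.piFinset fun b : B => cls.biUnion (blk z θ b)).image fun p => m' * ∏ b, p b).filter
    fun m => m % 8 = 1

open Classical in
/-- the patterns used: at least `J` blocks, `m'` in `Sm z` at most `sqrt X`, top of the fibre at most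
`X` -/
noncomputable def pats (z : ℕ) (θ X : ℝ) (J : ℕ) : Finset (ℕ × Finset ℕ) :=
  ((Sm z) ×ˢ (Finset.range (nblk z θ X)).powerset).filter fun q =>
    J ≤ q.2.card ∧ (q.1 : ℝ) ≤ Real.sqrt X ∧ (q.1 : ℝ) * ∏ b ∈ q.2, Nb z θ (b + 1) ≤ X

open Classical in
/-- [G1] the fibres: disjoint, contained in the family, smooth part as given, and every element of
the family that is in no fibre is in one of the four exceptional sets. -/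
def G1Stmt : Prop := ∀ (z : ℕ) (θ X κ : ℝ) (J K : ℕ), 2 ≤ z → 0 < θ → θ < 1 → 1 ≤ J →
  (z : ℝ) ≤ X → X < (z : ℝ) ^ (K + 1) → 1 - κ ≤ (1 + θ)⁻¹ ^ (K + 1) →
  (∀ q ∈ pats z θ X J, q.2.card ≤ K ∧
    ∀ m ∈ fib z θ q.1 q.2, FF m ∧ (m : ℝ) ≤ X ∧ smp z m = q.1 ∧
      ∀ q' ∈ pats z θ X J, m ∈ fib z θ q'.1 q'.2 → q' = q) ∧
  (∀ m : ℕ, FF m → (m : ℝ) ≤ X → (∃ q ∈ pats z θ X J, m ∈ fib z θ q.1 q.2) ∨
    wz z m < J ∨ X * (1 - κ) < m ∨ Real.sqrt X < smp z m ∨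
    ∃ p q b : ℕ, p.Prime ∧ q.Prime ∧ p < q ∧ p * q ∣ m ∧ Nb z θ b < p ∧ (q : ℝ) ≤ Nb z θ (b + 1))

open Classical in
/-- number of good elements of a finite set of numbers -/
noncomputable def goodCard (S : Finset ℕ) : ℝ := ((S.filter GoodN).card : ℝ)

/-- the equidistribution error of one fibre -/
noncomputable def errF (z : ℕ) (θ : ℝ) (m' : ℕ) (B : Finset ℕ) : ℝ :=
  ∑ c ∈ Fintype.piFinset (fun _ : B => cls), ∑ j : B,
    ∑ p ∈ Fintype.piFinset (fun b : B => blk z θ b (c b)),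
      Real.sqrt (∑ d ∈ (m' * ∏ i ∈ Finset.univ.erase j, p i).divisors.erase 1,
        Shat (blk z θ j (c j)) d ^ 2)

/-- parity condition on class data -/
def ParC {τ : Type*} [Fintype τ] (m' : ℕ) (c : τ → ℕ) : Prop := (m' * ∏ b, c b) % 8 = 1

open Classical in
/-- [G2a] one fibre as a union of product sets over the class data -/
def G2aStmt : Prop := ∀ (z : ℕ) (θ : ℝ), 2 ≤ z → 0 < θ → ∀ m' ∈ Sm z, ∀ B : Finset ℕ,
  (goodCard (fib z θ m' B) =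
    ∑ c ∈ (Fintype.piFinset (fun _ : B => cls)).filter (ParC m'),
      (((Fintype.piFinset fun b : B => blk z θ b (c b)).filter fun p =>
        GoodS (symN (Sum.elim (fun q : m'.primeFactors => (q : ℕ)) p))
          (lamN (Sum.elim (fun q : m'.primeFactors => (q : ℕ)) p))).card : ℝ)) ∧
  (((fib z θ m' B).card : ℝ) =
    ∑ c ∈ (Fintype.piFinset (fun _ : B => cls)).filter (ParC m'),
      ∏ b : B, ((blk z θ b (c b)).card : ℝ))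

/-- [G2] one fibre: `D2` for all class data, the block counts `A1` and `L5`. -/
def G2Stmt : Prop := ∀ δ : ℝ, 0 < δ → ∀ r0 : ℕ, ∃ J : ℕ, 2 ≤ J ∧
  ∀ (K : ℕ) (θ : ℝ), 0 < θ → θ < 1 → ∃ E0 z0 : ℕ, ∀ z : ℕ, z0 ≤ z → ∀ m' ∈ Sm z, E0 ≤ w7 m' →
    ∀ B : Finset ℕ, J ≤ B.card → B.card ≤ K →
      |goodCard (fib z θ m' B) - gam * (fib z θ m' B).card| ≤
        (δ + 2 * A1N m' / 2 ^ r0 + 2 * A2N m') * (fib z θ m' B).card + errF z θ m' B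

/-- [G3] the errors of the fibres add up to at most `Err`. -/
def G3Stmt : Prop := ∀ (z : ℕ) (θ X : ℝ) (J : ℕ), 2 ≤ z → 0 < θ → θ < 1 → (z : ℝ) ≤ X →
  ∑ q ∈ pats z θ X J, errF z θ q.1 q.2 ≤ Err z θ X

open Classical in
/-- [G4] the density theorem for `GoodN` -/
def G4Stmt : Prop := ∀ δ : ℝ, 0 < δ → ∃ X0 : ℝ, ∀ X : ℝ, X0 ≤ X →
  |(((Finset.Icc 1 ⌊X⌋₊).filter fun m => FF m ∧ GoodN m).card : ℝ) - gam * NF X| ≤ δ * NF X

/-- the Tunnell difference of `n = 2 m` -/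
noncomputable def tun (m : ℕ) : ℤ :=
  2 * (Pool.Agent.H24.cardC (2 * m) : ℤ) - (Pool.Agent.H24.cardD (2 * m) : ℤ)

/-- [G5] the digit and `GoodN` (landed theorem TunnellRedei) -/
def G5Stmt : Prop := ∀ m : ℕ, FF m →
  (tun m ≡ 2 ^ (m.primeFactors.card + 2) [ZMOD 2 ^ (m.primeFactors.card + 3)] ↔ GoodN m)

end Pool.Agent.C1D
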